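import Mathlib

/-!
# JOB T3-S5-Heights: the abscissas form a finite set

See Heights.lean of the first tower (`HT2_quot`) for the use of `Height.logHeight_eval_ge'`.
`f(t) = -(t³ + 4 c) / (3 t²)`, forms `F₀ = -(X³ + 4 c Z³)`, `F₁ = 3 X² Z` of degree 3, identities
with quadratic coefficients (`c ≠ 0`):
`X⁵ = - X² F₀ - (4 c / 3) Z² F₁`, `Z⁵ = - (1 / (4 c)) Z² F₀ - (1 / (12 c)) X Z F₁`.
So `h(f(t)) ≥ 3 h(t) + C₁` for every `t ≠ 0`.
FINITENESS. Let `S` be the set of abscissas (all different from `0`); by hypothesis there is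
`g : S → S` with `f(g(x)) = x`. `h(g(x)) ≤ (h(x) + C) / 3`, so `h(gⁿ(x)) ≤ B := C` for `n` large
(`h(gⁿ(x)) ≤ h(x) / 3ⁿ + C / 2`, `C > 0`). The set `T` of elements of `S` of height at most `B` is
finite (`NumberField.finite_setOfPred_logHeight₁_le`, see `HT2_northcott`). For `x` in `S` the
elements `gⁿ(x)`, `n` large, are in `T`, so `g^m(x) = g^n(x)` for some `m < n`; applying `f^m`
(`fᵐ(gᵐ(x)) = x`): `x = g^(n-m)(x)`, so `x = g^(k (n-m))(x)` for every `k`, so `x` is in `T`.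
-/

set_option autoImplicit false

namespace Pool.Agent.Lib.MP_1a91b9_ntT3.S5

open NumberField

section Heights_aux

open MvPolynomial

variable {N : Type*} [Field N] [NumberField N]

/-- the quadratic coefficients -/
private noncomputable def Heights_q (c : N) (a : Fin 2 × Fin 2) : MvPolynomial (Fin 2) N :=
  (![![C (-1) * X 0 ^ 2, C (-(4 * c / 3)) * X 1 ^ 2],
    ![C (-(1 / (4 * c))) * X 1 ^ 2, C (-(1 / (12 * c))) * (X 0 * X 1)]] :
      Fin 2 → Fin 2 → MvPolynomial (Fin 2) N) a.1 a.2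

omit [NumberField N] in
private theorem Heights_q_hom (c : N) (a : Fin 2 × Fin 2) :
    (Heights_q (N := N) c a).IsHomogeneous 2 := by
  obtain ⟨i, j⟩ := a
  fin_cases i <;> fin_cases j
  · exact (isHomogeneous_X_pow 0 2).C_mul _
  · exact (isHomogeneous_X_pow 1 2).C_mul _
  · exact (isHomogeneous_X_pow 1 2).C_mul _
  · exact ((isHomogeneous_X N 0).mul (isHomogeneous_X N 1)).C_mul _

end Heights_aux

theorem height_third {N : Type*} [Field N] [NumberField N] (c : N) (hc : c ≠ 0) :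
    ∃ C₁ : ℝ, ∀ t : N, t ≠ 0 →
      C₁ + 3 * Height.logHeight₁ t ≤ Height.logHeight₁ (-(t ^ 3 + 4 * c) / (3 * t ^ 2)) := by
  obtain ⟨C₁, hC⟩ := Height.logHeight_eval_ge' (K := N) (M := 2) (N := 3) (Heights_q_hom (N := N) c)
  refine ⟨C₁, fun t _ => ?_⟩
  have h1 := hC (fun j => MvPolynomial.C ((![-(t ^ 3 + 4 * c), 3 * t ^ 2] : Fin 2 → N) j))
    (x := ![t, 1]) (by
    intro k
    fin_cases k
    · simp [Heights_q, Fin.sum_univ_two]
      ring
    · simp [Heights_q, Fin.sum_univ_two]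
      field_simp
      ring)
  rw [Height.logHeight₁_div_eq_logHeight, Height.logHeight₁_eq_logHeight]
  have h2 : (fun j => (MvPolynomial.C ((![-(t ^ 3 + 4 * c), 3 * t ^ 2] : Fin 2 → N) j) :
      MvPolynomial (Fin 2) N).eval ![t, 1]) = ![-(t ^ 3 + 4 * c), 3 * t ^ 2] := by
    funext j
    rw [MvPolynomial.eval_C]
  rw [h2] at h1
  exact_mod_cast h1

theorem finite_of_third {N : Type*} [Field N] [NumberField N] (c : N) (hc : c ≠ 0) (S : Set N)
    (h : ∀ x ∈ S, ∃ t ∈ S, t ≠ 0 ∧ x = -(t ^ 3 + 4 * c) / (3 * t ^ 2)) : S.Finite := by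
  obtain ⟨C₁, hC⟩ := height_third c hc
  choose g₀ hg₀ hne hfg using h
  set g : S → S := fun x => ⟨g₀ x.1 x.2, hg₀ x.1 x.2⟩ with hg
  have hinj : Function.Injective g := by
    intro x y hxy
    have h1 : g₀ x.1 x.2 = g₀ y.1 y.2 := congrArg Subtype.val hxy
    apply Subtype.ext
    rw [hfg x.1 x.2, hfg y.1 y.2, h1]
  have hh : ∀ x : S, Height.logHeight₁ (g x).1 ≤ (Height.logHeight₁ x.1 + |C₁|) / 3 := by
    intro x
    have h1 := hC (g x).1 (hne x.1 x.2)
    have h2 : -((g x).1 ^ 3 + 4 * c) / (3 * (g x).1 ^ 2) = x.1 := (hfg x.1 x.2).symm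
    rw [h2] at h1
    have h3 := neg_abs_le C₁
    linarith
  have hit : ∀ (n : ℕ) (x : S), Height.logHeight₁ (g^[n] x).1 ≤
      Height.logHeight₁ x.1 / 3 ^ n + |C₁| / 2 := by
    intro n
    induction n with
    | zero =>
      intro x
      have h1 := abs_nonneg C₁
      simp only [Function.iterate_zero, id_eq, pow_zero, div_one]
      linarith
    | succ n ih =>
      intro x
      rw [Function.iterate_succ_apply', pow_succ]
      have h1 := hh (g^[n] x)
      have h2 := ih x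
      have h3 : Height.logHeight₁ x.1 / (3 ^ n * 3) = Height.logHeight₁ x.1 / 3 ^ n / 3 := by
        rw [div_div]
      rw [h3]
      linarith
  have hT : {x : N | Height.logHeight₁ x ≤ |C₁| / 2 + 1}.Finite :=
    NumberField.finite_setOfPred_logHeight₁_le N _
  refine hT.subset fun x hx => ?_
  obtain ⟨n₀, hn₀⟩ : ∃ n₀ : ℕ, ∀ n ≥ n₀, Height.logHeight₁ (g^[n] ⟨x, hx⟩).1 ≤ |C₁| / 2 + 1 := by
    obtain ⟨n₀, h1⟩ := pow_unbounded_of_one_lt (Height.logHeight₁ x) (by norm_num : (1 : ℝ) < 3)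
    refine ⟨n₀, fun n hn => ?_⟩
    have h2 := hit n ⟨x, hx⟩
    have h3 : (3 : ℝ) ^ n₀ ≤ 3 ^ n := pow_le_pow_right₀ (by norm_num) hn
    have h4 : Height.logHeight₁ x / 3 ^ n ≤ 1 := by
      rw [div_le_one (by positivity)]
      linarith
    have h5 : Height.logHeight₁ (⟨x, hx⟩ : S).1 / 3 ^ n ≤ 1 := h4
    linarith
  have hni : ¬ Function.Injective (fun n : ℕ => (⟨(g^[n₀ + n] ⟨x, hx⟩).1,
      hn₀ _ (Nat.le_add_right _ _)⟩ : {x : N | Height.logHeight₁ x ≤ |C₁| / 2 + 1})) := by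
    have := hT.to_subtype
    exact not_injective_infinite_finite _
  rw [Function.Injective] at hni
  push Not at hni
  obtain ⟨a, b, hab, hne'⟩ := hni
  wlog hlt : a < b generalizing a b
  · exact this b a hab.symm hne'.symm (lt_of_le_of_ne (not_lt.mp hlt) hne'.symm)
  have h1 : g^[n₀ + a] ⟨x, hx⟩ = g^[n₀ + b] ⟨x, hx⟩ := Subtype.ext (Subtype.mk.inj hab)
  have h2 : g^[b - a] ⟨x, hx⟩ = ⟨x, hx⟩ := by
    have h3 : n₀ + b = n₀ + a + (b - a) := by omega
    rw [h3, Function.iterate_add_apply g (n₀ + a) (b - a)] at h1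
    exact (hinj.iterate _ h1).symm
  have h4 : g^[n₀ * (b - a)] ⟨x, hx⟩ = ⟨x, hx⟩ := by
    rw [mul_comm, Function.iterate_mul]
    exact Function.iterate_fixed h2 n₀
  have h5 := hn₀ (n₀ * (b - a)) (Nat.le_mul_of_pos_right _ (by omega))
  rw [h4] at h5
  exact h5

end Pool.Agent.Lib.MP_1a91b9_ntT3.S5
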