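import Pool.Agent.Lib.MP_1a91b9_ntT3.S5.Defs

/-!
# JOB T3-S5-Gen: general facts on places

Use `val_below K w x : w.valuation L (algebraMap K L x) = (below K w).valuation K x ^ ram K w`,
`ram_pos`, `ram_le`, `exists_above`, `below_below`, `unique_of_ram` (file Places.lean of the first
tower), `exists_conj_place σ w` (there is `w'` with `below K w' = below K w` and
`w'.valuation L x = w.valuation L (σ x)`; file Conj.lean), and for quadratic extensions
`Quad.ram_cases` (file QuadRam.lean).
-/

set_option autoImplicit false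

namespace Pool.Agent.Lib.MP_1a91b9_ntT3.S5

open IsDedekindDomain NumberField WithZero Module
open Pool.Agent.Lib.MP_1a91b9_ntT.S5

/-- multiplicativity of the ramification index: apply `val_below` twice to an element of `K` with
`(below K w)(x) = exp (-1)` (`valuation_exists_uniformizer`), with `below_below` -/
theorem ram_mul (K L : Type*) {M : Type*} [Field K] [NumberField K] [Field L] [NumberField L]
    [Field M] [NumberField M] [Algebra K L] [Algebra K M] [Algebra L M] [IsScalarTower K L M]
    (w : HeightOneSpectrum (𝓞 M)) : ram K w = ram K (below L w) * ram L w := by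
  obtain ⟨x, hx⟩ := (below K w).valuation_exists_uniformizer K
  have h1 := val_below K w x
  have h2 := val_below L w (algebraMap K L x)
  have h3 := val_below K (below L w) x
  rw [below_below K w] at h3
  rw [← IsScalarTower.algebraMap_apply K L M x, h1, h3, hx, ← pow_mul, ← exp_nsmul, ← exp_nsmul] at h2
  have h4 := exp_injective h2
  simp only [nsmul_eq_mul, mul_neg, mul_one, neg_inj] at h4
  exact_mod_cast h4

/-- in a Galois extension of degree 3 the ramification index is 1 or 3
(`Ideal.ncard_primesOver_mul_ramificationIdxIn_mul_inertiaDegIn` or the version with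
`ramificationIdx'`: `e f g = 3`, or: `ram_le` excludes `e > 3`, and if `e = 2` then
`∑ e f = 3` (`Ideal.sum_ramification_inertia`, see `unique_of_ram`) gives a second place `w'` over
`below K w` with `ram = 1`, but all places over `below K w` are conjugate and have the same index). -/
theorem ram_galois {K L : Type*} [Field K] [NumberField K] [Field L] [NumberField L] [Algebra K L]
    (hG : IsGalois K L) (h3 : finrank K L = 3) (w : HeightOneSpectrum (𝓞 L)) :
    ram K w = 1 ∨ ram K w = 3 := by
  have hp : (below K w).asIdeal.IsPrime := (below K w).isPrime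
  have hwp : w.asIdeal.IsPrime := w.isPrime
  have hover : w.asIdeal.LiesOver (below K w).asIdeal := ⟨rfl⟩
  let : MulSemiringAction Gal(L/K) (𝓞 L) := IsIntegralClosure.MulSemiringAction (𝓞 K) K L (𝓞 L)
  have hGG : IsGaloisGroup Gal(L/K) (𝓞 K) (𝓞 L) := IsGaloisGroup.of_isFractionRing Gal(L/K) (𝓞 K) (𝓞 L) K L
  have h1 := Ideal.ncard_primesOver_mul_ramificationIdxIn_mul_inertiaDegIn (below K w).asIdeal (𝓞 L) Gal(L/K)
  rw [Ideal.ramificationIdxIn_eq_ramificationIdx (below K w).asIdeal w.asIdeal Gal(L/K),
    IsGalois.card_aut_eq_finrank, h3] at h1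
  have h2 : ram K w = w.asIdeal.ramificationIdx (𝓞 K) :=
    Ideal.ramificationIdx'_eq_ramificationIdx (below K w).asIdeal w.asIdeal (below K w).ne_bot
  rw [← h2] at h1
  have h4 : ram K w ∣ 3 := ⟨(Ideal.primesOver (below K w).asIdeal (𝓞 L)).ncard *
    Ideal.inertiaDegIn (below K w).asIdeal (𝓞 L), by rw [← h1]; ring⟩
  exact (Nat.dvd_prime Nat.prime_three).mp h4

/-- `w(x) < 1` iff `(below K w)(x) < 1`, for `x : K` -/
theorem lt_one_below {K L : Type*} [Field K] [NumberField K] [Field L] [NumberField L]
    [Algebra K L] (w : HeightOneSpectrum (𝓞 L)) (x : K) :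
    w.valuation L (algebraMap K L x) < 1 ↔ (below K w).valuation K x < 1 := by
  rw [val_below]
  exact pow_lt_one_iff_of_nonneg zero_le (ram_pos K w).ne'

theorem eq_one_below {K L : Type*} [Field K] [NumberField K] [Field L] [NumberField L]
    [Algebra K L] (w : HeightOneSpectrum (𝓞 L)) (x : K) :
    w.valuation L (algebraMap K L x) = 1 ↔ (below K w).valuation K x = 1 := by
  rw [val_below]
  exact pow_eq_one_iff_of_nonneg zero_le (ram_pos K w).ne'

/-- there is a place above 3: `3` is not a unit of `𝓞 N` (see `ce1_not_unit` and `not_cube` in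
CubExist.lean of the first tower, or `exists_above ℚ N` of the place 3 of `ℚ`) -/
theorem exists_three (N : Type*) [Field N] [NumberField N] :
    ∃ v : HeightOneSpectrum (𝓞 N), v.valuation N 3 < 1 := by
  have hnu : ¬ IsUnit (3 : 𝓞 N) := by
    intro hu
    obtain ⟨b, hb⟩ := hu.exists_right_inv
    have h1 : (3 : N) * (b : N) = 1 := by
      have := congrArg (algebraMap (𝓞 N) N) hb
      rw [map_mul, map_one, map_ofNat] at this
      exact this
    have h2 : (b : N) = algebraMap ℚ N (1 / 3) := by
      have h20 : (3 : N) ≠ 0 := three_ne_zero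
      rw [map_div₀, map_one, map_ofNat]
      field_simp
      rw [mul_comm]
      exact h1
    have h3 : IsIntegral ℤ (b : N) := b.2
    rw [h2, isIntegral_algebraMap_iff (algebraMap ℚ N).injective] at h3
    obtain ⟨z, hz⟩ := (IsIntegrallyClosed.isIntegral_iff (R := ℤ) (K := ℚ)).mp h3
    have h4 : (3 : ℚ) * (z : ℚ) = 1 := by
      have : (z : ℚ) = 1 / 3 := by simpa using hz
      rw [this]; norm_num
    have h5 : (3 : ℤ) * z = 1 := by exact_mod_cast h4
    omega
  have hne : (Ideal.span {(3 : 𝓞 N)}) ≠ ⊤ := by
    intro ht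
    exact hnu (Ideal.span_singleton_eq_top.mp ht)
  obtain ⟨P, hP, hle⟩ := Ideal.exists_le_maximal _ hne
  have hP3 : (3 : 𝓞 N) ∈ P := hle (Ideal.mem_span_singleton_self _)
  have h30 : (3 : 𝓞 N) ≠ 0 := by norm_num
  let v : HeightOneSpectrum (𝓞 N) := ⟨P, hP.isPrime, fun hb => by
    rw [hb, Ideal.mem_bot] at hP3
    exact h30 hP3⟩
  refine ⟨v, ?_⟩
  have := (v.valuation_lt_one_iff_mem (K := N) (3 : 𝓞 N)).mpr hP3
  have e3 : algebraMap (𝓞 N) N 3 = 3 := map_ofNat _ 3
  rw [← e3]
  exact this

/-- If the order of `d` at `below K w` is odd, the place `w` of `L = K(√d)` is invariant: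
`w(δ)² = w(d) = v(d) ^ ram`, `v = below K w`; if `ram K w = 1` then `v(d)` is a square; so
`ram K w = 2` and `Quad.ram_cases` applies. -/
theorem inv_of_odd {K L : Type*} [Field K] [NumberField K] [Field L] [NumberField L] [Algebra K L]
    {d : K} {δ : L} {σ : L ≃ₐ[K] L} (h : Quad K L d δ σ) (w : HeightOneSpectrum (𝓞 L))
    (hd : ¬ IsSquare ((below K w).valuation K d)) (x : L) :
    w.valuation L (σ x) = w.valuation L x := by
  rcases h.ram_cases w with h1 | ⟨_, h2⟩
  · exfalso
    apply hd
    refine ⟨w.valuation L δ, ?_⟩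
    have h3 := val_below K w d
    rw [h1, pow_one, ← h.sq, map_pow, pow_two] at h3
    exact h3.symm
  · exact h2 x

end Pool.Agent.Lib.MP_1a91b9_ntT3.S5
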