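import Pool.Agent.Lib.MP_1a91b9_ntT3.S5.Defs

/-!
# JOB T3-S5-Local: the condition at the places above three

`v` is a place of `N` with `v(3) < 1`, `v(D) = exp (-1)`, `D = -5 - om`, `M = N(s)`, `s² = D`;
everything is done in coordinates over `N`: `z = a + b s`, `z σ(z) = a² - b² D`, and the orders of
`a²` (even) and `b² D` (odd) are different.
-/

set_option autoImplicit false

namespace Pool.Agent.Lib.MP_1a91b9_ntT3.S5

open IsDedekindDomain NumberField WithZero Module
open Pool.Agent.Lib.MP_1a91b9_ntT.S5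

private theorem Local_cases (a : ℤᵐ⁰) : a = 0 ∨ ∃ n : ℤ, a = exp n := by
  by_cases h : a = 0
  · exact Or.inl h
  · exact Or.inr ⟨log a, (exp_log h).symm⟩

private theorem Local_om {N : Type*} [Field N] [NumberField N] {om : N}
    (hom : om ^ 2 + om + 1 = 0) (v : HeightOneSpectrum (𝓞 N)) : v.valuation N om = 1 := by
  have h1 : om ^ 3 = 1 := by linear_combination (om - 1) * hom
  have h2 : v.valuation N om ^ 3 = 1 ^ 3 := by rw [← map_pow, h1, map_one, one_pow]
  exact pow_left_inj' (by norm_num) h2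

private theorem Local_mul_lt {a b : ℤᵐ⁰} (ha : a ≤ 1) (hb : b < 1) : a * b < 1 := by
  calc a * b ≤ 1 * b := mul_le_mul_left ha b
    _ = b := one_mul b
    _ < 1 := hb

private theorem Local_lt : (exp (-1 : ℤ) : ℤᵐ⁰) < 1 := by
  rw [← exp_zero, exp_lt_exp]
  norm_num

/-- `v(D) = exp (-1)` for `v(3) < 1`: `D = -5 - om = (1 + 2 om) (1 + 3 om)` (`om² + om + 1 = 0`) and
`v(3 om) < 1` so `v(1 + 3 om) = 1`. -/
theorem val_D {N : Type*} [Field N] [NumberField N] {om : N} (hom : om ^ 2 + om + 1 = 0)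
    (v : HeightOneSpectrum (𝓞 N)) (h3 : v.valuation N 3 < 1)
    (hl : v.valuation N (1 + 2 * om) = exp (-1 : ℤ)) :
    v.valuation N (-5 - om) = exp (-1 : ℤ) := by
  have h1 : -5 - om = (1 + 2 * om) * (1 + 3 * om) := by linear_combination (-6 : N) * hom
  have h2 : v.valuation N (1 + 3 * om) = 1 := by
    apply Valuation.map_one_add_of_lt
    rw [map_mul, Local_om hom v, mul_one]
    exact h3
  rw [h1, map_mul, h2, mul_one, hl]

/-- `(1 + 2 om)² = -3` -/
theorem val_three {N : Type*} [Field N] [NumberField N] {om : N} (hom : om ^ 2 + om + 1 = 0)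
    (v : HeightOneSpectrum (𝓞 N)) (hl : v.valuation N (1 + 2 * om) = exp (-1 : ℤ)) :
    v.valuation N 3 = exp (-2 : ℤ) ∧ v.valuation N 2 = 1 ∧ v.valuation N om = 1 := by
  have h1 : v.valuation N 3 = exp (-2 : ℤ) := by
    have h2 : (3 : N) = -((1 + 2 * om) ^ 2) := by linear_combination (4 : N) * hom
    rw [h2, Valuation.map_neg, map_pow, hl, ← exp_nsmul]
    norm_num
  have h3 : v.valuation N 3 < 1 := by
    rw [h1, ← exp_zero, exp_lt_exp]
    norm_num
  refine ⟨h1, ?_, Local_om hom v⟩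
  have h4 : (2 : N) = -(1 - 3) := by norm_num
  rw [h4, Valuation.map_neg]
  exact Valuation.map_one_sub_of_lt _ h3

variable {N : Type*} [Field N] [NumberField N] {d : N} (v : HeightOneSpectrum (𝓞 N))

/-- the two orders are different -/
theorem val_norm (hd : v.valuation N d = exp (-1 : ℤ)) (a b : N) :
    v.valuation N (a ^ 2 - b ^ 2 * d) = max (v.valuation N a ^ 2) (v.valuation N b ^ 2 * exp (-1 : ℤ)) := by
  have h1 : v.valuation N (b ^ 2 * d) = v.valuation N b ^ 2 * exp (-1 : ℤ) := by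
    rw [map_mul, map_pow, hd]
  have h0 : v.valuation N (a ^ 2) = v.valuation N a ^ 2 := map_pow _ _ _
  by_cases hne : v.valuation N (a ^ 2) = v.valuation N (-(b ^ 2 * d))
  · rw [Valuation.map_neg, h0, h1] at hne
    rcases Local_cases (v.valuation N b) with hb | ⟨m, hm⟩
    · have hb' : b = 0 := (Valuation.zero_iff _).1 hb
      rw [hb, zero_pow two_ne_zero, zero_mul] at hne
      rw [hb', zero_pow two_ne_zero, zero_mul, sub_zero, h0, map_zero, zero_pow two_ne_zero, zero_mul,
        hne, max_self]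
    · rcases Local_cases (v.valuation N a) with ha | ⟨n, hn⟩
      · rw [ha, hm, zero_pow two_ne_zero] at hne
        exact absurd hne.symm (mul_ne_zero (pow_ne_zero _ exp_ne_zero) exp_ne_zero)
      · rw [hn, hm, ← exp_nsmul, ← exp_nsmul, ← exp_add, exp_inj] at hne
        simp only [nsmul_eq_mul, Nat.cast_ofNat] at hne
        omega
  · have h2 := Valuation.map_add_of_distinct_val _ hne
    rw [Valuation.map_neg, ← sub_eq_add_neg, h0, h1] at h2
    exact h2

/-- `v(a² - b² d) = 1` -/
theorem of_val_norm (hd : v.valuation N d = exp (-1 : ℤ)) (a b : N)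
    (h : v.valuation N (a ^ 2 - b ^ 2 * d) = 1) : v.valuation N a = 1 ∧ v.valuation N b ≤ 1 := by
  rw [val_norm v hd] at h
  have h2 : v.valuation N b ^ 2 * exp (-1 : ℤ) ≤ 1 := h ▸ le_max_right _ _
  have h3 : v.valuation N b ≤ 1 ∧ v.valuation N b ^ 2 * exp (-1 : ℤ) ≠ 1 := by
    rcases Local_cases (v.valuation N b) with hb | ⟨m, hm⟩
    · rw [hb, zero_pow two_ne_zero, zero_mul]
      exact ⟨zero_le_one, zero_ne_one⟩
    · rw [hm, ← exp_nsmul, ← exp_add] at h2
      rw [← exp_zero, exp_le_exp] at h2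
      simp only [nsmul_eq_mul, Nat.cast_ofNat] at h2
      refine ⟨?_, ?_⟩
      · rw [hm, ← exp_zero, exp_le_exp]
        omega
      · rw [hm, ← exp_nsmul, ← exp_add, ← exp_zero, Ne, exp_inj]
        simp only [nsmul_eq_mul, Nat.cast_ofNat]
        omega
  refine ⟨?_, h3.1⟩
  rcases max_choice (v.valuation N a ^ 2) (v.valuation N b ^ 2 * exp (-1 : ℤ)) with h4 | h4
  · rw [h4] at h
    exact pow_left_inj' (n := 2) (by norm_num) (by rw [h, one_pow])
  · rw [h4] at h
    exact absurd h h3.2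

/-- coordinates are unique -/
theorem Quad_coord {K L : Type*} [Field K] [CharZero K] [Field L] [Algebra K L] {d : K} {δ : L}
    {σ : L ≃ₐ[K] L} (h : Quad K L d δ σ) {a b a' b' : K}
    (he : algebraMap K L a + algebraMap K L b * δ = algebraMap K L a' + algebraMap K L b' * δ) :
    a = a' ∧ b = b' := by
  have hinj : Function.Injective (algebraMap K L) := (algebraMap K L).injective
  have h1 : σ (algebraMap K L a + algebraMap K L b * δ) =
      σ (algebraMap K L a' + algebraMap K L b' * δ) := by rw [he]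
  rw [map_add, map_add, map_mul, map_mul, σ.commutes, σ.commutes, σ.commutes, σ.commutes,
    h.conj] at h1
  have h2 : algebraMap K L (2 * (a - a')) = 0 := by
    rw [map_mul, map_sub, map_ofNat]
    linear_combination he + h1
  have h3 : a = a' := by
    have h4 : 2 * (a - a') = 0 := hinj (by rw [h2, map_zero])
    have h5 : a - a' = 0 := by
      rcases mul_eq_zero.1 h4 with h6 | h6
      · exact absurd h6 two_ne_zero
      · exact h6
    exact sub_eq_zero.1 h5
  refine ⟨h3, ?_⟩
  rw [h3] at he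
  have h6 : algebraMap K L b * δ = algebraMap K L b' * δ := add_left_cancel he
  exact hinj (mul_right_cancel₀ h.ne h6)

/-- Uniqueness of the class: if `a' + b' s = u³ (a + b s)` with `v(a) = v(a') = 1`, `v(b) < 1`,
`v(b') ≤ 1` then `v(b') < 1`. Norms: `v(a'² - b'² d) = v(a² - b² d) = 1`, so with `u = e + f s`
`v(e² - f² d)³ = 1`, `v(e) = 1`, `v(f) ≤ 1` (`of_val_norm`); `u³ = C + B s`,
`C = e³ + 3 e f² d`, `B = 3 e² f + f³ d`, `v(B) < 1`, `v(C) ≤ 1`; `b' = a B + b C` (coordinates are
unique as `s` is not in `N`: `h.conj`, `h.ne`). -/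
theorem prime_unique {M : Type*} [Field M] [NumberField M] [Algebra N M] {s : M} {σ : M ≃ₐ[N] M}
    (h : Quad N M d s σ) (h3 : v.valuation N 3 < 1) (hd : v.valuation N d = exp (-1 : ℤ))
    {a b a' b' : N} {u : M}
    (he : algebraMap N M a' + algebraMap N M b' * s =
      u ^ 3 * (algebraMap N M a + algebraMap N M b * s))
    (ha : v.valuation N a = 1) (hb : v.valuation N b < 1) (ha' : v.valuation N a' = 1)
    (hb' : v.valuation N b' ≤ 1) : v.valuation N b' < 1 := by
  obtain ⟨e, f, rfl⟩ := h.repr u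
  have hs := h.sq
  have he2 : algebraMap N M a' + algebraMap N M b' * s =
      algebraMap N M ((e ^ 3 + 3 * e * f ^ 2 * d) * a + (3 * e ^ 2 * f + f ^ 3 * d) * b * d) +
        algebraMap N M ((e ^ 3 + 3 * e * f ^ 2 * d) * b + a * (3 * e ^ 2 * f + f ^ 3 * d)) * s := by
    rw [he]
    simp only [map_add, map_mul, map_pow, map_ofNat, ← hs]
    ring
  obtain ⟨e1, e2⟩ := Quad_coord h he2
  have hn : a' ^ 2 - b' ^ 2 * d = (e ^ 2 - f ^ 2 * d) ^ 3 * (a ^ 2 - b ^ 2 * d) := by
    rw [e1, e2]
    ring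
  have key : ∀ x y : N, v.valuation N x = 1 → v.valuation N y ≤ 1 →
      v.valuation N (x ^ 2 - y ^ 2 * d) = 1 := by
    intro x y hx hy
    rw [val_norm v hd, hx, one_pow]
    apply max_eq_left
    have h5 : v.valuation N y ^ 2 ≤ 1 := pow_le_one' hy 2
    exact (Local_mul_lt h5 Local_lt).le
  have hn2 := congrArg (v.valuation N) hn
  rw [map_mul, map_pow, key a' b' ha' hb', key a b ha hb.le, mul_one] at hn2
  have hn3 : v.valuation N (e ^ 2 - f ^ 2 * d) = 1 :=
    pow_left_inj' (n := 3) (by norm_num) (by rw [← hn2, one_pow])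
  obtain ⟨he1, hf1⟩ := of_val_norm v hd e f hn3
  have hd1 : v.valuation N d < 1 := hd ▸ Local_lt
  have hB : v.valuation N (3 * e ^ 2 * f + f ^ 3 * d) < 1 := by
    apply Valuation.map_add_lt
    · rw [map_mul, map_mul, map_pow, he1, one_pow, mul_one, mul_comm]
      exact Local_mul_lt hf1 h3
    · rw [map_mul, map_pow]
      exact Local_mul_lt (pow_le_one' hf1 3) hd1
  have hC : v.valuation N (e ^ 3 + 3 * e * f ^ 2 * d) ≤ 1 := by
    apply Valuation.map_add_le
    · rw [map_pow, he1, one_pow]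
    · rw [map_mul, map_mul, map_mul, map_pow, he1, mul_one]
      exact (Local_mul_lt (mul_le_one' h3.le (pow_le_one' hf1 2)) hd1).le
  rw [e2]
  apply Valuation.map_add_lt
  · rw [map_mul]
    exact Local_mul_lt hC hb
  · rw [map_mul, ha, one_mul]
    exact hB

end Pool.Agent.Lib.MP_1a91b9_ntT3.S5
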