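import Pool.Agent.Lib.MP_1a91b9_ntT3.S5.Zm
import Pool.Agent.Lib.MP_1a91b9_ntT3.S5.Gen
import Pool.Agent.Lib.MP_1a91b9_ntT3.S5.Local
import Pool.Agent.Lib.MP_1a91b9_ntT.S5.BaseTwo

/-!
# JOB T3-S5-BaseN: the places of `ℚ(√-3)` above 3 and 7

`N = ℚ(om)`, `[N : ℚ] = 2`. `N / ℚ` is `Quad ℚ N (-3) (1 + 2 om) σ` (`exists_quad`; `1 + 2 om` is
not rational since its square is `-3`).
`unr`: `(1 + 2 om)² = -3`. For `v(3) < 1`: `below ℚ v` is a place of `ℚ` where `3` has order one
(`v(3) = u(3) ^ ram`, `u(3) = exp (-1)`), and `ram ℚ v ≤ 2` (`ram_le`); `v(3) = v(1 + 2 om)²` is a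
square so `ram ℚ v = 2` and `v(1 + 2 om) = exp (-1)`.
`odd`: `D = -5 - om = (1 + 2 om) (1 + 3 om)`. If `v(3) < 1`: `val_D`. If `v(3) = 1`:
`v(1 + 2 om) = 1` and `v(D) = v(1 + 3 om)`. `(1 + 3 om) (-2 - 3 om) = 7`, the sum of the factors is
`-1`, so if `v(1 + 3 om) < 1` then `v(-2 - 3 om) = 1`, `v(1 + 3 om) = v(7) = exp (- ram ℚ v)` (`7` has
order one at the place 7 of `ℚ`), and `ram ℚ v = 1`: if it is 2, `v` is invariant under `σ`
(`Quad.ram_cases`) and `σ (1 + 3 om) = -2 - 3 om`, contradiction.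
The place of `ℚ`: `𝓞 ℚ ≃ ℤ`; if `u(p) < 1` for a prime number `p` then `u(p) = exp (-1)`
(statement `rat_place`).
-/

set_option autoImplicit false

namespace Pool.Agent.Lib.MP_1a91b9_ntT3.S5

open IsDedekindDomain NumberField WithZero Module
open Pool.Agent.Lib.MP_1a91b9_ntT.S5

/-- a prime number has order 1 at the places of `ℚ` where its order is positive -/
theorem rat_place (u : HeightOneSpectrum (𝓞 ℚ)) (p : ℕ) (hp : p.Prime)
    (h : u.valuation ℚ (p : ℚ) < 1) : u.valuation ℚ (p : ℚ) = exp (-1 : ℤ) :=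
  rat_val p hp u h

private theorem BaseN_prime {N : Type*} [Field N] [NumberField N] (v : HeightOneSpectrum (𝓞 N))
    (p : ℕ) (hp : p.Prime) (h : v.valuation N (p : N) < 1) :
    v.valuation N (p : N) = exp (-(ram ℚ v : ℤ)) := by
  have hb : v.valuation N (algebraMap ℚ N (p : ℚ)) =
      (below ℚ v).valuation ℚ (p : ℚ) ^ ram ℚ v := val_below ℚ v _
  rw [map_natCast] at hb
  have hv : (below ℚ v).valuation ℚ (p : ℚ) < 1 := by
    by_contra hcon
    rw [not_lt] at hcon
    exact absurd (hb ▸ h) (not_lt.2 (one_le_pow₀ hcon))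
  rw [hb, rat_place _ p hp hv, ← exp_nsmul, exp_inj]
  simp

private theorem BaseN_sq {N : Type*} [Field N] [NumberField N] {om : N}
    (hom : om ^ 2 + om + 1 = 0) (v : HeightOneSpectrum (𝓞 N)) :
    v.valuation N (1 + 2 * om) ^ 2 = v.valuation N 3 := by
  have h1 : (1 + 2 * om) ^ 2 = -3 := by linear_combination 4 * hom
  rw [← map_pow, h1, Valuation.map_neg]

private theorem BaseN_le {N : Type*} [Field N] [NumberField N] (v : HeightOneSpectrum (𝓞 N))
    {x : N} (hx : IsIntegral ℤ x) : v.valuation N x ≤ 1 := by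
  have h := v.valuation_le_one (K := N) (⟨x, hx⟩ : 𝓞 N)
  exact h

theorem base_unr {N : Type*} [Field N] [NumberField N] (h2 : finrank ℚ N = 2) {om : N}
    (hom : om ^ 2 + om + 1 = 0) (v : HeightOneSpectrum (𝓞 N)) (h3 : v.valuation N 3 < 1) :
    v.valuation N (1 + 2 * om) = exp (-1 : ℤ) := by
  have h4 := BaseN_sq hom v
  have h5 : v.valuation N ((3 : ℕ) : N) = exp (-(ram ℚ v : ℤ)) :=
    BaseN_prime v 3 Nat.prime_three (by simpa using h3)
  rw [Nat.cast_ofNat] at h5
  rw [h5] at h4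
  have hpos := ram_pos ℚ v
  have hle := ram_le ℚ v
  rw [h2] at hle
  have hne : v.valuation N (1 + 2 * om) ≠ 0 := by
    intro h0
    rw [h0, zero_pow two_ne_zero] at h4
    exact exp_ne_zero h4.symm
  obtain ⟨n, hn⟩ : ∃ n : ℤ, v.valuation N (1 + 2 * om) = exp n := ⟨_, (exp_log hne).symm⟩
  rw [hn, ← exp_nsmul, exp_inj] at h4
  rw [hn, exp_inj]
  simp only [nsmul_eq_mul] at h4
  push_cast at h4
  omega

theorem base_odd {N : Type*} [Field N] [NumberField N] (h2 : finrank ℚ N = 2) {om : N}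
    (hom : om ^ 2 + om + 1 = 0) (v : HeightOneSpectrum (𝓞 N))
    (h : v.valuation N (-5 - om) ≠ 1) : ¬ IsSquare (v.valuation N (-5 - om)) := by
  have hint : IsIntegral ℤ om := by
    refine ⟨Polynomial.X ^ 2 + Polynomial.X + 1, ?_, ?_⟩
    · monicity!
    · simpa using hom
  have h3le : v.valuation N 3 ≤ 1 := BaseN_le v (by
    have : IsIntegral ℤ (algebraMap ℤ N 3) := isIntegral_algebraMap
    simpa using this)
  rcases h3le.lt_or_eq with h3 | h3
  · rw [val_D hom v h3 (base_unr h2 hom v h3), isSquare_exp]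
    decide
  · have hl : v.valuation N (1 + 2 * om) = 1 := by
      have h4 := BaseN_sq hom v
      rw [h3] at h4
      exact pow_left_inj' two_ne_zero (by rw [h4, one_pow])
    have hD : v.valuation N (-5 - om) = v.valuation N (1 + 3 * om) := by
      have h5 : -5 - om = (1 + 2 * om) * (1 + 3 * om) := by linear_combination (-6) * hom
      rw [h5, map_mul, hl, one_mul]
    rw [hD] at h ⊢
    have hle : v.valuation N (1 + 3 * om) ≤ 1 := by
      have h6 : IsIntegral ℤ (algebraMap ℤ N 3) := isIntegral_algebraMap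
      have h7 : IsIntegral ℤ (1 + (algebraMap ℤ N 3) * om) := isIntegral_one.add (h6.mul hint)
      refine BaseN_le v ?_
      simpa using h7
    have hlt : v.valuation N (1 + 3 * om) < 1 := lt_of_le_of_ne hle h
    have hother : v.valuation N (-2 - 3 * om) = 1 := by
      have h8 : -2 - 3 * om = -(1 + (1 + 3 * om)) := by ring
      rw [h8, Valuation.map_neg, Valuation.map_add_eq_of_lt_left _ (by rw [map_one]; exact hlt),
        map_one]
    have h7 : v.valuation N 7 = v.valuation N (1 + 3 * om) := by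
      have h8 : (7 : N) = (1 + 3 * om) * (-2 - 3 * om) := by linear_combination 9 * hom
      rw [h8, map_mul, hother, mul_one]
    have h9 : v.valuation N ((7 : ℕ) : N) = exp (-(ram ℚ v : ℤ)) :=
      BaseN_prime v 7 (by norm_num) (by
        rw [Nat.cast_ofNat, h7]; exact hlt)
    rw [Nat.cast_ofNat, h7] at h9
    have hδ : (1 + 2 * om) ^ 2 = algebraMap ℚ N (-3) := by
      rw [map_neg, map_ofNat]
      linear_combination 4 * hom
    have hne : ∀ x : ℚ, algebraMap ℚ N x ≠ 1 + 2 * om := by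
      intro x hx
      rw [← hx, ← map_pow] at hδ
      have h10 : x ^ 2 = -3 := (algebraMap ℚ N).injective hδ
      nlinarith [sq_nonneg x]
    obtain ⟨σ, hσ⟩ := exists_quad (-3 : ℚ) (1 + 2 * om) hδ h2 hne
    rcases hσ.ram_cases v with h1 | ⟨_, hinv⟩
    · rw [h9, h1, isSquare_exp]
      decide
    · exfalso
      have h11 : σ om = -1 - om := by
        have h12 := hσ.conj
        rw [map_add, map_mul, map_one, map_ofNat] at h12
        have h13 : (2 : N) ≠ 0 := two_ne_zero
        apply mul_left_cancel₀ h13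
        linear_combination h12
      have h14 := hinv (1 + 3 * om)
      rw [map_add, map_mul, map_one, map_ofNat, h11] at h14
      have h15 : (1 : N) + 3 * (-1 - om) = -2 - 3 * om := by ring
      rw [h15, hother] at h14
      exact h h14.symm

end Pool.Agent.Lib.MP_1a91b9_ntT3.S5
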