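import Pool.Agent.Lib.MP_1a91b9_ntT3.S5.BaseSigB

/-!
# JOB T3-S5-BasePid: the class number of the field of degree four is one

See BasePid.lean of the first tower. The Minkowski bound is
`(4 / π)² (4! / 4⁴) √189 < (4 / 3.14)² * (24 / 256) * 13.75 < 3`. Ideals of norm 1: the unit ideal.
There is no ideal `I` of norm 2: it would be prime with `2 ∈ I` and residue field with two elements
(`Nat.card (𝓞 M ⧸ I) = 2`: every element is congruent to `0` or `1`), but
`om (om + 1) = -1` is not in `I`.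
-/

set_option autoImplicit false

namespace Pool.Agent.Lib.MP_1a91b9_ntT3.S5

open IsDedekindDomain NumberField WithZero Module
open Pool.Agent.Lib.MP_1a91b9_ntT.S5 (below ram Quad)

private theorem BasePid_bound {M : Type*} [Field M] [NumberField M]
    (hc : InfinitePlace.nrComplexPlaces M = 2) (h4 : finrank ℚ M = 4) (hd : |discr M| ≤ 189) :
    (4 / Real.pi) ^ InfinitePlace.nrComplexPlaces M *
      ((finrank ℚ M).factorial / (finrank ℚ M) ^ (finrank ℚ M) * √|(discr M : ℝ)|) < 3 := by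
  rw [hc, h4]
  have hd' : |(discr M : ℝ)| ≤ 189 := by exact_mod_cast hd
  have hs : √|(discr M : ℝ)| ≤ 13.75 := by
    rw [Real.sqrt_le_left (by norm_num)]
    exact hd'.trans (by norm_num)
  have hpi : (3.14 : ℝ) < Real.pi := Real.pi_gt_d2
  have h5 : 4 / Real.pi ≤ 4 / 3.14 := div_le_div_of_nonneg_left (by norm_num) (by norm_num) hpi.le
  have h6 : (4 / Real.pi) ^ 2 ≤ (4 / 3.14) ^ 2 := pow_le_pow_left₀ (by positivity) h5 2
  have hf : ((4 : ℕ).factorial : ℝ) = 24 := by norm_num [Nat.factorial]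
  rw [hf]
  have h0 : 0 ≤ √|(discr M : ℝ)| := Real.sqrt_nonneg _
  have h1 : (24 : ℝ) / ((4 : ℕ) : ℝ) ^ 4 * √|(discr M : ℝ)| ≤ 24 / 256 * 13.75 := by
    have : (24 : ℝ) / ((4 : ℕ) : ℝ) ^ 4 = 24 / 256 := by norm_num
    rw [this]
    exact mul_le_mul_of_nonneg_left hs (by norm_num)
  calc (4 / Real.pi) ^ 2 * (24 / ((4 : ℕ) : ℝ) ^ 4 * √|(discr M : ℝ)|)
      ≤ (4 / 3.14) ^ 2 * (24 / 256 * 13.75) := mul_le_mul h6 h1 (by positivity) (by norm_num)
    _ < 3 := by norm_num

theorem base_pid {N M : Type*} [Field N] [NumberField N] [Field M] [NumberField M] [Algebra N M]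
    {om : N} {s : M} {σ : M ≃ₐ[N] M} (h2 : finrank ℚ N = 2) (hom : om ^ 2 + om + 1 = 0)
    (hQ : Quad N M (-5 - om) s σ) : IsPrincipalIdealRing (𝓞 M) := by
  have hint : IsIntegral ℤ (algebraMap N M om) := by
    refine ⟨Polynomial.X ^ 2 + Polynomial.X + 1, ?_, ?_⟩
    · monicity!
    · have := congrArg (algebraMap N M) hom
      rw [map_add, map_add, map_pow, map_one, map_zero] at this
      simpa using this
  obtain ⟨t, ht⟩ : ∃ t : 𝓞 M, algebraMap (𝓞 M) M t = algebraMap N M om := ⟨⟨_, hint⟩, rfl⟩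
  have ht0 : t ^ 2 + t + 1 = 0 := by
    apply RingOfIntegers.coe_injective
    rw [map_add, map_add, map_pow, ht, map_one, map_zero]
    have := congrArg (algebraMap N M) hom
    rw [map_add, map_add, map_pow, map_one, map_zero] at this
    exact this
  have homM : (algebraMap N M om) ^ 2 + algebraMap N M om + 1 = 0 := by
    have := congrArg (algebraMap N M) hom
    rw [map_add, map_add, map_pow, map_one, map_zero] at this
    exact this
  have h4 : finrank ℚ M = 4 := base_deg h2 hQ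
  have hb := BasePid_bound (base_complex homM h4) h4 (base_discr h2 hom hQ)
  refine RingOfIntegers.isPrincipalIdealRing_of_isPrincipal_of_norm_le (fun I hI => ?_)
  have hI' : (Ideal.absNorm (I : Ideal (𝓞 M)) : ℝ) < 3 := lt_of_le_of_lt hI (by
    simpa using hb)
  have hI3 : Ideal.absNorm (I : Ideal (𝓞 M)) < 3 := by exact_mod_cast hI'
  have hI0 : Ideal.absNorm (I : Ideal (𝓞 M)) ≠ 0 := by
    rw [Ne, Ideal.absNorm_eq_zero_iff]
    exact nonZeroDivisors.coe_ne_zero I
  obtain hc | hc : Ideal.absNorm (I : Ideal (𝓞 M)) = 1 ∨ Ideal.absNorm (I : Ideal (𝓞 M)) = 2 := by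
    omega
  · rw [Ideal.absNorm_eq_one_iff.1 hc]
    exact top_isPrincipal
  · exfalso
    have hcard : Nat.card (𝓞 M ⧸ (I : Ideal (𝓞 M))) = 2 := hc
    have hne : (1 : 𝓞 M ⧸ (I : Ideal (𝓞 M))) ≠ 0 := by
      intro h10
      have h11 : (1 : 𝓞 M) ∈ (I : Ideal (𝓞 M)) := by
        rw [← Ideal.Quotient.eq_zero_iff_mem]
        exact h10
      have h12 : (I : Ideal (𝓞 M)) = ⊤ := (Ideal.eq_top_iff_one _).2 h11
      have h13 := Ideal.absNorm_eq_one_iff.2 h12
      omega
    obtain ⟨y, hy, huniq⟩ := (Nat.card_eq_two_iff' (0 : 𝓞 M ⧸ (I : Ideal (𝓞 M)))).1 hcard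
    have h01 : ∀ z : 𝓞 M ⧸ (I : Ideal (𝓞 M)), z = 0 ∨ z = 1 := by
      intro z
      by_cases hz : z = 0
      · exact Or.inl hz
      · exact Or.inr ((huniq z hz).trans (huniq 1 hne).symm)
    have hq : (Ideal.Quotient.mk (I : Ideal (𝓞 M)) t) ^ 2 +
        Ideal.Quotient.mk (I : Ideal (𝓞 M)) t + 1 = 0 := by
      rw [← map_pow, ← map_add, ← map_one (Ideal.Quotient.mk (I : Ideal (𝓞 M))), ← map_add, ht0,
        map_zero]
    rcases h01 (Ideal.Quotient.mk (I : Ideal (𝓞 M)) t) with h | h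
    · rw [h] at hq
      apply hne
      linear_combination hq
    · rw [h] at hq
      rcases h01 ((1 : 𝓞 M ⧸ (I : Ideal (𝓞 M))) + 1) with h' | h'
      · apply hne
        linear_combination hq - h'
      · apply hne
        linear_combination h'

end Pool.Agent.Lib.MP_1a91b9_ntT3.S5
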