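import Pool.Agent.Lib.MP_1a91b9_ntT3.S5.BaseSigA

/-!
# JOB T3-S5-BaseUnit: the units of the field of degree four modulo cubes

`tors_cube`: a root of unity `ζ` of `M` (`[M : ℚ] = 4`, `om` in `M`) is `om^i` times a cube: let `n` be
its order. `9 ∤ n`: otherwise `M` contains a primitive 9-th root of unity, of degree `φ(9) = 6 > 4`
(`IsPrimitiveRoot.totient_le_degree_minpoly` or `minpoly` of a primitive root is the cyclotomic
polynomial; `minpoly.natDegree_le`). If `3 ∤ n`, `ζ` is a cube (`ζ = (ζ^k)³` with `3 k ≡ 1` modulo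
`n`). If `n = 3 m`, `3 ∤ m`: `ζ^m` is a primitive cube root of unity, so it is `om` or `om²`, and
`ζ = (ζ^m)^a (ζ^b)³` with `m a + 3 b = 1`.
`unit_form`: Dirichlet, rank 1 (`base_rank`, see `BU_form` in BaseUnit.lean of the first tower):
every unit is `ζ u^n`, so it is `om^i u^n` times a cube.
`unit_theta`: let `t` be a unit such that no `t om^i` is a cube. `t = ζ u^m`; `3 ∤ m`, and for a unit
`ε = ζ' u^n` there is `j` with `3 ∣ n - j m`: `ε` is `om^i t^j` times a cube, `i, j` in `{0, 1, 2}`.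
-/

set_option autoImplicit false

namespace Pool.Agent.Lib.MP_1a91b9_ntT3.S5

open IsDedekindDomain NumberField WithZero Module
open Pool.Agent.Lib.MP_1a91b9_ntT.S5 (below ram Quad)

variable {M : Type*} [Field M] [NumberField M]

/-- no primitive 9-th root of unity in a field of degree less than six -/
theorem no_nine (h4 : finrank ℚ M < 6) (x : M) : ¬ IsPrimitiveRoot x 9 := by
  intro hx
  have h1 := Polynomial.cyclotomic_eq_minpoly_rat hx (by norm_num)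
  have h2 := minpoly.natDegree_le (A := ℚ) x
  rw [← h1, Polynomial.natDegree_cyclotomic] at h2
  have h3 : Nat.totient 9 = 6 := by decide
  omega

/-- elements whose cube is one -/
private theorem BaseUnit_cube {om : M} (hom : om ^ 2 + om + 1 = 0) (y : M) (hy : y ^ 3 = 1) :
    ∃ e : ℕ, y = om ^ e := by
  have h1 : (y - 1) * ((y - om) * (y - om ^ 2)) = 0 := by
    linear_combination hy - (y - 1) * (y - om + 1) * hom
  rcases mul_eq_zero.1 h1 with h | h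
  · exact ⟨0, by rw [pow_zero]; exact sub_eq_zero.1 h⟩
  · rcases mul_eq_zero.1 h with h | h
    · exact ⟨1, by rw [pow_one]; exact sub_eq_zero.1 h⟩
    · exact ⟨2, sub_eq_zero.1 h⟩

private theorem BaseUnit_om3 {om : M} (hom : om ^ 2 + om + 1 = 0) : om ^ 3 = 1 := by
  linear_combination (om - 1) * hom

/-- integral powers of `om` -/
private theorem BaseUnit_zpow {om : M} (hom : om ^ 2 + om + 1 = 0) (z : ℤ) :
    ∃ i : ℕ, i < 3 ∧ om ^ z = om ^ i := by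
  have h3 := BaseUnit_om3 hom
  have h0 : om ≠ 0 := by
    rintro rfl
    simp at h3
  refine ⟨(z % 3).toNat, by omega, ?_⟩
  have h4 : z = 3 * (z / 3) + ((z % 3).toNat : ℤ) := by omega
  conv_lhs => rw [h4]
  rw [zpow_add₀ h0, zpow_mul, zpow_natCast]
  have h5 : om ^ (3 : ℤ) = 1 := by exact_mod_cast h3
  rw [h5, one_zpow, one_mul]

theorem tors_cube (h4 : finrank ℚ M = 4) {om : M} (hom : om ^ 2 + om + 1 = 0) (ζ : M) (n : ℕ)
    (hn : 0 < n) (hζ : ζ ^ n = 1) : ∃ (i : ℕ) (c : M), i < 3 ∧ c ≠ 0 ∧ ζ = om ^ i * c ^ 3 := by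
  have hζ0 : ζ ≠ 0 := by
    rintro rfl
    rw [zero_pow hn.ne'] at hζ
    exact zero_ne_one hζ
  have hfin : IsOfFinOrder ζ := isOfFinOrder_iff_pow_eq_one.2 ⟨n, hn, hζ⟩
  have hpos := hfin.orderOf_pos
  have hprim := IsPrimitiveRoot.orderOf ζ
  obtain ⟨m, hm3, hm⟩ : ∃ m : ℕ, ¬ 3 ∣ m ∧ (ζ ^ m) ^ 3 = 1 := by
    by_cases h3 : 3 ∣ orderOf ζ
    · obtain ⟨m, hm⟩ := h3
      refine ⟨m, ?_, ?_⟩
      · rintro ⟨l, rfl⟩
        refine no_nine (by omega) (ζ ^ l) (hprim.pow hpos ?_)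
        rw [hm]; ring
      · rw [← pow_mul, mul_comm, ← hm, pow_orderOf_eq_one]
    · exact ⟨orderOf ζ, h3, by rw [pow_orderOf_eq_one, one_pow]⟩
  obtain ⟨e, he⟩ := BaseUnit_cube hom _ hm
  have hcop : IsCoprime (m : ℤ) 3 := by
    have h5 : Nat.Coprime m 3 := ((Nat.Prime.coprime_iff_not_dvd Nat.prime_three).2 hm3).symm
    exact_mod_cast Nat.isCoprime_iff_coprime.2 h5
  obtain ⟨a, b, hab⟩ := hcop
  obtain ⟨i, hi, hi2⟩ := BaseUnit_zpow hom (e * a)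
  refine ⟨i, ζ ^ b, hi, zpow_ne_zero _ hζ0, ?_⟩
  have h5 : ζ = ζ ^ (m * a + b * 3) := by
    rw [mul_comm (m : ℤ) a, hab, zpow_one]
  calc ζ = ζ ^ (m * a + b * 3) := h5
    _ = (ζ ^ m) ^ a * (ζ ^ b) ^ 3 := by
      rw [zpow_add₀ hζ0, zpow_mul, zpow_mul, zpow_natCast]
      norm_cast
    _ = om ^ i * (ζ ^ b) ^ 3 := by
      rw [he, ← hi2, zpow_mul, zpow_natCast]

theorem unit_theta (h4 : finrank ℚ M = 4) {om : M} (hom : om ^ 2 + om + 1 = 0) (t : (𝓞 M)ˣ)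
    (ht : ∀ (i : ℕ) (c : M), ((t : 𝓞 M) : M) ≠ om ^ i * c ^ 3) (ε : (𝓞 M)ˣ) :
    ∃ (i j : ℕ) (c : M), i < 3 ∧ j < 3 ∧ c ≠ 0 ∧
      ((ε : 𝓞 M) : M) = om ^ i * ((t : 𝓞 M) : M) ^ j * c ^ 3 := by
  have hr := base_rank hom h4
  let i0 : Fin (Units.rank M) := ⟨0, by omega⟩
  have hsub : Subsingleton (Fin (Units.rank M)) := by
    rw [hr]
    infer_instance
  obtain ⟨u, hu⟩ : ∃ u : (𝓞 M)ˣ, ∀ x : (𝓞 M)ˣ, ∃ (z : (𝓞 M)ˣ) (n : ℤ),
      z ∈ Units.torsion M ∧ x = z * u ^ n := by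
    refine ⟨Units.fundSystem M i0, fun x => ?_⟩
    obtain ⟨⟨ζ, e⟩, he, _⟩ := Units.exist_unique_eq_mul_prod M x
    simp only at he
    rw [Fintype.prod_subsingleton _ i0] at he
    exact ⟨ζ, e i0, ζ.2, he⟩
  have htors : ∀ z ∈ Units.torsion M, ∃ (i : ℕ) (c : M), i < 3 ∧ c ≠ 0 ∧
      ((z : 𝓞 M) : M) = om ^ i * c ^ 3 := by
    intro z hz
    obtain ⟨n, hn, h1⟩ := isOfFinOrder_iff_pow_eq_one.1 (show IsOfFinOrder z from hz)
    refine tors_cube h4 hom _ n hn ?_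
    have h3 : (((z ^ n : (𝓞 M)ˣ) : 𝓞 M) : M) = 1 := by rw [h1]; simp
    push_cast at h3
    simpa using h3
  obtain ⟨zt, m, hzt, htm⟩ := hu t
  obtain ⟨zε, n, hzε, hεn⟩ := hu ε
  have hm3 : ¬ (3 : ℤ) ∣ m := by
    rintro ⟨l, rfl⟩
    obtain ⟨i, c, _, _, hic⟩ := htors zt hzt
    refine ht i (c * (((u ^ l : (𝓞 M)ˣ) : 𝓞 M) : M)) ?_
    have h5 : t = zt * (u ^ l) ^ 3 := by
      rw [htm, mul_comm (3 : ℤ) l, zpow_mul]
      norm_cast
    have h6 : ((t : 𝓞 M) : M) = ((zt : 𝓞 M) : M) * (((u ^ l : (𝓞 M)ˣ) : 𝓞 M) : M) ^ 3 := by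
      conv_lhs => rw [h5]
      push_cast
      rfl
    rw [h6, hic]
    ring
  obtain ⟨j, hj, l, hl⟩ : ∃ j : ℕ, j < 3 ∧ ∃ l : ℤ, n = m * j + l * 3 := by
    have hmm : m % 3 = 1 ∨ m % 3 = 2 := by omega
    have hnn : n % 3 = 0 ∨ n % 3 = 1 ∨ n % 3 = 2 := by omega
    have hdd : n % 3 = 0 ∨ n % 3 = m % 3 ∨ (n - 2 * m) % 3 = 0 := by
      rcases hmm with h | h <;> rcases hnn with h' | h' | h' <;> omega
    rcases hdd with h | h | h
    · exact ⟨0, by norm_num, n / 3, by push_cast; omega⟩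
    · exact ⟨1, by norm_num, (n - m) / 3, by push_cast; omega⟩
    · exact ⟨2, by norm_num, (n - 2 * m) / 3, by push_cast; omega⟩
  obtain ⟨i, c, hi, hc, hic⟩ := htors (zε * (zt ^ j)⁻¹)
    ((Units.torsion M).mul_mem hzε ((Units.torsion M).inv_mem ((Units.torsion M).pow_mem hzt j)))
  refine ⟨i, j, c * (((u ^ l : (𝓞 M)ˣ) : 𝓞 M) : M), hi, hj, mul_ne_zero hc ?_, ?_⟩
  · intro h
    have h5 : ((u ^ l : (𝓞 M)ˣ) : 𝓞 M) = 0 := by
      apply RingOfIntegers.ext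
      simpa using h
    exact (u ^ l).ne_zero h5
  · have h5 : ε = (zε * (zt ^ j)⁻¹) * t ^ j * (u ^ l) ^ 3 := by
      have h7 : u ^ n = (u ^ m) ^ j * (u ^ l) ^ 3 := by
        rw [hl, zpow_add, zpow_mul, zpow_mul]
        norm_cast
      rw [hεn, htm, h7, mul_pow]
      group
    have h6 : ((ε : 𝓞 M) : M) = (((zε * (zt ^ j)⁻¹ : (𝓞 M)ˣ) : 𝓞 M) : M) *
        ((t : 𝓞 M) : M) ^ j * (((u ^ l : (𝓞 M)ˣ) : 𝓞 M) : M) ^ 3 := by
      conv_lhs => rw [h5]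
      rw [Units.val_mul, Units.val_mul, Units.val_pow_eq_pow_val, Units.val_pow_eq_pow_val]
      generalize ((zε * (zt ^ j)⁻¹ : (𝓞 M)ˣ) : 𝓞 M) = a
      push_cast
      rfl
    rw [h6, hic]
    ring

end Pool.Agent.Lib.MP_1a91b9_ntT3.S5
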