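import Pool.Agent.Lib.MP_1a91b9_ntT3.S5.Gen
import Pool.Agent.Lib.MP_1a91b9_ntT3.S5.Local

/-!
# JOB T3-S5-ExistA: existence of the fields and automorphisms
-/

set_option autoImplicit false

namespace Pool.Agent.Lib.MP_1a91b9_ntT3.S5

open IsDedekindDomain NumberField WithZero Module
open Pool.Agent.Lib.MP_1a91b9_ntT.S5 (below ram Quad exists_quad)

universe u

/-- the Galois group has order 3 (`IsGalois.card_aut_eq_finrank`); any `τ ≠ 1` generates it
(`zpowers` of prime order), `τ³ = 1` (`pow_card_eq_one'`), elements fixed by `τ` are fixed by all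
(`IsGalois.mem_range_algebraMap_iff_fixed`) -/
theorem exists_cyc {K L : Type*} [Field K] [Field L] [Algebra K L] (hG : IsGalois K L)
    (h3 : finrank K L = 3) : ∃ τ : L ≃ₐ[K] L, Cyc K L τ := by
  have hfd : FiniteDimensional K L := Module.finite_of_finrank_pos (by omega)
  have hcard : Nat.card Gal(L/K) = 3 := by
    rw [IsGalois.card_aut_eq_finrank, h3]
  have hnt : ∃ τ : Gal(L/K), τ ≠ 1 := by
    have : Nontrivial Gal(L/K) := by
      rw [← Finite.one_lt_card_iff_nontrivial, hcard]
      norm_num
    exact exists_ne 1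
  obtain ⟨τ, hτ⟩ := hnt
  have hp : Fact (Nat.Prime 3) := ⟨Nat.prime_three⟩
  have hgen : ∀ ρ : Gal(L/K), ρ ∈ Subgroup.zpowers τ := fun ρ =>
    mem_zpowers_of_prime_card hcard hτ
  refine ⟨τ, ⟨fun x => ?_, fun x hx => ?_, ?_⟩⟩
  · have h := pow_card_eq_one' (x := τ)
    rw [hcard] at h
    have h2 := DFunLike.congr_fun h x
    exact h2
  · have h : ∀ ρ : Gal(L/K), ρ x = x := by
      intro ρ
      have hst : Subgroup.zpowers τ ≤ MulAction.stabilizer Gal(L/K) x := by
        rw [Subgroup.zpowers_le]
        exact hx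
      exact hst (hgen ρ)
    exact (IsGalois.mem_range_algebraMap_iff_fixed x).mpr h
  · by_contra hcon
    push Not at hcon
    exact hτ (AlgEquiv.ext hcon)

/-- an automorphism of `K` fixing `d` extends to `L = K(δ)`, `δ² = d`, with `δ ↦ δ`: in coordinates
(`h.repr`, unique by `Quad_coord`) `a + b δ ↦ φ a + φ b δ` -/
theorem exists_lift {K L : Type*} [Field K] [CharZero K] [Field L] [Algebra K L] {d : K} {δ : L}
    {σ : L ≃ₐ[K] L} (h : Quad K L d δ σ) (φ : K ≃+* K) (hφ : φ d = d) :
    ∃ ψ : L ≃+* L, (∀ x : K, ψ (algebraMap K L x) = algebraMap K L (φ x)) ∧ ψ δ = δ := by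
  choose a b hab using h.repr
  have hK : Function.Injective (algebraMap K L) := (algebraMap K L).injective
  have hcoord : ∀ (x : L) (p q : K), x = algebraMap K L p + algebraMap K L q * δ →
      a x = p ∧ b x = q := by
    intro x p q hx
    exact Quad_coord h ((hab x).symm.trans hx)
  have key : ∀ (φ : K ≃+* K), φ d = d → ∃ g : L →+* L,
      ∀ x : L, g x = algebraMap K L (φ (a x)) + algebraMap K L (φ (b x)) * δ := by
    intro φ hφ
    refine ⟨⟨⟨⟨fun x => algebraMap K L (φ (a x)) + algebraMap K L (φ (b x)) * δ, ?_⟩, ?_⟩, ?_, ?_⟩,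
      fun x => rfl⟩
    · have h1 := hcoord 1 1 0 (by simp)
      change algebraMap K L (φ (a 1)) + algebraMap K L (φ (b 1)) * δ = 1
      rw [h1.1, h1.2]
      simp
    · intro x y
      have h1 := hcoord (x * y) (a x * a y + b x * b y * d) (a x * b y + b x * a y) (by
        nth_rewrite 1 [hab x, hab y]
        simp only [map_add, map_mul]
        linear_combination (algebraMap K L (b x) * algebraMap K L (b y)) * h.sq)
      change algebraMap K L (φ (a (x * y))) + algebraMap K L (φ (b (x * y))) * δ =
        (algebraMap K L (φ (a x)) + algebraMap K L (φ (b x)) * δ) *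
          (algebraMap K L (φ (a y)) + algebraMap K L (φ (b y)) * δ)
      rw [h1.1, h1.2]
      simp only [map_add, map_mul, hφ]
      linear_combination (-(algebraMap K L (φ (b x)) * algebraMap K L (φ (b y)))) * h.sq
    · have h1 := hcoord 0 0 0 (by simp)
      change algebraMap K L (φ (a 0)) + algebraMap K L (φ (b 0)) * δ = 0
      rw [h1.1, h1.2]
      simp
    · intro x y
      have h1 := hcoord (x + y) (a x + a y) (b x + b y) (by
        nth_rewrite 1 [hab x, hab y]
        simp only [map_add]
        ring)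
      change algebraMap K L (φ (a (x + y))) + algebraMap K L (φ (b (x + y))) * δ =
        (algebraMap K L (φ (a x)) + algebraMap K L (φ (b x)) * δ) +
          (algebraMap K L (φ (a y)) + algebraMap K L (φ (b y)) * δ)
      rw [h1.1, h1.2]
      simp only [map_add]
      ring
  obtain ⟨g, hg⟩ := key φ hφ
  obtain ⟨g', hg'⟩ := key φ.symm (by rw [RingEquiv.symm_apply_eq, hφ])
  have hgg : ∀ x, g' (g x) = x := by
    intro x
    have h1 := hcoord (g x) _ _ (hg x)
    rw [hg', h1.1, h1.2, RingEquiv.symm_apply_apply, RingEquiv.symm_apply_apply]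
    exact (hab x).symm
  have hgg' : ∀ x, g (g' x) = x := by
    intro x
    have h1 := hcoord (g' x) _ _ (hg' x)
    rw [hg, h1.1, h1.2, RingEquiv.apply_symm_apply, RingEquiv.apply_symm_apply]
    exact (hab x).symm
  refine ⟨RingEquiv.ofRingHom g g' (RingHom.ext hgg') (RingHom.ext hgg), fun x => ?_, ?_⟩
  · have h1 := hcoord (algebraMap K L x) x 0 (by simp)
    change g _ = _
    rw [hg, h1.1, h1.2]
    simp
  · have h1 := hcoord δ 0 1 (by simp)
    change g _ = _
    rw [hg, h1.1, h1.2]
    simp

/-- `D` is not a square in `N` (odd order at a place above 3: `exists_three`, `val_D`) -/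
theorem not_sq (N : Type*) [Field N] [NumberField N] {om : N} (hom : om ^ 2 + om + 1 = 0)
    (hu : ∀ v : HeightOneSpectrum (𝓞 N), v.valuation N 3 < 1 →
      v.valuation N (1 + 2 * om) = exp (-1 : ℤ)) (x : N) : x ^ 2 ≠ -5 - om := by
  intro hx
  obtain ⟨v, hv⟩ := exists_three N
  have hD := val_D hom v hv (hu v hv)
  rw [← hx, map_pow] at hD
  have hx0 : v.valuation N x ≠ 0 := by
    intro h0
    rw [h0, zero_pow (by norm_num)] at hD
    exact exp_ne_zero hD.symm
  have he : v.valuation N x = exp (log (v.valuation N x)) := (exp_log hx0).symm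
  rw [he, ← exp_nsmul] at hD
  have := exp_injective hD
  simp at this
  omega

/-- `M = AdjoinRoot (X ^ 2 - C d)` (see `exists_cub` in CubExist.lean of the first tower;
`X_pow_sub_C_irreducible_of_prime`), then `exists_quad` -/
theorem exists_M (N : Type u) [Field N] [NumberField N] (d : N) (h : ∀ x : N, x ^ 2 ≠ d) :
    ∃ (M : Type u) (_ : Field M) (_ : NumberField M) (_ : Algebra N M) (s : M) (σ : M ≃ₐ[N] M),
      Quad N M d s σ := by
  have hirr : Irreducible (Polynomial.X ^ 2 - Polynomial.C d) :=
    X_pow_sub_C_irreducible_of_prime Nat.prime_two h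
  have : Fact (Irreducible (Polynomial.X ^ 2 - Polynomial.C d)) := ⟨hirr⟩
  have hne : (Polynomial.X ^ 2 - Polynomial.C d) ≠ 0 := hirr.ne_zero
  have : FiniteDimensional N (AdjoinRoot (Polynomial.X ^ 2 - Polynomial.C d)) :=
    (AdjoinRoot.powerBasis hne).finite
  have : CharZero (AdjoinRoot (Polynomial.X ^ 2 - Polynomial.C d)) :=
    charZero_of_injective_algebraMap (algebraMap N _).injective
  have : NumberField (AdjoinRoot (Polynomial.X ^ 2 - Polynomial.C d)) :=
    { to_charZero := inferInstance
      to_finiteDimensional := by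
        have : IsScalarTower ℚ N (AdjoinRoot (Polynomial.X ^ 2 - Polynomial.C d)) :=
          inferInstance
        exact FiniteDimensional.trans ℚ N _ }
  have hroot : (AdjoinRoot.root (Polynomial.X ^ 2 - Polynomial.C d)) ^ 2 =
      algebraMap N (AdjoinRoot (Polynomial.X ^ 2 - Polynomial.C d)) d := by
    have := AdjoinRoot.eval₂_root (Polynomial.X ^ 2 - Polynomial.C d)
    simp only [Polynomial.eval₂_sub, Polynomial.eval₂_pow, Polynomial.eval₂_X,
      Polynomial.eval₂_C] at this
    rw [sub_eq_zero] at this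
    exact this
  obtain ⟨σ, hσ⟩ := exists_quad (K := N) (L := AdjoinRoot (Polynomial.X ^ 2 - Polynomial.C d)) d
    (AdjoinRoot.root (Polynomial.X ^ 2 - Polynomial.C d)) hroot
    (by
      rw [(AdjoinRoot.powerBasis hne).finrank]
      simp [AdjoinRoot.powerBasis_dim])
    (by
      intro x hx
      apply h x
      apply (algebraMap N (AdjoinRoot (Polynomial.X ^ 2 - Polynomial.C d))).injective
      rw [map_pow, hx, hroot])
  exact ⟨AdjoinRoot (Polynomial.X ^ 2 - Polynomial.C d), inferInstance, inferInstance,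
    inferInstance, _, σ, hσ⟩

end Pool.Agent.Lib.MP_1a91b9_ntT3.S5
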