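import Pool.Agent.Lib.MP_1a91b9_ntT3.S5.SelBasic
import Pool.Agent.Lib.MP_1a91b9_ntT3.S5.BaseN
import Pool.Agent.Lib.MP_1a91b9_ntT3.S5.BasePid
import Pool.Agent.Lib.MP_1a91b9_ntT3.S5.BaseUnit
import Pool.Agent.Lib.MP_1a91b9_ntT3.S5.CubePid
import Pool.Agent.Lib.MP_1a91b9_ntT3.S5.ExistA

/-!
# JOB T3-S5-Base: the base field

`sel`: `α` in `Sel`; `α = ε c³` (`exists_unit_mul_cube`, `base_pid`), so `ε = α (c⁻¹)³` is in `Sel`
(`Sel.mul_cube`). `t` = the unit `θ = (om + s) / 2` (`θ (om - θ) = 1`). Let `v` be a place of `N` above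
3 (`exists_three`). `om^i θ` (`i` any) is not a cube and `om^i θ^j`, `j = 1, 2`, does not satisfy the
condition `three` at `v`: `θ = om / 2 + (1 / 2) s`, `θ² = (om² + D) / 4 + (om / 2) s`, so
`om^i θ^j = a' + b' s` with `v(a') = v(b') = 1` (`v(2) = v(om) = 1`, `v(D) < 1`), against
`prime_unique` (a cube is `u³ (1 + 0 s)`). By `unit_theta` `ε = om^i θ^j c³`; `j = 0` by the
condition `three` of `om^i θ^j`; then `norm`: `om^i σ(om^i) = om^(2 i) = g³` with `g` in `N`; if
`i ≠ 0` then `g^3` is a primitive cube root of unity and `g` a primitive 9-th root of unity in `N`: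
`no_nine`. So `i = 0` and `α` is a cube.
-/

set_option autoImplicit false

namespace Pool.Agent.Lib.MP_1a91b9_ntT3.S5

open IsDedekindDomain NumberField WithZero Module
open Pool.Agent.Lib.MP_1a91b9_ntT.S5

universe u

private theorem Base_nine {N : Type*} [Field N] [NumberField N] (h2 : finrank ℚ N = 2) {om : N}
    (hom : om ^ 2 + om + 1 = 0) (k : N) (i : ℕ) (hi : i = 1 ∨ i = 2) (hk : k ^ 3 = om ^ (2 * i)) :
    False := by
  have h3 : om ^ 3 = 1 := by linear_combination (om - 1) * hom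
  have hne : om ≠ 1 := by
    intro h
    rw [h] at hom
    have h4 : (3 : N) = 0 := by linear_combination hom
    exact three_ne_zero h4
  have hk1 : k ^ 3 ≠ 1 := by
    intro h
    rw [hk] at h
    rcases hi with rfl | rfl
    · apply hne
      have h5 : om ^ 2 = 1 := h
      linear_combination h3 - om * h5
    · apply hne
      have h5 : om ^ 4 = 1 := h
      linear_combination h5 - om * h3
  have hk9 : k ^ 9 = 1 := by
    have h5 : k ^ 9 = (k ^ 3) ^ 3 := by ring
    rw [h5, hk, ← pow_mul]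
    have h6 : om ^ (2 * i * 3) = (om ^ 3) ^ (2 * i) := by
      rw [← pow_mul]
      congr 1
      ring
    rw [h6, h3, one_pow]
  have _ : Fact (Nat.Prime 3) := ⟨Nat.prime_three⟩
  have ho : orderOf k = 3 ^ (1 + 1) := by
    apply orderOf_eq_prime_pow
    · rw [pow_one]
      exact hk1
    · exact hk9
  have hp := IsPrimitiveRoot.orderOf k
  rw [ho] at hp
  exact no_nine (M := N) (by omega) k hp

private theorem Base_coord {N M : Type*} [Field N] [NumberField N] [Field M] [NumberField M]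
    [Algebra N M] {om : N} {s : M} {σ : M ≃ₐ[N] M}
    (hQ : Quad N M (-5 - om) s σ) (v : HeightOneSpectrum (𝓞 N)) (h2v : v.valuation N 2 = 1)
    (homv : v.valuation N om = 1) (hD : v.valuation N (-5 - om) = exp (-1 : ℤ)) (i j : ℕ)
    (hj : j = 1 ∨ j = 2) : ∃ a' b' : N, v.valuation N a' = 1 ∧ v.valuation N b' = 1 ∧
      algebraMap N M om ^ i * ((algebraMap N M om + s) / 2) ^ j =
        algebraMap N M a' + algebraMap N M b' * s := by
  have hs := hQ.sq
  have hi : v.valuation N (om ^ i) = 1 := by rw [map_pow, homv, one_pow]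
  rcases hj with rfl | rfl
  · refine ⟨om ^ i * (om / 2), om ^ i * (1 / 2), ?_, ?_, ?_⟩
    · rw [map_mul, hi, map_div₀, homv, h2v, div_one, one_mul]
    · rw [map_mul, hi, map_div₀, map_one, h2v, div_one, one_mul]
    · rw [pow_one, map_mul, map_mul, map_pow, map_div₀, map_div₀, map_ofNat, map_one]
      ring
  · have h4v : v.valuation N 4 = 1 := by
      have h5 : (4 : N) = 2 * 2 := by norm_num
      rw [h5, map_mul, h2v, one_mul]
    have hsum : v.valuation N (om ^ 2 + (-5 - om)) = 1 := by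
      rw [Valuation.map_add_eq_of_lt_left]
      · rw [map_pow, homv, one_pow]
      · rw [map_pow, homv, one_pow, hD, ← exp_zero, exp_lt_exp]
        norm_num
    refine ⟨om ^ i * ((om ^ 2 + (-5 - om)) / 4), om ^ i * (om / 2), ?_, ?_, ?_⟩
    · rw [map_mul, hi, map_div₀, hsum, h4v, div_one, one_mul]
    · rw [map_mul, hi, map_div₀, homv, h2v, div_one, one_mul]
    · have h6 : algebraMap N M ((om ^ 2 + (-5 - om)) / 4) = (algebraMap N M om ^ 2 + s ^ 2) / 4 := by
        rw [map_div₀, map_add, map_pow, map_ofNat, hs]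
      rw [map_mul, map_mul, map_pow, h6, map_div₀, map_ofNat]
      ring

theorem base_sel {N M : Type*} [Field N] [NumberField N] [Field M] [NumberField M] [Algebra N M]
    {om : N} {s : M} {σ : M ≃ₐ[N] M} (h2 : finrank ℚ N = 2) (hom : om ^ 2 + om + 1 = 0)
    (hQ : Quad N M (-5 - om) s σ) (α : M) (h : Sel N s σ α) : ∃ r : M, α = r ^ 3 := by
  have h4 : finrank ℚ M = 4 := base_deg h2 hQ
  have hOM : algebraMap N M om ^ 2 + algebraMap N M om + 1 = 0 := by
    have h5 := congrArg (algebraMap N M) hom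
    rwa [map_add, map_add, map_pow, map_one, map_zero] at h5
  have hs := hQ.sq
  rw [map_sub, map_neg, map_ofNat] at hs
  obtain ⟨ε, c, hc, hα⟩ := exists_unit_mul_cube (base_pid h2 hom hQ) α h.ne_zero h.val
  have hε : Sel N s σ ((ε : 𝓞 M) : M) := by
    have h5 := Sel.mul_cube hQ h (inv_ne_zero hc)
    have h6 : α * c⁻¹ ^ 3 = ((ε : 𝓞 M) : M) := by
      rw [hα, mul_assoc, ← mul_pow, mul_inv_cancel₀ hc, one_pow, mul_one]
    rwa [h6] at h5
  -- the unit `θ`
  have hθ := theta_integral hom hQ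
  have hOMi : IsIntegral ℤ (algebraMap N M om) := by
    refine ⟨Polynomial.X ^ 3 - 1, by monicity!, ?_⟩
    have h5 : algebraMap N M om ^ 3 = 1 := by linear_combination (algebraMap N M om - 1) * hOM
    simp [h5]
  have hθ' : IsIntegral ℤ (algebraMap N M om - (algebraMap N M om + s) / 2) := hOMi.sub hθ
  have hprod : (algebraMap N M om + s) / 2 * (algebraMap N M om - (algebraMap N M om + s) / 2) = 1 := by
    have h5 : (algebraMap N M om + s) / 2 * (algebraMap N M om - (algebraMap N M om + s) / 2) =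
        (algebraMap N M om ^ 2 - s ^ 2) / 4 := by ring
    rw [h5, hs]
    have h6 : algebraMap N M om ^ 2 - (-5 - algebraMap N M om) = 4 := by linear_combination hOM
    rw [h6]
    norm_num
  obtain ⟨t, ht⟩ : ∃ t : (𝓞 M)ˣ, ((t : 𝓞 M) : M) = (algebraMap N M om + s) / 2 := by
    refine ⟨⟨⟨_, hθ⟩, ⟨_, hθ'⟩, ?_, ?_⟩, rfl⟩
    · apply RingOfIntegers.ext
      exact hprod
    · apply RingOfIntegers.ext
      rw [mul_comm] at hprod
      exact hprod
  -- a place above three
  obtain ⟨v, hv⟩ := exists_three N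
  have hl := base_unr h2 hom v hv
  obtain ⟨_, h2v, homv⟩ := val_three hom v hl
  have hD := val_D hom v hv hl
  have hkey : ∀ (i j : ℕ), j = 1 ∨ j = 2 → ∀ (u : M) (a b : N),
      algebraMap N M om ^ i * ((algebraMap N M om + s) / 2) ^ j =
        u ^ 3 * (algebraMap N M a + algebraMap N M b * s) →
      v.valuation N a = 1 → v.valuation N b < 1 → False := by
    intro i j hj u a b he ha hb
    obtain ⟨a', b', ha', hb', he'⟩ := Base_coord hQ v h2v homv hD i j hj
    have h5 := prime_unique v hQ hv hD (he'.symm.trans he) ha hb ha' hb'.le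
    exact absurd hb' h5.ne
  have htc : ∀ (i : ℕ) (c : M), ((t : 𝓞 M) : M) ≠ algebraMap N M om ^ i * c ^ 3 := by
    intro i c he
    rw [ht] at he
    refine hkey 0 1 (Or.inl rfl) c (om ^ i) 0 ?_ ?_ ?_
    · rw [pow_zero, one_mul, pow_one, he, map_zero, zero_mul, add_zero, map_pow, mul_comm]
    · rw [map_pow, homv, one_pow]
    · rw [map_zero]
      exact zero_lt_one
  obtain ⟨i, j, c', hi, hj, hc', he⟩ := unit_theta h4 hOM t htc ε
  rw [ht] at he
  have hj0 : j = 0 := by
    by_contra hj0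
    obtain ⟨u, a, b, hu, ha, hb⟩ := hε.three v hv
    refine hkey i j (by omega) (u / c') a b ?_ ha hb
    rw [he] at hu
    have h5 : (u / c') ^ 3 = u ^ 3 / c' ^ 3 := div_pow _ _ _
    rw [h5, div_mul_eq_mul_div, ← hu, mul_div_assoc, div_self (pow_ne_zero 3 hc'), mul_one]
  rw [hj0, pow_zero, mul_one] at he
  have hi0 : i = 0 := by
    by_contra hi0
    obtain ⟨g, hg⟩ := hε.norm
    obtain ⟨e, hee⟩ := hQ.fixed (c' * σ c') (by rw [map_mul, hQ.invol, mul_comm])
    have he0 : e ≠ 0 := by
      intro h0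
      rw [h0, map_zero] at hee
      rcases mul_eq_zero.1 hee.symm with h5 | h5
      · exact hc' h5
      · exact hc' ((map_eq_zero σ).1 h5)
    have hσ : σ (algebraMap N M om) = algebraMap N M om := σ.commutes om
    have hσε : σ (algebraMap N M om ^ i * c' ^ 3) = algebraMap N M om ^ i * (σ c') ^ 3 := by
      rw [map_mul, map_pow, map_pow, hσ]
    have h6 : algebraMap N M (om ^ (2 * i) * e ^ 3) = algebraMap N M (g ^ 3) := by
      rw [← hg, he, hσε, map_mul, map_pow, map_pow, hee]
      ring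
    have h7 := (algebraMap N M).injective h6
    refine Base_nine h2 hom (g / e) i (by omega) ?_
    rw [div_pow, ← h7, mul_div_assoc, div_self (pow_ne_zero 3 he0), mul_one]
  rw [hi0, pow_zero, one_mul] at he
  refine ⟨c' * c, ?_⟩
  rw [hα, he, mul_pow]

theorem good_base (N : Type u) [Field N] [NumberField N] (h2 : finrank ℚ N = 2) {om : N}
    (hom : om ^ 2 + om + 1 = 0) : Good N om :=
  ⟨hom, fun v hv => base_unr h2 hom v hv, fun v hv => base_odd h2 hom v hv,
    fun _ _ _ _ _ _ hQ α h => base_sel h2 hom hQ α h⟩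

end Pool.Agent.Lib.MP_1a91b9_ntT3.S5
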