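import Pool.Agent.Lib.MP_1a91b9_ntT3.S5.Local

/-!
# JOB T3-S5-ImageA: the image of a point at the places above three

`x y : N`, `y² + om y = x³ + (1 + 2 om) x² - x`; `X = x + (1 + 2 om) / 3`, `Y = y + om / 2`,
`Y² = X³ + D / 36`, `D = -5 - om`, `s² = D`; `κ = Y - s / 6`, `σ κ = Y + s / 6`, `κ σ(κ) = X³`.
-/

set_option autoImplicit false

namespace Pool.Agent.Lib.MP_1a91b9_ntT3.S5

open IsDedekindDomain NumberField WithZero Module
open Pool.Agent.Lib.MP_1a91b9_ntT.S5

/-- the equation in the variables `X`, `Y` -/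
theorem eq_XY {N : Type*} [Field N] [CharZero N] {om : N} (hom : om ^ 2 + om + 1 = 0) (x y : N) :
    y ^ 2 + om * y = x ^ 3 + (1 + 2 * om) * x ^ 2 - x ↔
      (y + om / 2) ^ 2 = (x + (1 + 2 * om) / 3) ^ 3 + (-5 - om) / 36 := by
  constructor
  · intro h
    linear_combination h + (1 / 4 - 4 * x / 3 - 4 * (1 + 2 * om) / 27) * hom
  · intro h
    linear_combination h - (1 / 4 - 4 * x / 3 - 4 * (1 + 2 * om) / 27) * hom

variable {N M : Type*} [Field N] [NumberField N] [Field M] [NumberField M] [Algebra N M]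
  {om : N} {s : M} {σ : M ≃ₐ[N] M}

/-- `three`. `v(3) = exp (-2)`, `v(2) = v(om) = 1`, `v(D) = exp (-1)` (`val_three`, `val_D`).
Case `v(x) ≤ 1`: then `v(y) ≤ 1` (otherwise `v(y² + om y) = v(y)² > 1`), `v(Y) ≤ 1` and
`κ = (s⁻¹)³ (- D² / 6 + D Y s)`: `v(D² / 6) = 1`, `v(D Y) < 1`.
Case `v(x) > 1`: `v(y)² = v(x)³` (`v(y) > 1`, `v(om y) < v(y²)`, `v(x² (1 + 2 om)), v(x) < v(x³)`),
`v(x) = exp (2 m)`, `v(y) = exp (3 m)`, `m ≥ 1` (`exists_of_sq_eq_cube`); `e = x / y`,
`v(e) = exp (-m)`; `κ = (e⁻¹)³ (e³ Y - (e³ / 6) s)`, `v(e³ Y) = 1` (`v(Y) = v(y)`), and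
`v(e³ / 6) = exp (2 - 3 m) < 1`. -/
theorem image_three (hom : om ^ 2 + om + 1 = 0) (hQ : Quad N M (-5 - om) s σ)
    (v : HeightOneSpectrum (𝓞 N)) (h3 : v.valuation N 3 < 1)
    (hl : v.valuation N (1 + 2 * om) = exp (-1 : ℤ)) (x y : N)
    (hxy : y ^ 2 + om * y = x ^ 3 + (1 + 2 * om) * x ^ 2 - x) :
    ∃ (u : M) (a b : N), algebraMap N M (y + om / 2) - s / 6 =
      u ^ 3 * (algebraMap N M a + algebraMap N M b * s) ∧ v.valuation N a = 1 ∧
        v.valuation N b < 1 := by
  have hD := val_D hom v h3 hl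
  obtain ⟨h3', h2', hom'⟩ := val_three hom v hl
  set V := v.valuation N with hV
  have hs2 : s ^ 2 = algebraMap N M (-5 - om) := hQ.sq
  have hs0 : s ≠ 0 := hQ.ne
  have h6 : V 6 = exp (-2 : ℤ) := by
    rw [show (6 : N) = 2 * 3 by norm_num, map_mul, h2', h3', one_mul]
  have homh : V (om / 2) = 1 := by
    rw [map_div₀, hom', h2', div_one]
  have hl1 : V (1 + 2 * om) ≤ 1 := by
    rw [hl, ← exp_zero, exp_le_exp]
    norm_num
  rcases le_or_gt (V x) 1 with hx | hx
  · have hy : V y ≤ 1 := by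
      by_contra hc
      push Not at hc
      have h1 : V (om * y) < V (y ^ 2) := by
        rw [map_mul, hom', one_mul, map_pow, pow_two]
        exact lt_mul_of_one_lt_left (lt_trans zero_lt_one hc) hc
      have h2 : V (y ^ 2 + om * y) = V (y ^ 2) := Valuation.map_add_eq_of_lt_left V h1
      have h4 : V (x ^ 3 + (1 + 2 * om) * x ^ 2 - x) ≤ 1 := by
        refine Valuation.map_sub_le (v := V) (Valuation.map_add_le (v := V) ?_ ?_) hx
        · rw [map_pow]
          exact pow_le_one₀ zero_le hx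
        · rw [map_mul, map_pow]
          exact mul_le_one' hl1 (pow_le_one₀ zero_le hx)
      rw [← hxy, h2, map_pow] at h4
      exact absurd h4 (not_le.2 (one_lt_pow₀ hc two_ne_zero))
    have hY : V (y + om / 2) ≤ 1 := Valuation.map_add_le (v := V) hy homh.le
    refine ⟨s⁻¹, -(-5 - om) ^ 2 / 6, (-5 - om) * (y + om / 2), ?_, ?_, ?_⟩
    · rw [map_div₀, map_neg, map_pow, map_mul (algebraMap N M), ← hs2, map_ofNat]
      field_simp
      ring
    · rw [map_div₀, Valuation.map_neg, map_pow, hD, h6, ← exp_nsmul]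
      rw [show (2 : ℕ) • (-1 : ℤ) = -2 by norm_num]
      exact div_self exp_ne_zero
    · rw [map_mul, hD]
      calc exp (-1 : ℤ) * V (y + om / 2) ≤ exp (-1 : ℤ) * 1 := mul_le_mul' le_rfl hY
        _ < 1 := by
          rw [mul_one, ← exp_zero, exp_lt_exp]
          norm_num
  · have hx0' : V x ≠ 0 := (lt_trans zero_lt_one hx).ne'
    have hx0 : x ≠ 0 := by
      rintro rfl
      simp at hx0'
    have hx3 : V (x ^ 3 + (1 + 2 * om) * x ^ 2 - x) = V x ^ 3 := by
      have h23 : V x ^ 2 < V x ^ 3 := pow_lt_pow_right₀ hx (by norm_num)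
      have h13 : V x < V x ^ 3 := by
        calc V x = V x ^ 1 := (pow_one _).symm
          _ < V x ^ 3 := pow_lt_pow_right₀ hx (by norm_num)
      have h1 : V ((1 + 2 * om) * x ^ 2) < V (x ^ 3) := by
        rw [map_mul, map_pow, map_pow]
        calc V (1 + 2 * om) * V x ^ 2 ≤ 1 * V x ^ 2 := mul_le_mul' hl1 le_rfl
          _ = V x ^ 2 := one_mul _
          _ < V x ^ 3 := h23
      have h2 : V (x ^ 3 + (1 + 2 * om) * x ^ 2) = V (x ^ 3) :=
        Valuation.map_add_eq_of_lt_left V h1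
      rw [Valuation.map_sub_eq_of_lt_left V (by rw [h2, map_pow]; exact h13), h2, map_pow]
    have hy1 : 1 < V y := by
      by_contra hc
      push Not at hc
      have h1 : V (y ^ 2 + om * y) ≤ 1 := by
        refine Valuation.map_add_le (v := V) ?_ ?_
        · rw [map_pow]
          exact pow_le_one₀ zero_le hc
        · rw [map_mul, hom', one_mul]
          exact hc
      rw [hxy, hx3] at h1
      exact absurd h1 (not_le.2 (one_lt_pow₀ hx (by norm_num)))
    have hy0 : y ≠ 0 := by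
      rintro rfl
      simp at hy1
    have hyx : V y ^ 2 = V x ^ 3 := by
      have h1 : V (om * y) < V (y ^ 2) := by
        rw [map_mul, hom', one_mul, map_pow, pow_two]
        exact lt_mul_of_one_lt_left (lt_trans zero_lt_one hy1) hy1
      have h2 : V (y ^ 2 + om * y) = V (y ^ 2) := Valuation.map_add_eq_of_lt_left V h1
      rw [hxy, hx3, map_pow] at h2
      exact h2.symm
    obtain ⟨m, hm1, hm2⟩ := exists_of_sq_eq_cube hx0' hyx
    have hm : 1 ≤ m := by
      rw [hm1, ← exp_zero, exp_lt_exp] at hx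
      omega
    have hYv : V (y + om / 2) = exp (3 * m) := by
      rw [Valuation.map_add_eq_of_lt_left V (by rw [homh]; exact hy1), hm2]
    have he : V ((x / y) ^ 3) = exp (-(3 * m)) := by
      rw [map_pow, map_div₀, hm1, hm2, ← exp_sub, ← exp_nsmul]
      congr 1
      rw [nsmul_eq_mul]
      push_cast
      ring
    have hX0 : algebraMap N M x ≠ 0 := (map_ne_zero _).mpr hx0
    have hY0 : algebraMap N M y ≠ 0 := (map_ne_zero _).mpr hy0
    refine ⟨algebraMap N M (y / x), (x / y) ^ 3 * (y + om / 2), -((x / y) ^ 3 / 6), ?_, ?_, ?_⟩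
    · rw [map_neg, map_mul (algebraMap N M), map_div₀ (algebraMap N M) ((x / y) ^ 3) 6,
        map_pow, map_div₀ (algebraMap N M) x y, map_div₀ (algebraMap N M) y x,
        map_ofNat (algebraMap N M) 6]
      field_simp
      ring
    · rw [map_mul, he, hYv, ← exp_add, neg_add_cancel, exp_zero]
    · rw [Valuation.map_neg, map_div₀, he, h6, ← exp_sub, ← exp_zero, exp_lt_exp]
      omega

end Pool.Agent.Lib.MP_1a91b9_ntT3.S5
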