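import Pool.Agent.Lib.MP_1a91b9_ntT3.S5.Zm
import Pool.Agent.Lib.MP_1a91b9_ntT3.S5.Gen
import Pool.Agent.Lib.MP_1a91b9_ntT3.S5.ImageA
import Pool.Agent.Lib.MP_1a91b9_ntT3.S5.ExistA

/-!
# JOB T3-S5-ImageB: the image of a point satisfies the Selmer condition

`x y : N`, `y² + om y = x³ + (1 + 2 om) x² - x`; `X = x + (1 + 2 om) / 3`, `Y = y + om / 2`,
`Y² = X³ + D / 36`, `D = -5 - om`, `s² = D`; `κ = Y - s / 6`, `σ κ = Y + s / 6`, `κ σ(κ) = X³`.
-/

set_option autoImplicit false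

namespace Pool.Agent.Lib.MP_1a91b9_ntT3.S5

open IsDedekindDomain NumberField WithZero Module
open Pool.Agent.Lib.MP_1a91b9_ntT.S5

variable {N M : Type*} [Field N] [NumberField N] [Field M] [NumberField M] [Algebra N M]
  {om : N} {s : M} {σ : M ≃ₐ[N] M}

private theorem ImageB_prod (hQ : Quad N M (-5 - om) s σ) (X Y : N)
    (hXY : Y ^ 2 = X ^ 3 + (-5 - om) / 36) :
    (algebraMap N M Y - s / 6) * σ (algebraMap N M Y - s / 6) = algebraMap N M (X ^ 3) := by
  have h1 : X ^ 3 = Y ^ 2 - (-5 - om) / 36 := by linear_combination -hXY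
  rw [h1, map_sub σ, map_div₀ σ, AlgEquiv.commutes, hQ.conj, map_ofNat σ, map_sub (algebraMap N M),
    map_pow (algebraMap N M), map_div₀ (algebraMap N M), ← hQ.sq, map_ofNat]
  ring

private theorem ImageB_ne (hom : om ^ 2 + om + 1 = 0)
    (hu : ∀ v : HeightOneSpectrum (𝓞 N), v.valuation N 3 < 1 →
      v.valuation N (1 + 2 * om) = exp (-1 : ℤ)) (hQ : Quad N M (-5 - om) s σ) (X Y : N)
    (hXY : Y ^ 2 = X ^ 3 + (-5 - om) / 36) : X ≠ 0 ∧ algebraMap N M Y - s / 6 ≠ 0 := by
  have hX : X ≠ 0 := by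
    rintro rfl
    refine not_sq N hom hu (6 * Y) ?_
    linear_combination 36 * hXY
  refine ⟨hX, fun h0 => ?_⟩
  have h1 := ImageB_prod hQ X Y hXY
  rw [h0, zero_mul] at h1
  exact (map_ne_zero _).2 (pow_ne_zero 3 hX) h1.symm

/-- `val`. `X ≠ 0` and `κ ≠ 0` as `D` is not a square in `N` (`not_sq`). If `w(D) = 1` and
`w(3) = 1` then `w(s / 3) = 1` and `κ - σ κ = - s / 3`: so either `w(κ) = w(σ κ)`, or the larger of
the two is `1`: `Cb.of_prod`. Otherwise, with `v = below N w`, `v(D) ≠ 1` (if `v(3) < 1`,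
`v(D) = exp (-1)` by `val_D`), the order of `D` at `v` is odd and `w(σ κ) = w(κ)` (`inv_of_odd`):
`Cb.of_prod`. -/
theorem image_val (hom : om ^ 2 + om + 1 = 0)
    (hu : ∀ v : HeightOneSpectrum (𝓞 N), v.valuation N 3 < 1 →
      v.valuation N (1 + 2 * om) = exp (-1 : ℤ))
    (hodd : ∀ v : HeightOneSpectrum (𝓞 N), v.valuation N (-5 - om) ≠ 1 →
      ¬ IsSquare (v.valuation N (-5 - om)))
    (hQ : Quad N M (-5 - om) s σ) (w : HeightOneSpectrum (𝓞 M)) (X Y : N)
    (hXY : Y ^ 2 = X ^ 3 + (-5 - om) / 36) :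
    Cb (w.valuation M (algebraMap N M Y - s / 6)) := by
  obtain ⟨hX, hκ⟩ := ImageB_ne hom hu hQ X Y hXY
  have hprod := ImageB_prod hQ X Y hXY
  set κ : M := algebraMap N M Y - s / 6 with hκd
  have hvp : w.valuation M κ * w.valuation M (σ κ) = w.valuation M (algebraMap N M X) ^ 3 := by
    rw [← map_mul, hprod, map_pow, map_pow]
  have hc : w.valuation M (algebraMap N M X) ≠ 0 :=
    (Valuation.ne_zero_iff _).2 ((map_ne_zero _).2 hX)
  refine Cb.of_prod hc hvp ?_
  by_cases hD : (below N w).valuation N (-5 - om) = 1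
  · have hDw : w.valuation M (algebraMap N M (-5 - om)) = 1 := (eq_one_below w _).2 hD
    have hs1 : w.valuation M s = 1 := by
      refine pow_left_inj' two_ne_zero ?_
      rw [← map_pow, hQ.sq, hDw, one_pow]
    have h3N : (below N w).valuation N 3 = 1 := by
      have hle : (below N w).valuation N 3 ≤ 1 := by
        have h : (below N w).valuation N (algebraMap (𝓞 N) N (3 : 𝓞 N)) ≤ 1 :=
          (below N w).valuation_le_one (3 : 𝓞 N)
        have e : algebraMap (𝓞 N) N (3 : 𝓞 N) = 3 := map_ofNat (algebraMap (𝓞 N) N) 3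
        rwa [e] at h
      rcases hle.eq_or_lt with h | h
      · exact h
      · exfalso
        have h1 := val_D hom _ h (hu _ h)
        rw [hD, ← exp_zero, exp_inj] at h1
        omega
    have h3w : w.valuation M 3 = 1 := by
      have h := (eq_one_below w (3 : N)).2 h3N
      rwa [map_ofNat] at h
    have hdiff : w.valuation M (κ - σ κ) = 1 := by
      have e : κ - σ κ = -(s / 3) := by
        rw [hκd, map_sub, map_div₀, AlgEquiv.commutes, hQ.conj, map_ofNat]
        ring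
      rw [e, Valuation.map_neg, map_div₀, hs1, h3w, div_one]
    rcases lt_trichotomy (w.valuation M κ) (w.valuation M (σ κ)) with h | h | h
    · right; right
      rw [← hdiff]
      exact (Valuation.map_sub_eq_of_lt_right _ h).symm
    · exact Or.inl h
    · right; left
      rw [← hdiff]
      exact (Valuation.map_sub_eq_of_lt_left _ h).symm
  · exact Or.inl (inv_of_odd hQ w (hodd _ hD) κ).symm

theorem image_sel (hN : Good N om) (hQ : Quad N M (-5 - om) s σ) (x y : N)
    (hxy : y ^ 2 + om * y = x ^ 3 + (1 + 2 * om) * x ^ 2 - x) :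
    Sel N s σ (algebraMap N M (y + om / 2) - s / 6) := by
  have hXY := (eq_XY hN.hom x y).1 hxy
  obtain ⟨hX, hκ⟩ := ImageB_ne hN.hom hN.unr hQ _ _ hXY
  exact ⟨hκ, ⟨_, ImageB_prod hQ _ _ hXY⟩,
    fun w => image_val hN.hom hN.unr hN.odd hQ w _ _ hXY,
    fun v hv => image_three hN.hom hQ v hv (hN.unr v hv) x y hxy⟩

end Pool.Agent.Lib.MP_1a91b9_ntT3.S5
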