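import Pool.Agent.Lib.MP_1a91b9_ntT3.S5.Local

/-!
# JOB T3-S5-Third: a point whose class is a cube is `√-3` times a point

`D = -5 - om`. If `Y - s / 6 = (a + b s)³` (`a b : N`, `hQ.repr`) then, by coordinates
(`Quad_coord`), `Y = a³ + 3 a b² D` and `-1 / 6 = 3 a² b + b³ D`; and, applying `σ` and multiplying,
`X³ = (a² - b² D)³`, so `a² - b² D = ω^j X` (`cube_root_one`-like argument); replacing `a + b s` by
`ω^i (a + b s)` (`ω^(2i) ω^j = 1`) we may suppose `a² - b² D = X`. `b ≠ 0`. Put `X₁ = 1 / (6 b)`,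
`Y₁ = (1 + 2 om) a / (6 b)`. Then `Y₁² = X₁³ + D / 36` and `X = - (X₁³ + D / 9) / (3 X₁²)`
(multiply out; use `1 = -6 b (3 a² + b² D)`, `(1 + 2 om)² = -3`).
-/

set_option autoImplicit false

namespace Pool.Agent.Lib.MP_1a91b9_ntT3.S5

open IsDedekindDomain NumberField WithZero Module
open Pool.Agent.Lib.MP_1a91b9_ntT.S5 (below ram Quad)

private theorem Third_aux {N : Type*} [Field N] [CharZero N] {om : N} (hom : om ^ 2 + om + 1 = 0)
    (X a b : N) (hb : -1 / 6 = 3 * a ^ 2 * b + b ^ 3 * (-5 - om))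
    (hX : X = a ^ 2 - b ^ 2 * (-5 - om)) :
    ∃ X₁ Y₁ : N, X₁ ≠ 0 ∧ Y₁ ^ 2 = X₁ ^ 3 + (-5 - om) / 36 ∧
      X = -(X₁ ^ 3 + (-5 - om) / 9) / (3 * X₁ ^ 2) := by
  have hb0 : b ≠ 0 := by
    rintro rfl
    norm_num at hb
  have h60 : (6 : N) * b ≠ 0 := mul_ne_zero (by norm_num) hb0
  set x : N := (6 * b)⁻¹ with hx
  have hx0 : x ≠ 0 := inv_ne_zero h60
  have h6 : 6 * b * x = 1 := mul_inv_cancel₀ h60
  refine ⟨x, (1 + 2 * om) * a * x, hx0, ?_, ?_⟩
  · linear_combination (4 * a ^ 2 * x ^ 2) * hom + (6 * x ^ 3) * hb +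
      (3 * a ^ 2 * x ^ 2 + (-5 - om) / 36 * ((6 * b * x) ^ 2 + 6 * b * x + 1)) * h6
  · rw [eq_div_iff (mul_ne_zero (by norm_num) (pow_ne_zero 2 hx0))]
    linear_combination (3 * x ^ 2) * hX - (6 * x ^ 3) * hb -
      (3 * a ^ 2 * x ^ 2 + (-5 - om) / 36 * ((6 * b * x) ^ 2 + 6 * b * x + 1)) * h6 -
      (-5 - om) / 12 * (6 * b * x + 1) * h6

theorem exists_third {N M : Type*} [Field N] [CharZero N] [Field M] [Algebra N M]
    {om : N} {s : M} {σ : M ≃ₐ[N] M} (hom : om ^ 2 + om + 1 = 0) (hQ : Quad N M (-5 - om) s σ)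
    (X Y : N) (hXY : Y ^ 2 = X ^ 3 + (-5 - om) / 36)
    (h : ∃ r : M, algebraMap N M Y - s / 6 = r ^ 3) :
    ∃ X₁ Y₁ : N, X₁ ≠ 0 ∧ Y₁ ^ 2 = X₁ ^ 3 + (-5 - om) / 36 ∧
      X = -(X₁ ^ 3 + (-5 - om) / 9) / (3 * X₁ ^ 2) := by
  have hM : CharZero M := charZero_of_injective_algebraMap (algebraMap N M).injective
  obtain ⟨r, hr⟩ := h
  obtain ⟨a, b, rfl⟩ := hQ.repr r
  have h1 : algebraMap N M Y + algebraMap N M (-1 / 6) * s =
      algebraMap N M (a ^ 3 + 3 * a * b ^ 2 * (-5 - om)) +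
        algebraMap N M (3 * a ^ 2 * b + b ^ 3 * (-5 - om)) * s := by
    have e1 : algebraMap N M (-1 / 6) = -1 / 6 := by
      rw [map_div₀, map_neg, map_one, map_ofNat]
    have e2 : algebraMap N M (a ^ 3 + 3 * a * b ^ 2 * (-5 - om)) =
        algebraMap N M a ^ 3 + 3 * algebraMap N M a * algebraMap N M b ^ 2 *
          algebraMap N M (-5 - om) := by
      rw [map_add, map_mul, map_mul, map_mul, map_pow, map_pow, map_ofNat]
    have e3 : algebraMap N M (3 * a ^ 2 * b + b ^ 3 * (-5 - om)) =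
        3 * algebraMap N M a ^ 2 * algebraMap N M b + algebraMap N M b ^ 3 *
          algebraMap N M (-5 - om) := by
      rw [map_add, map_mul, map_mul, map_mul, map_pow, map_pow, map_ofNat]
    rw [e1, e2, e3]
    linear_combination hr + (3 * algebraMap N M a * algebraMap N M b ^ 2 +
      algebraMap N M b ^ 3 * s) * hQ.sq
  obtain ⟨hY, hb⟩ := Quad_coord hQ h1
  have h2 : X ^ 3 - (a ^ 2 - b ^ 2 * (-5 - om)) ^ 3 = 0 := by
    linear_combination (-1 : N) * hXY + (Y + (a ^ 3 + 3 * a * b ^ 2 * (-5 - om))) * hY -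
      (-5 - om) * (-1 / 6 + (3 * a ^ 2 * b + b ^ 3 * (-5 - om))) * hb
  set n : N := a ^ 2 - b ^ 2 * (-5 - om) with hn
  have h3 : (X - n) * ((X - om * n) * (X - om ^ 2 * n)) = 0 := by
    linear_combination h2 - (X - n) * (X * n - n ^ 2 * (om - 1)) * hom
  rcases mul_eq_zero.mp h3 with h4 | h4
  · exact Third_aux hom X a b hb (sub_eq_zero.mp h4)
  · rcases mul_eq_zero.mp h4 with h5 | h5
    · refine Third_aux hom X (om ^ 2 * a) (om ^ 2 * b) ?_ ?_
      · linear_combination hb - (3 * a ^ 2 * b + b ^ 3 * (-5 - om)) *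
          (om - 1) * (om ^ 3 + 1) * hom
      · linear_combination h5 - n * om * (om - 1) * hom
    · refine Third_aux hom X (om * a) (om * b) ?_ ?_
      · linear_combination hb - (3 * a ^ 2 * b + b ^ 3 * (-5 - om)) * (om - 1) * hom
      · linear_combination h5

end Pool.Agent.Lib.MP_1a91b9_ntT3.S5
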