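import Pool.Agent.Lib.MP_1a91b9_ntT3.S5.Step
import Pool.Agent.Lib.MP_1a91b9_ntT3.S5.Base
import Pool.Agent.Lib.MP_1a91b9_ntT3.S5.ImageB
import Pool.Agent.Lib.MP_1a91b9_ntT3.S5.Third
import Pool.Agent.Lib.MP_1a91b9_ntT3.S5.Heights

/-!
# JOB T3-S5-MainA: the points of a good field are finite in number
-/

set_option autoImplicit false

namespace Pool.Agent.Lib.MP_1a91b9_ntT3.S5

open IsDedekindDomain NumberField WithZero Module
open Pool.Agent.Lib.MP_1a91b9_ntT.S5

universe u

open WeierstrassCurve in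
/-- the abscissa -/
private def MA_x {N : Type*} [Field N] {om : N} : (EC om).toAffine.Point → Option N
  | .zero => none
  | .some x _ _ => some x

open WeierstrassCurve in
private theorem MA_fiber {N : Type*} [Field N] {om : N} (o : Option N) :
    ((MA_x : (EC om).toAffine.Point → Option N) ⁻¹' {o}).Finite := by
  classical
  rcases Set.eq_empty_or_nonempty ((MA_x : (EC om).toAffine.Point → Option N) ⁻¹' {o}) with h | h
  · rw [h]
    exact Set.finite_empty
  · obtain ⟨P₀, hP₀⟩ := h
    refine (Set.toFinite {P₀, -P₀}).subset fun P hP => ?_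
    have he : MA_x P = MA_x P₀ := hP.trans hP₀.symm
    rcases P with _ | ⟨x, y, hxy⟩
    · rcases P₀ with _ | ⟨x₀, y₀, h₀⟩
      · exact Or.inl rfl
      · simp [MA_x] at he
    · rcases P₀ with _ | ⟨x₀, y₀, h₀⟩
      · simp [MA_x] at he
      · have hx : x = x₀ := by simpa [MA_x] using he
        exact (Affine.Point.X_eq_iff (h₁ := hxy) (h₂ := h₀)).1 hx

/-- The set `S` of the `X = x + (1 + 2 om) / 3` for `(x, y)` on the curve is finite:
`finite_of_third` with `c = D / 36`, from `exists_M`, `image_sel`, `Good.sel`, `exists_third` (the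
point `(X₁, Y₁)` corresponds to `(x₁, y₁)`, `eq_XY`). Every `x` has at most two `y`. -/
theorem Good.finite {N : Type u} [Field N] [NumberField N] {om : N} (h : Good N om) :
    Finite (EC om).toAffine.Point := by
  classical
  obtain ⟨M, _, _, _, s, σ, hQ⟩ := exists_M N (-5 - om) (not_sq N h.hom h.unr)
  obtain ⟨S, hSdef⟩ : ∃ S : Set N, S = {X | ∃ Y : N, Y ^ 2 = X ^ 3 + (-5 - om) / 36} := ⟨_, rfl⟩
  have hmem : ∀ X : N, X ∈ S ↔ ∃ Y : N, Y ^ 2 = X ^ 3 + (-5 - om) / 36 := by
    intro X
    rw [hSdef]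
    exact Iff.rfl
  have hD0 : (-5 - om : N) ≠ 0 := by
    intro h0
    exact not_sq N h.hom h.unr 0 (by rw [h0]; ring)
  have hS : S.Finite := by
    refine finite_of_third ((-5 - om) / 36) (div_ne_zero hD0 (by norm_num)) S ?_
    intro X hX
    obtain ⟨Y, hXY⟩ := (hmem X).1 hX
    have hx : (Y - om / 2) ^ 2 + om * (Y - om / 2) = (X - (1 + 2 * om) / 3) ^ 3 +
        (1 + 2 * om) * (X - (1 + 2 * om) / 3) ^ 2 - (X - (1 + 2 * om) / 3) := by
      rw [eq_XY h.hom, sub_add_cancel, sub_add_cancel]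
      exact hXY
    have hs := image_sel h hQ _ _ hx
    rw [sub_add_cancel] at hs
    obtain ⟨X₁, Y₁, h1, h2, h3⟩ := exists_third h.hom hQ X Y hXY (h.sel M s σ hQ _ hs)
    refine ⟨X₁, (hmem X₁).2 ⟨Y₁, h2⟩, h1, ?_⟩
    rw [h3]
    congr 2
    ring
  have h2 : (insert none (Option.some '' ((fun X : N => X - (1 + 2 * om) / 3) '' S))).Finite :=
    ((hS.image _).image _).insert _
  have h3 : (Set.univ : Set (EC om).toAffine.Point).Finite := by
    refine (h2.preimage' (f := (MA_x : (EC om).toAffine.Point → Option N))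
      (fun o _ => MA_fiber o)).subset fun P _ => ?_
    rcases P with _ | ⟨x, y, hxy⟩
    · exact Set.mem_insert _ _
    · refine Set.mem_insert_of_mem _ ⟨x, ⟨x + (1 + 2 * om) / 3, ?_, ?_⟩, rfl⟩
      · rw [hmem]
        refine ⟨y + om / 2, ?_⟩
        rw [← eq_XY h.hom]
        have h1 := hxy.1
        rw [WeierstrassCurve.Affine.equation_iff] at h1
        linear_combination h1
      · show x + (1 + 2 * om) / 3 - (1 + 2 * om) / 3 = x
        ring
  exact Set.finite_univ_iff.1 h3

end Pool.Agent.Lib.MP_1a91b9_ntT3.S5
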