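import Pool.Agent.Lib.MP_1a91b9_ntT3.Base
import Pool.Agent.Lib.MP_1a91b9_ntT3.S5.MainA

/-!
# JOB T3-S5-Main: the main theorem of the descent
-/

set_option autoImplicit false

namespace Pool.Agent.Lib.MP_1a91b9_ntT3.S5

open IsDedekindDomain NumberField WithZero Module
open Pool.Agent.Lib.MP_1a91b9_ntT.S5

universe u

private theorem om_eq : MP_1a91b9_ntT.om ^ 2 + MP_1a91b9_ntT.om + 1 = 0 := by
  have h1 := MP_1a91b9_ntT.om_spec.geom_sum_eq_zero (by norm_num)
  rw [Finset.sum_range_succ, Finset.sum_range_succ, Finset.sum_range_one] at h1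
  linear_combination h1

/-- the step of `TowerK3` satisfies `StepCond`: if `ram F v' ≠ 1` then `ram F v' ≥ 2` and
`Ram F' (below F v')` (`Ideal.le_pow_ramificationIdx`); `piO ∈ v` implies `v(D) < 1` as
`D = -5 - om = - om (1 + 2 om) (om - 2)`. -/
theorem stepCond_of_tower {F F' : Type u} [Field F] [NumberField F] [Algebra MP_1a91b9_ntT.K F]
    [Field F'] [NumberField F'] [Algebra MP_1a91b9_ntT.K F'] [Algebra F F']
    [IsScalarTower MP_1a91b9_ntT.K F F'] (hG : IsGalois F F') (hr : finrank F F' = 3)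
    (hu : ∀ v : HeightOneSpectrum (𝓞 F), (3 : 𝓞 F) ∈ v.asIdeal → ¬ Ram F' v)
    (ha : ∀ v : HeightOneSpectrum (𝓞 F), Ram F' v →
      algebraMap (𝓞 MP_1a91b9_ntT.K) (𝓞 F) piO ∉ v.asIdeal →
      ∀ t : 𝓞 F, t ^ 2 - algebraMap (𝓞 MP_1a91b9_ntT.K) (𝓞 F) omO * t + 1 ∉ v.asIdeal) :
    StepCond F F' (algebraMap MP_1a91b9_ntT.K F MP_1a91b9_ntT.om) := by
  refine ⟨hG, hr, fun w hw => ?_⟩
  have hpos := ram_pos F w
  have h2 : 2 ≤ ram F w := by omega
  have hR : Ram F' (below F w) := ⟨w, Ideal.le_pow_of_le_ramificationIdx' h2⟩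
  have hO : (algebraMap (𝓞 F) F) (algebraMap (𝓞 MP_1a91b9_ntT.K) (𝓞 F) omO) =
      algebraMap MP_1a91b9_ntT.K F MP_1a91b9_ntT.om := rfl
  have h3 : (3 : 𝓞 F) ∉ (below F w).asIdeal := fun h => hu _ h hR
  constructor
  · have h4 : (3 : 𝓞 F') ∉ w.asIdeal := by
      intro h
      apply h3
      rw [mem_below, map_ofNat]
      exact h
    have h5 := (HeightOneSpectrum.valuation_eq_one_iff_notMem (K := F') w).2 h4
    rwa [map_ofNat] at h5
  · by_cases hp : algebraMap (𝓞 MP_1a91b9_ntT.K) (𝓞 F) piO ∈ (below F w).asIdeal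
    · left
      have hom := om_eq
      have hom' : (algebraMap MP_1a91b9_ntT.K F MP_1a91b9_ntT.om) ^ 2 +
          algebraMap MP_1a91b9_ntT.K F MP_1a91b9_ntT.om + 1 = 0 := by
        rw [← map_pow, ← map_add, ← map_one (algebraMap MP_1a91b9_ntT.K F), ← map_add, hom, map_zero]
      have h6 : (-5 - algebraMap (𝓞 MP_1a91b9_ntT.K) (𝓞 F) omO : 𝓞 F) ∈ (below F w).asIdeal := by
        have h7 : (-5 - algebraMap (𝓞 MP_1a91b9_ntT.K) (𝓞 F) omO : 𝓞 F) =
            (-(algebraMap (𝓞 MP_1a91b9_ntT.K) (𝓞 F) omO) *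
              (1 + 2 * algebraMap (𝓞 MP_1a91b9_ntT.K) (𝓞 F) omO)) *
                algebraMap (𝓞 MP_1a91b9_ntT.K) (𝓞 F) piO := by
          apply RingOfIntegers.ext
          simp only [piO, map_sub, map_add, map_mul, map_neg, map_ofNat, map_one, hO]
          linear_combination (2 * algebraMap MP_1a91b9_ntT.K F MP_1a91b9_ntT.om - 5) * hom'
        rw [h7]
        exact Ideal.mul_mem_left _ _ hp
      have h8 := (HeightOneSpectrum.valuation_lt_one_iff_mem (K := F) (below F w) _).2 h6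
      have e8 : (algebraMap (𝓞 F) F) (-5 - algebraMap (𝓞 MP_1a91b9_ntT.K) (𝓞 F) omO) =
          -5 - algebraMap MP_1a91b9_ntT.K F MP_1a91b9_ntT.om := by
        rw [map_sub, map_neg, map_ofNat, hO]
      rw [← e8]
      exact h8.ne
    · right
      intro t
      have h9 := ha _ hR hp t
      have h10 := (HeightOneSpectrum.valuation_eq_one_iff_notMem (K := F) (below F w)).2 h9
      have e10 : (algebraMap (𝓞 F) F) (t ^ 2 - algebraMap (𝓞 MP_1a91b9_ntT.K) (𝓞 F) omO * t + 1) =
          (t : F) ^ 2 - algebraMap MP_1a91b9_ntT.K F MP_1a91b9_ntT.om * t + 1 := by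
        rw [map_add, map_sub, map_mul, map_pow, map_one, hO]
      rw [← e10]
      exact h10

theorem tower_good {F : Type u} [Field F] [NumberField F] [Algebra MP_1a91b9_ntT.K F]
    (h : TowerK3 F) : Good F (algebraMap MP_1a91b9_ntT.K F MP_1a91b9_ntT.om) := by
  have hom := om_eq
  induction h with
  | base F hb =>
    refine good_base F ?_ ?_
    · have h2 : finrank ℚ MP_1a91b9_ntT.K = 2 := by
        have h1 := IsCyclotomicExtension.finrank (n := 3) (K := ℚ) MP_1a91b9_ntT.K
          (Polynomial.cyclotomic.irreducible_rat (by norm_num))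
        rw [h1]
        decide
      have h3 : finrank MP_1a91b9_ntT.K F = 1 := by
        have e := (AlgEquiv.ofBijective (Algebra.ofId MP_1a91b9_ntT.K F) hb).toLinearEquiv.finrank_eq
        rw [← e]
        exact Module.finrank_self _
      rw [← Module.finrank_mul_finrank ℚ MP_1a91b9_ntT.K F, h2, h3]
    · rw [← map_pow, ← map_add, ← map_one (algebraMap MP_1a91b9_ntT.K F), ← map_add, hom, map_zero]
  | step F F' hG hr hu ha _ ih =>
    have h1 := good_step (algebraMap MP_1a91b9_ntT.K F MP_1a91b9_ntT.om)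
      (stepCond_of_tower hG hr hu ha) ih
    rwa [← IsScalarTower.algebraMap_apply] at h1

theorem s5_finite (F : Type u) [Field F] [NumberField F] [Algebra MP_1a91b9_ntT.K F]
    (h : TowerK3 F) : Finite (E49 F).toAffine.Point := by
  have h1 := (tower_good h).finite
  have h2 : E49 F = EC (algebraMap MP_1a91b9_ntT.K F MP_1a91b9_ntT.om) := by
    unfold E49 EC
    rw [map_add, map_mul, map_one, map_ofNat]
  rw [h2]
  exact h1

end Pool.Agent.Lib.MP_1a91b9_ntT3.S5
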