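import Pool.Agent.Lib.MP_1a91b9_ntT.S5.QuadRam

/-!
# Descent by `√-3` along a tower of cubic extensions: definitions

Stream S5 of the project MP_1a91b9_nt, T3 (leader helper89). The curve is
`y² + om y = x³ + (1 + 2 om) x² - x`, `om² + om + 1 = 0`, i.e. `Y² = X³ + D / 36` with
`X = x + (1 + 2 om) / 3`, `Y = y + om / 2`, `D = -5 - om`. All fields are number fields, places are
elements of `HeightOneSpectrum (𝓞 N)` with values in `ℤᵐ⁰` (`exp (-n)` is the value of an element of
order `n`). `below`, `ram`, `Quad` and their properties are those of the stream S5 of the first tower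
(`Pool.Agent.Lib.MP_1a91b9_ntT.S5`, files Defs, Places, Conj, QuadBasic, QuadRam, Zm).
-/

set_option autoImplicit false

namespace Pool.Agent.Lib.MP_1a91b9_ntT3.S5

open IsDedekindDomain NumberField WithZero Module
open Pool.Agent.Lib.MP_1a91b9_ntT.S5 (below ram Quad)

universe u

/-- The curve `y² + om y = x³ + (1 + 2 om) x² - x`. -/
abbrev EC {N : Type*} [Field N] (om : N) : WeierstrassCurve N := ⟨0, 1 + 2 * om, om, -1, 0⟩

/-- a value whose order is a multiple of three -/
def Cb (a : ℤᵐ⁰) : Prop := ∃ k : ℤ, a = exp (3 * k)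

/-- The Selmer condition on `α` in `M = N(s)`. -/
structure Sel (N : Type*) {M : Type*} [Field N] [NumberField N] [Field M] [NumberField M]
    [Algebra N M] (s : M) (σ : M ≃ₐ[N] M) (α : M) : Prop where
  ne_zero : α ≠ 0
  norm : ∃ g : N, α * σ α = algebraMap N M (g ^ 3)
  val : ∀ w : HeightOneSpectrum (𝓞 M), Cb (w.valuation M α)
  three : ∀ v : HeightOneSpectrum (𝓞 N), v.valuation N 3 < 1 → ∃ (u : M) (a b : N),
    α = u ^ 3 * (algebraMap N M a + algebraMap N M b * s) ∧ v.valuation N a = 1 ∧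
      v.valuation N b < 1

/-- The property which is carried through the tower. -/
structure Good (N : Type u) [Field N] [NumberField N] (om : N) : Prop where
  hom : om ^ 2 + om + 1 = 0
  unr : ∀ v : HeightOneSpectrum (𝓞 N), v.valuation N 3 < 1 →
    v.valuation N (1 + 2 * om) = exp (-1 : ℤ)
  odd : ∀ v : HeightOneSpectrum (𝓞 N), v.valuation N (-5 - om) ≠ 1 →
    ¬ IsSquare (v.valuation N (-5 - om))
  sel : ∀ (M : Type u) [Field M] [NumberField M] [Algebra N M] (s : M) (σ : M ≃ₐ[N] M),
    Quad N M (-5 - om) s σ → ∀ α : M, Sel N s σ α → ∃ r : M, α = r ^ 3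

/-- The conditions at a step `N' / N` of the tower. -/
structure StepCond (N N' : Type*) [Field N] [NumberField N] [Field N'] [NumberField N']
    [Algebra N N'] (om : N) : Prop where
  gal : IsGalois N N'
  deg : finrank N N' = 3
  ram : ∀ v : HeightOneSpectrum (𝓞 N'), ram N v ≠ 1 → v.valuation N' 3 = 1 ∧
    ((below N v).valuation N (-5 - om) ≠ 1 ∨
      ∀ t : 𝓞 N, (below N v).valuation N ((t : N) ^ 2 - om * t + 1) = 1)

/-- `τ` generates the Galois group of order 3 of `L / K`. -/
structure Cyc (K L : Type*) [Field K] [Field L] [Algebra K L] (τ : L ≃ₐ[K] L) : Prop where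
  cube : ∀ x : L, τ (τ (τ x)) = x
  fixed : ∀ x : L, τ x = x → ∃ y : K, algebraMap K L y = x
  moves : ∃ x : L, τ x ≠ x

/-- The square of fields of a step: `M = N(s)`, `M' = N'(s)`, `N' / N` and `M' / M` cyclic of
degree three. -/
structure StepData {N N' M M' : Type*} [Field N] [Field N'] [Field M] [Field M']
    [Algebra N N'] [Algebra N M] [Algebra N' M'] [Algebra M M'] [Algebra N M']
    (om : N) (s : M) (σ : M ≃ₐ[N] M) (σ' : M' ≃ₐ[N'] M') (τ : N' ≃ₐ[N] N')
    (τ' : M' ≃ₐ[M] M') : Prop where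
  towN : IsScalarTower N N' M'
  towM : IsScalarTower N M M'
  quad : Quad N M (-5 - om) s σ
  quad' : Quad N' M' (-5 - algebraMap N N' om) (algebraMap M M' s) σ'
  cyc : Cyc N N' τ
  cyc' : Cyc M M' τ'
  extσ : ∀ x : M, σ' (algebraMap M M' x) = algebraMap M M' (σ x)
  extτ : ∀ x : N', τ' (algebraMap N' M' x) = algebraMap N' M' (τ x)
  comm : ∀ x : M', τ' (σ' x) = σ' (τ' x)

end Pool.Agent.Lib.MP_1a91b9_ntT3.S5
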