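import Pool.Agent.Lib.MP_1a91b9_ntT3.S5.Local

/-!
# JOB T3-S5-BaseSigA: signature of the field of degree four `M = N(s)`

`N = ℚ(om)`, `[N : ℚ] = 2`, `s² = D = -5 - om`, `[M : ℚ] = 4`, `θ = (om + s) / 2`,
`θ² - om θ + 1 = 0`. See BaseSig.lean of the first tower for the same facts in `ℚ(∛2)`.
-/

set_option autoImplicit false

namespace Pool.Agent.Lib.MP_1a91b9_ntT3.S5

open IsDedekindDomain NumberField WithZero Module
open Pool.Agent.Lib.MP_1a91b9_ntT.S5 (below ram Quad)

/-- `θ = (om + s) / 2` is an algebraic integer (root of `T² - om T + 1`, `om` is integral) -/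
theorem theta_integral {N M : Type*} [Field N] [NumberField N] [Field M] [NumberField M]
    [Algebra N M] {om : N} {s : M} {σ : M ≃ₐ[N] M} (hom : om ^ 2 + om + 1 = 0)
    (hQ : Quad N M (-5 - om) s σ) : IsIntegral ℤ ((algebraMap N M om + s) / 2) := by
  obtain ⟨a, ha⟩ : ∃ a : M, a = algebraMap N M om := ⟨_, rfl⟩
  have hom' : a ^ 2 + a + 1 = 0 := by
    rw [ha, ← map_pow, ← map_add, ← map_one (algebraMap N M), ← map_add, hom, map_zero]
  have hs : s ^ 2 = -5 - a := by
    rw [hQ.sq, ha, map_sub, map_neg, map_ofNat]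
  rw [← ha]
  obtain ⟨t, ht⟩ : ∃ t : M, t = (a + s) / 2 := ⟨_, rfl⟩
  have hθ : t ^ 2 + 1 = a * t := by
    rw [ht]
    linear_combination (1 / 4) * hs - (1 / 4) * hom'
  rw [← ht]
  have hroot : t ^ 4 + t ^ 3 + 3 * t ^ 2 + t + 1 = 0 := by
    linear_combination (t ^ 2 + 1 + a * t + t) * hθ + t ^ 2 * hom'
  refine ⟨Polynomial.X ^ 4 + Polynomial.X ^ 3 + 3 * Polynomial.X ^ 2 + Polynomial.X + 1, ?_, ?_⟩
  · monicity!
  · simp only [Polynomial.eval₂_add, Polynomial.eval₂_mul, Polynomial.eval₂_pow,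
      Polynomial.eval₂_X, Polynomial.eval₂_ofNat, Polynomial.eval₂_one]
    exact hroot

theorem base_deg {N M : Type*} [Field N] [NumberField N] [Field M] [NumberField M] [Algebra N M]
    {om : N} {s : M} {σ : M ≃ₐ[N] M} (h2 : finrank ℚ N = 2) (hQ : Quad N M (-5 - om) s σ) :
    finrank ℚ M = 4 := by
  rw [← Module.finrank_mul_finrank ℚ N M, h2, hQ.deg]

/-- no real place: `om² + om + 1 = 0` has no real solution -/
theorem base_real {M : Type*} [Field M] [NumberField M] {om : M} (hom : om ^ 2 + om + 1 = 0) :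
    InfinitePlace.nrRealPlaces M = 0 := by
  classical
  have h3 : InfinitePlace.nrRealPlaces M =
      Fintype.card {w : InfinitePlace M // InfinitePlace.IsReal w} := by
    unfold InfinitePlace.nrRealPlaces
    exact Fintype.card_congr (Equiv.refl _)
  rw [h3, Fintype.card_eq_zero_iff]
  refine ⟨fun w => ?_⟩
  have h4 : (InfinitePlace.embedding_of_isReal w.2 om) ^ 2 +
      InfinitePlace.embedding_of_isReal w.2 om + 1 = 0 := by
    rw [← map_pow, ← map_add, ← map_one (InfinitePlace.embedding_of_isReal w.2), ← map_add, hom,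
      map_zero]
  nlinarith [sq_nonneg (2 * InfinitePlace.embedding_of_isReal w.2 om + 1)]

theorem base_complex {M : Type*} [Field M] [NumberField M] {om : M} (hom : om ^ 2 + om + 1 = 0)
    (h4 : finrank ℚ M = 4) : InfinitePlace.nrComplexPlaces M = 2 := by
  have h1 := InfinitePlace.card_add_two_mul_card_eq_rank M
  have h2 := base_real hom
  omega

theorem base_rank {M : Type*} [Field M] [NumberField M] {om : M} (hom : om ^ 2 + om + 1 = 0)
    (h4 : finrank ℚ M = 4) : Units.rank M = 1 := by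
  unfold Units.rank
  rw [InfinitePlace.card_eq_nrRealPlaces_add_nrComplexPlaces, base_real hom, base_complex hom h4]

end Pool.Agent.Lib.MP_1a91b9_ntT3.S5
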