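import Pool.Agent.Lib.MP_1a91b9_ntT3.S5.BaseSigA

/-!
# JOB T3-S5-BaseSigB: discriminant of the field of degree four `M = N(s)`

`N = ℚ(om)`, `[N : ℚ] = 2`, `s² = D = -5 - om`, `[M : ℚ] = 4`, `θ = (om + s) / 2`,
`θ² - om θ + 1 = 0`. See BaseSig.lean of the first tower for the same computation in `ℚ(∛2)`
(`base_discr`: `Algebra.discr_of_matrix_vecMul`).
TRACES. `Algebra.trace ℚ M = trace ℚ N ∘ trace N M` (`Algebra.trace_trace`),
`trace N M (a + b s) = 2 a`, `trace ℚ N (a + b om) = 2 a - b`. For `e = (1, om, θ, om θ)` (a family of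
algebraic integers, `theta_integral`) the matrix of `Algebra.trace ℚ M (e i * e j)` is
`[[4, -2, -1, -1], [-2, -2, -1, 2], [-1, -1, -5, 4], [-1, 2, 4, 1]]`, with determinant `189`.
(`θ = om / 2 + s / 2`, `θ² = om θ - 1`, `om² = -1 - om`.)
-/

set_option autoImplicit false

namespace Pool.Agent.Lib.MP_1a91b9_ntT3.S5

open IsDedekindDomain NumberField WithZero Module
open Pool.Agent.Lib.MP_1a91b9_ntT.S5 (below ram Quad)

/-- trace from the field of degree four to the quadratic field -/
private theorem BaseSigB_traceM {N M : Type*} [Field N] [NumberField N] [Field M] [NumberField M]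
    [Algebra N M] {d : N} {s : M} {σ : M ≃ₐ[N] M} (hQ : Quad N M d s σ) (a b : N) :
    Algebra.trace N M (algebraMap N M a + algebraMap N M b * s) = 2 * a := by
  have h1 : Algebra.trace N M s = 0 := by
    have h2 := Algebra.trace_eq_of_algEquiv σ s
    rw [hQ.conj, map_neg] at h2
    have h3 : (2 : N) * Algebra.trace N M s = 0 := by linear_combination (-1 : N) * h2
    rcases mul_eq_zero.1 h3 with h4 | h4
    · exact absurd h4 two_ne_zero
    · exact h4
  rw [map_add, Algebra.trace_algebraMap, hQ.deg, ← Algebra.smul_def, map_smul, h1, smul_zero,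
    add_zero, nsmul_eq_mul]
  norm_num

/-- trace of `om` -/
private theorem BaseSigB_traceN {N : Type*} [Field N] [NumberField N] {om : N}
    (h2 : finrank ℚ N = 2) (hom : om ^ 2 + om + 1 = 0) (a b : ℚ) :
    Algebra.trace ℚ N (algebraMap ℚ N a + algebraMap ℚ N b * om) = 2 * a - b := by
  have h3 : (2 * om + 1) ^ 2 = algebraMap ℚ N (-3) := by
    rw [map_neg, map_ofNat]
    linear_combination (4 : N) * hom
  obtain ⟨σ, hσ⟩ := Pool.Agent.Lib.MP_1a91b9_ntT.S5.exists_quad (-3 : ℚ) (2 * om + 1) h3 h2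
    (by
      intro x hx
      rw [← hx, ← map_pow] at h3
      have h4 : x ^ 2 = -3 := (algebraMap ℚ N).injective h3
      have h5 := sq_nonneg x
      rw [h4] at h5
      norm_num at h5)
  have h4 := BaseSigB_traceM hσ (a - b / 2) (b / 2)
  have h5 : algebraMap ℚ N (a - b / 2) + algebraMap ℚ N (b / 2) * (2 * om + 1) =
      algebraMap ℚ N a + algebraMap ℚ N b * om := by
    have e1 : algebraMap ℚ N b = algebraMap ℚ N (b / 2) * 2 := by
      rw [← map_ofNat (algebraMap ℚ N) 2, ← map_mul]
      congr 1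
      ring
    rw [e1, map_sub]
    ring
  rw [h5] at h4
  rw [h4]
  ring

private theorem BaseSigB_trace {N M : Type*} [Field N] [NumberField N] [Field M] [NumberField M]
    [Algebra N M] {om : N} {s : M} {σ : M ≃ₐ[N] M} (h2 : finrank ℚ N = 2)
    (hom : om ^ 2 + om + 1 = 0) (hQ : Quad N M (-5 - om) s σ) {x : M} (a b : ℚ) (z : N)
    (hx : x = algebraMap N M (algebraMap ℚ N a + algebraMap ℚ N b * om) +
      algebraMap N M z * s) : Algebra.trace ℚ M x = 4 * a - 2 * b := by
  rw [← Algebra.trace_trace (S := N), hx, BaseSigB_traceM hQ]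
  have h3 : (2 : N) * (algebraMap ℚ N a + algebraMap ℚ N b * om) =
      algebraMap ℚ N (2 * a) + algebraMap ℚ N (2 * b) * om := by
    rw [map_mul, map_mul, map_ofNat]
    ring
  rw [h3, BaseSigB_traceN h2 hom]
  ring

private theorem BaseSigB_traces {N M : Type*} [Field N] [NumberField N] [Field M] [NumberField M]
    [Algebra N M] {om : N} {s : M} {σ : M ≃ₐ[N] M} (h2 : finrank ℚ N = 2)
    (hom : om ^ 2 + om + 1 = 0) (hQ : Quad N M (-5 - om) s σ) (i j : Fin 4) :
    Algebra.trace ℚ M ((![1, algebraMap N M om, (algebraMap N M om + s) / 2,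
      algebraMap N M om * ((algebraMap N M om + s) / 2)] : Fin 4 → M) i *
      (![1, algebraMap N M om, (algebraMap N M om + s) / 2,
      algebraMap N M om * ((algebraMap N M om + s) / 2)] : Fin 4 → M) j) =
      (!![(4 : ℚ), -2, -1, -1; -2, -2, -1, 2; -1, -1, -5, 4; -1, 2, 4, 1] :
        Matrix (Fin 4) (Fin 4) ℚ) i j := by
  have hs : s ^ 2 = -5 - algebraMap N M om := by
    rw [hQ.sq, map_sub, map_neg, map_ofNat]
  have hm : (algebraMap N M om) ^ 2 = -1 - algebraMap N M om := by
    have h := congrArg (algebraMap N M) hom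
    rw [map_add, map_add, map_pow, map_one, map_zero] at h
    linear_combination h
  have key : ∀ (x : M) (a b c d : ℚ), x = (a : M) + b * algebraMap N M om +
      (c + d * algebraMap N M om) * s → Algebra.trace ℚ M x = 4 * a - 2 * b := by
    intro x a b c d hx
    refine BaseSigB_trace h2 hom hQ a b (algebraMap ℚ N c + algebraMap ℚ N d * om) ?_
    rw [hx]
    simp only [map_add, map_mul, eq_ratCast, map_ratCast]
  generalize hw : algebraMap N M om = w at *
  have t00 : Algebra.trace ℚ M (1 * 1 : M) = 4 := by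
    rw [key _ 1 0 0 0 (by norm_num)]; norm_num
  have t01 : Algebra.trace ℚ M (1 * w) = -2 := by
    rw [key _ 0 1 0 0 (by push_cast; ring)]; norm_num
  have t02 : Algebra.trace ℚ M (1 * ((w + s) / 2)) = -1 := by
    rw [key _ 0 (1 / 2) (1 / 2) 0 (by push_cast; ring)]; norm_num
  have t03 : Algebra.trace ℚ M (1 * (w * ((w + s) / 2))) = -1 := by
    rw [key _ (-1 / 2) (-1 / 2) 0 (1 / 2) (by
      push_cast
      linear_combination (1 / 2 : M) * hm)]; norm_num
  have t11 : Algebra.trace ℚ M (w * w) = -2 := by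
    rw [key _ (-1) (-1) 0 0 (by push_cast; linear_combination hm)]; norm_num
  have t13 : Algebra.trace ℚ M (w * (w * ((w + s) / 2))) = 2 := by
    rw [key _ (1 / 2) 0 (-1 / 2) (-1 / 2) (by
      push_cast
      linear_combination ((w + s) / 2 - 1 / 2 : M) * hm)]; norm_num
  have t22 : Algebra.trace ℚ M ((w + s) / 2 * ((w + s) / 2)) = -5 := by
    rw [key _ (-3 / 2) (-1 / 2) 0 (1 / 2) (by
      push_cast
      linear_combination (1 / 4 : M) * hm + (1 / 4 : M) * hs)]; norm_num
  have t23 : Algebra.trace ℚ M ((w + s) / 2 * (w * ((w + s) / 2))) = 4 := by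
    rw [key _ (1 / 2) (-1) (-1 / 2) (-1 / 2) (by
      push_cast
      linear_combination (w / 4 + s / 2 - 1 / 2 : M) * hm + (w / 4 : M) * hs)]; norm_num
  have t33 : Algebra.trace ℚ M (w * ((w + s) / 2) * (w * ((w + s) / 2))) = 1 := by
    rw [key _ 1 (3 / 2) (1 / 2) 0 (by
      push_cast
      linear_combination (s / 2 * (w - 1) + w * (w - 1) / 4 - (w - 1) / 4 - 5 / 4 : M) * hm +
        (w ^ 2 / 4 : M) * hs)]; norm_num
  have t10 : Algebra.trace ℚ M (w * 1) = -2 := by rw [mul_comm]; exact t01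
  have t20 : Algebra.trace ℚ M ((w + s) / 2 * 1) = -1 := by rw [mul_comm]; exact t02
  have t30 : Algebra.trace ℚ M (w * ((w + s) / 2) * 1) = -1 := by rw [mul_comm]; exact t03
  have t12 : Algebra.trace ℚ M (w * ((w + s) / 2)) = -1 := by rw [← one_mul (w * _)]; exact t03
  have t21 : Algebra.trace ℚ M ((w + s) / 2 * w) = -1 := by rw [mul_comm]; exact t12
  have t31 : Algebra.trace ℚ M (w * ((w + s) / 2) * w) = 2 := by rw [mul_comm]; exact t13
  have t32 : Algebra.trace ℚ M (w * ((w + s) / 2) * ((w + s) / 2)) = 4 := by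
    rw [mul_comm]; exact t23
  fin_cases i <;> fin_cases j
  · exact t00
  · exact t01
  · exact t02
  · exact t03
  · exact t10
  · exact t11
  · exact t12
  · exact t13
  · exact t20
  · exact t21
  · exact t22
  · exact t23
  · exact t30
  · exact t31
  · exact t32
  · exact t33

theorem base_discr {N M : Type*} [Field N] [NumberField N] [Field M] [NumberField M] [Algebra N M]
    {om : N} {s : M} {σ : M ≃ₐ[N] M} (h2 : finrank ℚ N = 2) (hom : om ^ 2 + om + 1 = 0)
    (hQ : Quad N M (-5 - om) s σ) : |discr M| ≤ 189 := by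
  classical
  have h4 := base_deg h2 hQ
  have hwi : IsIntegral ℤ (algebraMap N M om) := by
    have h : IsIntegral ℤ om := by
      refine ⟨Polynomial.X ^ 2 + Polynomial.X + 1, by monicity!, ?_⟩
      simp [Polynomial.eval₂_add, Polynomial.eval₂_pow, Polynomial.eval₂_X, hom]
    exact h.algebraMap
  have hti := theta_integral hom hQ
  obtain ⟨w, hw⟩ : ∃ t : 𝓞 M, (t : M) = algebraMap N M om := ⟨⟨_, hwi⟩, rfl⟩
  obtain ⟨t, ht⟩ : ∃ t : 𝓞 M, (t : M) = (algebraMap N M om + s) / 2 := ⟨⟨_, hti⟩, rfl⟩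
  have hcard : Fintype.card (Module.Free.ChooseBasisIndex ℤ (𝓞 M)) = Fintype.card (Fin 4) := by
    rw [← Module.finrank_eq_card_chooseBasisIndex, RingOfIntegers.rank, h4, Fintype.card_fin]
  set b := (RingOfIntegers.basis M).reindex (Fintype.equivOfCardEq hcard) with hb
  set v : Fin 4 → 𝓞 M := ![1, w, t, w * t] with hv
  have hvc : ∀ i, ((v i : 𝓞 M) : M) = (![1, algebraMap N M om, (algebraMap N M om + s) / 2,
      algebraMap N M om * ((algebraMap N M om + s) / 2)] : Fin 4 → M) i := by
    intro i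
    fin_cases i
    · simp [hv]
    · simpa [hv] using hw
    · simpa [hv] using ht
    · simp [hv, hw, ht]
  have h1 : Algebra.discr ℤ v = (b.toMatrix v).det ^ 2 * discr M := by
    have h2 := Algebra.discr_of_matrix_vecMul (b : Fin 4 → 𝓞 M) (b.toMatrix v)
    rw [Basis.toMatrix_map_vecMul, discr_eq_discr] at h2
    exact h2
  have h3 : ((Algebra.discr ℤ v : ℤ) : ℚ) = 189 := by
    rw [Algebra.discr_def, ← eq_intCast (Int.castRingHom ℚ), RingHom.map_det]
    have h4 : (Int.castRingHom ℚ).mapMatrix (Algebra.traceMatrix ℤ v) =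
        (!![(4 : ℚ), -2, -1, -1; -2, -2, -1, 2; -1, -1, -5, 4; -1, 2, 4, 1] :
          Matrix (Fin 4) (Fin 4) ℚ) := by
      ext i j
      rw [RingHom.mapMatrix_apply, Matrix.map_apply, Algebra.traceMatrix_apply,
        Algebra.traceForm_apply, eq_intCast, Algebra.coe_trace_int,
        ← BaseSigB_traces h2 hom hQ i j, ← hvc i, ← hvc j]
      exact congrArg (Algebra.trace ℚ M) (map_mul (algebraMap (𝓞 M) M) (v i) (v j))
    rw [h4]
    simp [Matrix.det_succ_row_zero, Fin.sum_univ_succ, Fin.succAbove]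
    norm_num
  have h5 : Algebra.discr ℤ v = 189 := by exact_mod_cast h3
  rw [h1] at h5
  have h6 : (b.toMatrix v).det ≠ 0 := fun h0 => by
    rw [h0] at h5
    norm_num at h5
  have h7 : 1 ≤ (b.toMatrix v).det ^ 2 := by
    have := Int.one_le_abs h6
    rw [← sq_abs]
    nlinarith
  have h8 : |(b.toMatrix v).det ^ 2 * discr M| = 189 := by rw [h5]; norm_num
  rw [abs_mul, abs_of_nonneg (sq_nonneg _)] at h8
  nlinarith [abs_nonneg (discr M)]

end Pool.Agent.Lib.MP_1a91b9_ntT3.S5
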