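import Pool.Agent.Lib.MP_1a91b9_ntT3.S5.Gen

/-!
# JOB T3-S5-Resid: places where `t² - om t + 1` has no root are invariant

`val_below K w x : w.valuation L (algebraMap K L x) = (below K w).valuation K x ^ ram K w`,
`eq_one_below` (Gen.lean), `exists_conj_place σ w` (there is `w'` with `below K w' = below K w` and
`w'.valuation L x = w.valuation L (σ x)`; file Conj.lean of the first tower).
-/

set_option autoImplicit false

namespace Pool.Agent.Lib.MP_1a91b9_ntT3.S5

open IsDedekindDomain NumberField WithZero Module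
open Pool.Agent.Lib.MP_1a91b9_ntT.S5

/-- `δ² = -5 - om`, `θ = (om + δ) / 2` is an algebraic integer: `θ² - om θ + 1 = 0` (with
`om² + om + 1 = 0`). If `t² - om t + 1` has no root modulo `v = below K w`, the place `w` of `L` is
invariant: let `w'(x) = w(σ x)` (`exists_conj_place`) and suppose `w' ≠ w`. By the Chinese remainder
theorem there is `x : 𝓞 L` in `w'` with `x - θ` in `w` (the ideals are different and maximal, hence
coprime). `t = x + σ x` is fixed by `σ`, so it comes from `t : 𝓞 K` (`h.fixed`, integral over `ℤ`);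
`w(σ x) = w'(x) < 1`, so `w(t - θ) < 1`, and `t² - om t + 1 = (t - θ) (t - σ θ)` so
`w(t² - om t + 1) < 1`, against `hr` (`eq_one_below`). -/
theorem inv_of_resid {K L : Type*} [Field K] [NumberField K] [Field L] [NumberField L]
    [Algebra K L] {om : K} (hom : om ^ 2 + om + 1 = 0) {δ : L} {σ : L ≃ₐ[K] L}
    (h : Quad K L (-5 - om) δ σ) (w : HeightOneSpectrum (𝓞 L))
    (hr : ∀ t : 𝓞 K, (below K w).valuation K ((t : K) ^ 2 - om * t + 1) = 1) (x : L) :
    w.valuation L (σ x) = w.valuation L x := by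
  obtain ⟨w', -, hw'⟩ := exists_conj_place σ w
  by_cases hne : w' = w
  · rw [← hw', hne]
  exfalso
  -- the element `θ`
  have hd := h.sq
  have hom' : (algebraMap K L om) ^ 2 + algebraMap K L om + 1 = 0 := by
    rw [← map_pow, ← map_add, ← map_one (algebraMap K L), ← map_add, hom, map_zero]
  have hd' : δ ^ 2 = -5 - algebraMap K L om := by
    rw [hd, map_sub, map_neg, map_ofNat]
  have hσom : σ (algebraMap K L om) = algebraMap K L om := σ.commutes om
  generalize hθ : (algebraMap K L om + δ) / 2 = θ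
  have hσθ : θ + σ θ = algebraMap K L om := by
    rw [← hθ, map_div₀, map_add, hσom, h.conj, map_ofNat]
    ring
  have hθσ : θ * σ θ = 1 := by
    rw [← hθ, map_div₀, map_add, hσom, h.conj, map_ofNat]
    linear_combination (-1 / 4 : L) * hd' + (1 / 4 : L) * hom'
  have hθ2 : θ ^ 2 - algebraMap K L om * θ + 1 = 0 := by
    rw [← hσθ, ← hθσ]
    ring
  have hint : IsIntegral ℤ θ := by
    refine ⟨Polynomial.X ^ 4 + Polynomial.X ^ 3 + 3 * Polynomial.X ^ 2 + Polynomial.X + 1, ?_, ?_⟩
    · monicity!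
    · simp only [Polynomial.eval₂_add, Polynomial.eval₂_mul, Polynomial.eval₂_pow,
        Polynomial.eval₂_X, Polynomial.eval₂_one, Polynomial.eval₂_ofNat]
      have e : θ ^ 4 + θ ^ 3 + 3 * θ ^ 2 + θ + 1 =
          (θ ^ 2 - algebraMap K L om * θ + 1) * (θ ^ 2 + (1 + algebraMap K L om) * θ + 1) +
            ((algebraMap K L om) ^ 2 + algebraMap K L om + 1) * θ ^ 2 := by
        ring
      rw [e, hθ2, hom']
      ring
  have hσint : ∀ y : L, IsIntegral ℤ y → IsIntegral ℤ (σ y) := fun y hy =>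
    hy.map ((σ : L →ₐ[K] L).restrictScalars ℤ)
  -- Chinese remainder theorem
  have hne' : w'.asIdeal ≠ w.asIdeal := fun h3 => hne (HeightOneSpectrum.ext h3)
  have hcop := Ideal.IsMaximal.coprime_of_ne w'.isMaximal w.isMaximal hne'
  have h1mem : (1 : 𝓞 L) ∈ w'.asIdeal ⊔ w.asIdeal := by
    rw [hcop]
    exact Submodule.mem_top
  obtain ⟨a, ha, b, hb, hab⟩ := Submodule.mem_sup.1 h1mem
  let θi : 𝓞 L := ⟨θ, hint⟩
  let xi : 𝓞 L := a * θi
  have hx1 : w'.valuation L (xi : L) < 1 :=
    (w'.valuation_lt_one_iff_mem xi).2 (Ideal.mul_mem_right _ _ ha)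
  have hx2 : w.valuation L ((xi : L) - θ) < 1 := by
    have e1 : (xi : L) - θ = ((xi - θi : 𝓞 L) : L) := rfl
    rw [e1]
    refine (w.valuation_lt_one_iff_mem (xi - θi)).2 ?_
    have e2 : xi - θi = -(b * θi) := by
      show a * θi - θi = _
      have e3 : a = 1 - b := by rw [← hab]; ring
      rw [e3]
      ring
    rw [e2]
    exact w.asIdeal.neg_mem (Ideal.mul_mem_right _ _ hb)
  have hx3 : w.valuation L (σ (xi : L)) < 1 := by
    rw [← hw']
    exact hx1
  have hxint : IsIntegral ℤ (xi : L) := xi.2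
  -- the trace
  obtain ⟨t0, ht0⟩ := h.fixed ((xi : L) + σ (xi : L)) (by rw [map_add, h.invol, add_comm])
  have ht0int : IsIntegral ℤ t0 := by
    rw [← isIntegral_algebraMap_iff (algebraMap K L).injective, ht0]
    exact hxint.add (hσint _ hxint)
  have hr' := hr ⟨t0, ht0int⟩
  have hr2 := (eq_one_below w (t0 ^ 2 - om * t0 + 1)).2 hr'
  have e4 : algebraMap K L (t0 ^ 2 - om * t0 + 1) =
      ((xi : L) + σ (xi : L) - θ) * ((xi : L) + σ (xi : L) - σ θ) := by
    rw [map_add, map_sub, map_mul, map_pow, ht0, map_one, ← hσθ, ← hθσ]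
    ring
  rw [e4, map_mul] at hr2
  have h5 : w.valuation L ((xi : L) + σ (xi : L) - θ) < 1 := by
    have e5 : (xi : L) + σ (xi : L) - θ = ((xi : L) - θ) + σ (xi : L) := by ring
    rw [e5]
    exact lt_of_le_of_lt (Valuation.map_add _ _ _) (max_lt hx2 hx3)
  have h6 : w.valuation L ((xi : L) + σ (xi : L) - σ θ) ≤ 1 := by
    have hi : IsIntegral ℤ ((xi : L) + σ (xi : L) - σ θ) :=
      (hxint.add (hσint _ hxint)).sub (hσint _ hint)
    exact w.valuation_le_one (⟨_, hi⟩ : 𝓞 L)
  have h7 := mul_lt_one_of_lt_of_le h5 h6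
  rw [hr2] at h7
  exact lt_irrefl _ h7

end Pool.Agent.Lib.MP_1a91b9_ntT3.S5
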