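import Pool.Agent.Lib.MP_1a91b9_ntT3.S5.SelBasic
import Pool.Agent.Lib.MP_1a91b9_ntT3.S5.Resid

/-!
# JOB T3-S5-Desc: the Selmer condition descends from `M'` to `M`

`val` at a place `w` of `M`: choose `w'` of `M'` with `below M w' = w` (`exists_above`) and put
`v' = below N' w'`, `v = below N w = below N v'`. `w'(κ) = w(κ) ^ ram M w'` is a multiple of three.
If `3 ∤ ram M w'`: `Cb.of_pow`. Otherwise `ram M w' * ram N w = ram N' w' * ram N v'` (`ram_mul`
twice) and `ram N' w' ≤ 2` (`ram_le`, `D.quad'.deg`), positive, so `3 ∣ ram N v'` and `ram N v' ≠ 1`: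
`hc.ram v'` applies; `inv_of_odd` (`v(D) ≠ 1` implies odd by `hodd`) or `inv_of_resid` gives
`w(σ κ) = w(κ)`, so `w(κ)² = w(g)³` with `w(g)` of the form `v(g) ^ ..`: `Cb.of_sq`.

`three` at a place `v` of `N`, `v(3) < 1`, `v(D) = exp (-1)`: choose `v'` of `N'` above `v`; then
`v'(3) < 1` (`lt_one_below`), `ram N v' = 1` (otherwise `hc.ram v'` gives `v'(3) = 1`), so
`v'(D) = exp (-1)` as well. `κ = u'³ (a' + b' s)` in `M'`, `v'(a') = 1`, `v'(b') < 1`.
`v(g³) = exp (3 m)` with `v(g) = exp m`; `κ / s^(-3 m) =: a + b s` (`hQ.repr`), of norm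
`a² - b² D = g³ / (-D)^(-3 m)`, so `v(a² - b² D) = 1` and `v(a) = 1`, `v(b) ≤ 1` (`of_val_norm`).
Apply `prime_unique` over `N'` at `v'` to `a + b s = (u' s^m)³ (a' + b' s)`: `v'(b) < 1`, so
`v(b) < 1`.
-/

set_option autoImplicit false

namespace Pool.Agent.Lib.MP_1a91b9_ntT3.S5

open IsDedekindDomain NumberField WithZero Module
open Pool.Agent.Lib.MP_1a91b9_ntT.S5

variable {N N' M M' : Type*} [Field N] [NumberField N] [Field N'] [NumberField N'] [Field M]
    [NumberField M] [Field M'] [NumberField M'] [Algebra N N'] [Algebra N M] [Algebra N' M']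
    [Algebra M M'] [Algebra N M'] {om : N} {s : M} {σ : M ≃ₐ[N] M} {σ' : M' ≃ₐ[N'] M'}
    {τ : N' ≃ₐ[N] N'} {τ' : M' ≃ₐ[M] M'}

theorem desc_val (D : StepData om s σ σ' τ τ') (hom : om ^ 2 + om + 1 = 0)
    (hodd : ∀ v : HeightOneSpectrum (𝓞 N), v.valuation N (-5 - om) ≠ 1 →
      ¬ IsSquare (v.valuation N (-5 - om)))
    (hc : StepCond N N' om) (κ : M) (h : Sel N' (algebraMap M M' s) σ' (algebraMap M M' κ)) (g : N)
    (hg : κ * σ κ = algebraMap N M (g ^ 3)) (w : HeightOneSpectrum (𝓞 M)) :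
    Cb (w.valuation M κ) := by
  have := D.towN
  have := D.towM
  have hκ : κ ≠ 0 := by
    intro h0
    exact h.ne_zero (by rw [h0, map_zero])
  obtain ⟨w', hw'⟩ := exists_above M M' w
  have h1 : Cb (w.valuation M κ ^ Pool.Agent.Lib.MP_1a91b9_ntT.S5.ram M w') := by
    have h2 := h.val w'
    rwa [val_below, hw'] at h2
  by_cases hr : 3 ∣ Pool.Agent.Lib.MP_1a91b9_ntT.S5.ram M w'
  · have hm1 := ram_mul N M w'
    have hm2 := ram_mul N N' w'
    have hle := ram_le N' w'
    rw [D.quad'.deg] at hle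
    have hpos := ram_pos N' w'
    have hdvd : 3 ∣ Pool.Agent.Lib.MP_1a91b9_ntT.S5.ram N (below N' w') *
        Pool.Agent.Lib.MP_1a91b9_ntT.S5.ram N' w' := by
      rw [← hm2, hm1]
      exact Dvd.dvd.mul_left hr _
    have h3 : 3 ∣ Pool.Agent.Lib.MP_1a91b9_ntT.S5.ram N (below N' w') := by
      rcases Nat.prime_three.dvd_mul.1 hdvd with h3 | h3
      · exact h3
      · exfalso
        exact absurd (Nat.le_of_dvd hpos h3) (by omega)
    have hne : Pool.Agent.Lib.MP_1a91b9_ntT.S5.ram N (below N' w') ≠ 1 := by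
      intro h4
      rw [h4] at h3
      omega
    have hbb : below N (below N' w') = below N w := by
      rw [below_below, ← hw', below_below]
    have hinv : w.valuation M (σ κ) = w.valuation M κ := by
      rcases (hc.ram _ hne).2 with h5 | h5
      · rw [hbb] at h5
        exact inv_of_odd D.quad w (hodd _ h5) κ
      · rw [hbb] at h5
        exact inv_of_resid hom D.quad w h5 κ
    refine Cb.of_sq (b := w.valuation M (algebraMap N M g)) ((Valuation.ne_zero_iff _).2 hκ) ?_
    have h6 := congrArg (w.valuation M) hg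
    rw [map_mul, hinv, map_pow (algebraMap N M), map_pow] at h6
    rw [pow_two, h6]
  · exact Cb.of_pow _ hr h1

theorem desc_three (D : StepData om s σ σ' τ τ') (hom : om ^ 2 + om + 1 = 0)
    (hc : StepCond N N' om) (κ : M) (h : Sel N' (algebraMap M M' s) σ' (algebraMap M M' κ)) (g : N)
    (hg : κ * σ κ = algebraMap N M (g ^ 3)) (v : HeightOneSpectrum (𝓞 N))
    (h3 : v.valuation N 3 < 1) (hD : v.valuation N (-5 - om) = exp (-1 : ℤ)) :
    ∃ (u : M) (a b : N), κ = u ^ 3 * (algebraMap N M a + algebraMap N M b * s) ∧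
      v.valuation N a = 1 ∧ v.valuation N b < 1 := by
  have := D.towN
  have := D.towM
  have hs0 : s ≠ 0 := D.quad.ne
  have hκ : κ ≠ 0 := by
    intro h0
    exact h.ne_zero (by rw [h0, map_zero])
  have hg0 : g ≠ 0 := by
    rintro rfl
    rw [zero_pow (by norm_num), map_zero] at hg
    rcases mul_eq_zero.1 hg with h0 | h0
    · exact hκ h0
    · exact hκ ((map_eq_zero σ).1 h0)
  obtain ⟨v', hv'⟩ := exists_above N N' v
  have h3' : v'.valuation N' 3 < 1 := by
    have h1 := (lt_one_below v' (3 : N)).2 (by rw [hv']; exact h3)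
    rwa [map_ofNat] at h1
  have hr : Pool.Agent.Lib.MP_1a91b9_ntT.S5.ram N v' = 1 := by
    by_contra hne
    exact absurd (hc.ram v' hne).1 h3'.ne
  have hval : ∀ t : N, v'.valuation N' (algebraMap N N' t) = v.valuation N t := by
    intro t
    rw [val_below, hr, pow_one, hv']
  have hD' : v'.valuation N' (-5 - algebraMap N N' om) = exp (-1 : ℤ) := by
    have e : (-5 - algebraMap N N' om : N') = algebraMap N N' (-5 - om) := by
      rw [map_sub, map_neg, map_ofNat]
    rw [e, hval, hD]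
  obtain ⟨u', a', b', he', ha', hb'⟩ := h.three v' h3'
  obtain ⟨m, hm⟩ : ∃ m : ℤ, v.valuation N g = exp m :=
    ⟨log (v.valuation N g), (exp_log ((Valuation.ne_zero_iff _).2 hg0)).symm⟩
  obtain ⟨a, b, hab⟩ := D.quad.repr (κ * (s ^ m) ^ 3)
  have hnorm : a ^ 2 - b ^ 2 * (-5 - om) = (g * (-(-5 - om)) ^ m) ^ 3 := by
    apply (algebraMap N M).injective
    have h1 : (κ * (s ^ m) ^ 3) * σ (κ * (s ^ m) ^ 3) =
        algebraMap N M (a ^ 2 - b ^ 2 * (-5 - om)) := by
      rw [hab, map_add σ, map_mul σ, AlgEquiv.commutes, AlgEquiv.commutes, D.quad.conj,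
        map_sub (algebraMap N M), map_mul (algebraMap N M), map_pow (algebraMap N M),
        map_pow (algebraMap N M), ← D.quad.sq]
      ring
    rw [← h1, map_mul σ, map_pow σ, map_zpow₀ σ, D.quad.conj, mul_pow g, map_mul (algebraMap N M),
      ← hg, map_pow (algebraMap N M) ((-(-5 - om)) ^ m), map_zpow₀ (algebraMap N M),
      map_neg (algebraMap N M), ← D.quad.sq]
    have e : -s ^ 2 = s * (-s) := by ring
    rw [e, mul_zpow]
    ring
  have hD0 : (-5 - om : N) ≠ 0 := by
    intro h0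
    rw [h0, map_zero] at hD
    exact exp_ne_zero hD.symm
  have hvn : v.valuation N (a ^ 2 - b ^ 2 * (-5 - om)) = 1 := by
    rw [hnorm, map_pow, map_mul, map_zpow₀, Valuation.map_neg, hD, hm, ← exp_zsmul, ← exp_add]
    rw [show m + m • (-1 : ℤ) = 0 by simp, exp_zero, one_pow]
  obtain ⟨ha, hb⟩ := of_val_norm v hD a b hvn
  have hb1 : v.valuation N b < 1 := by
    rw [← hval]
    refine prime_unique v' D.quad' h3' hD' (u := u' * (algebraMap M M' s) ^ m)
      (a := a') (b := b') (a' := algebraMap N N' a) (b' := algebraMap N N' b) ?_ ha' hb'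
      (by rw [hval, ha]) (by rw [hval]; exact hb)
    rw [← IsScalarTower.algebraMap_apply N N' M', ← IsScalarTower.algebraMap_apply N N' M',
      IsScalarTower.algebraMap_apply N M M', IsScalarTower.algebraMap_apply N M M', ← map_mul,
      ← map_add, ← hab, map_mul, he', map_pow, map_zpow₀]
    ring
  refine ⟨(s ^ m)⁻¹, a, b, ?_, ha, hb1⟩
  have hsm : s ^ m ≠ 0 := zpow_ne_zero m hs0
  rw [← hab]
  field_simp

theorem sel_descend (D : StepData om s σ σ' τ τ') (hN : Good N om) (hc : StepCond N N' om) (κ : M)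
    (h : Sel N' (algebraMap M M' s) σ' (algebraMap M M' κ)) (g : N)
    (hg : κ * σ κ = algebraMap N M (g ^ 3)) : Sel N s σ κ := by
  refine ⟨?_, ⟨g, hg⟩, fun w => desc_val D hN.hom hN.odd hc κ h g hg w, fun v hv => ?_⟩
  · intro h0
    exact h.ne_zero (by rw [h0, map_zero])
  · exact desc_three D hN.hom hc κ h g hg v hv (val_D hN.hom v hv (hN.unr v hv))

end Pool.Agent.Lib.MP_1a91b9_ntT3.S5
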