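import Pool.Agent.Lib.MP_1a91b9_ntT3.S5.ExistA

/-!
# JOB T3-S5-ExistB: the square of fields of a step
-/

set_option autoImplicit false

namespace Pool.Agent.Lib.MP_1a91b9_ntT3.S5

open IsDedekindDomain NumberField WithZero Module
open Pool.Agent.Lib.MP_1a91b9_ntT.S5 (below ram Quad exists_quad)

universe u

private theorem ExistB_coord {K L : Type*} [Field K] [CharZero K] [Field L] [Algebra K L] {d : K}
    {δ : L} {σ : L ≃ₐ[K] L} (h : Quad K L d δ σ) {a b a' b' : K}
    (hab : algebraMap K L a + algebraMap K L b * δ = algebraMap K L a' + algebraMap K L b' * δ) :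
    a = a' ∧ b = b' := by
  have hcL : CharZero L := charZero_of_injective_algebraMap (algebraMap K L).injective
  have h1 := congrArg σ hab
  simp only [map_add, map_mul, AlgEquiv.commutes, h.conj] at h1
  have h2 : (2 : L) * (algebraMap K L a - algebraMap K L a') = 0 := by
    linear_combination hab + h1
  have h3 : (2 : L) * ((algebraMap K L b - algebraMap K L b') * δ) = 0 := by
    linear_combination hab - h1
  constructor
  · rcases mul_eq_zero.1 h2 with h4 | h4
    · exact absurd h4 two_ne_zero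
    · exact (algebraMap K L).injective (sub_eq_zero.1 h4)
  · rcases mul_eq_zero.1 h3 with h4 | h4
    · exact absurd h4 two_ne_zero
    · rcases mul_eq_zero.1 h4 with h5 | h5
      · exact (algebraMap K L).injective (sub_eq_zero.1 h5)
      · exact absurd h5 h.ne

open IntermediateField in
private theorem ExistB_min {N M' : Type u} [Field N] [Field M'] [Algebra N M'] {d : N}
    (hn : ∀ x : N, x ^ 2 ≠ d) {s' : M'} (hs : s' ^ 2 = algebraMap N M' d) :
    IsIntegral N s' ∧ finrank N (N⟮s'⟯) = 2 := by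
  have hirr : Irreducible (Polynomial.X ^ 2 - Polynomial.C d) :=
    X_pow_sub_C_irreducible_of_prime Nat.prime_two hn
  have hmon : (Polynomial.X ^ 2 - Polynomial.C d).Monic :=
    Polynomial.monic_X_pow_sub_C _ (by norm_num)
  have hroot : Polynomial.aeval s' (Polynomial.X ^ 2 - Polynomial.C d) = 0 := by
    simp [hs]
  have hint : IsIntegral N s' := ⟨_, hmon, by rwa [Polynomial.aeval_def] at hroot⟩
  refine ⟨hint, ?_⟩
  rw [IntermediateField.adjoin.finrank hint, ← minpoly.eq_of_irreducible_of_monic hirr hroot hmon,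
    Polynomial.natDegree_X_pow_sub_C]

open IntermediateField in
private theorem ExistB_aux {N N' : Type u} [Field N] [NumberField N] [Field N'] [NumberField N']
    [Algebra N N'] {om : N} (hG : IsGalois N N') (h3 : finrank N N' = 3)
    (hn : ∀ x : N, x ^ 2 ≠ -5 - om)
    {M' : Type u} [Field M'] [NumberField M'] [Algebra N' M'] [Algebra N M']
    [IsScalarTower N N' M'] {s' : M'} {σ' : M' ≃ₐ[N'] M'}
    (h : Quad N' M' (-5 - algebraMap N N' om) s' σ') :
    ∃ (σ : N⟮s'⟯ ≃ₐ[N] N⟮s'⟯) (τ : N' ≃ₐ[N] N') (τ' : M' ≃ₐ[N⟮s'⟯] M'),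
      StepData om (AdjoinSimple.gen N s') σ σ' τ τ' := by
  have hs : s' ^ 2 = algebraMap N M' (-5 - om) := by
    rw [h.sq, IsScalarTower.algebraMap_apply N N' M']
    simp only [map_sub, map_neg, map_ofNat]
  obtain ⟨hint, hdeg⟩ := ExistB_min hn hs
  have hfin1 : FiniteDimensional N N' := Module.finite_of_finrank_pos (by rw [h3]; norm_num)
  have hfin : FiniteDimensional N M' := by
    have h2 : FiniteDimensional N' M' := Module.finite_of_finrank_pos (by rw [h.deg]; norm_num)
    exact Module.Finite.trans N' M'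
  have hgen : algebraMap (N⟮s'⟯) M' (AdjoinSimple.gen N s') = s' :=
    AdjoinSimple.algebraMap_gen N s'
  have hsq : (AdjoinSimple.gen N s') ^ 2 = algebraMap N (N⟮s'⟯) (-5 - om) := by
    apply (algebraMap (N⟮s'⟯) M').injective
    rw [map_pow, hgen, hs, ← IsScalarTower.algebraMap_apply]
  have hne : ∀ x : N, algebraMap N (N⟮s'⟯) x ≠ AdjoinSimple.gen N s' := by
    intro x hx
    apply hn x
    apply (algebraMap N (N⟮s'⟯)).injective
    rw [map_pow, hx, hsq]
  obtain ⟨σ, hσ⟩ := exists_quad (-5 - om) (AdjoinSimple.gen N s') hsq hdeg hne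
  obtain ⟨τ, hτ⟩ := exists_cyc hG h3
  obtain ⟨ψ, hψ, hψs⟩ := exists_lift h τ.toRingEquiv (by
    show τ (-5 - algebraMap N N' om) = -5 - algebraMap N N' om
    rw [map_sub, map_neg, map_ofNat, AlgEquiv.commutes])
  have hψ' : ∀ x : N', ψ (algebraMap N' M' x) = algebraMap N' M' (τ x) := hψ
  have hψN : ∀ t : N, ψ (algebraMap N M' t) = algebraMap N M' t := by
    intro t
    rw [IsScalarTower.algebraMap_apply N N' M', hψ', AlgEquiv.commutes]
  have hfixM : ∀ x : N⟮s'⟯, ψ (algebraMap (N⟮s'⟯) M' x) = algebraMap (N⟮s'⟯) M' x := by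
    intro x
    obtain ⟨a, b, hab⟩ := hσ.repr x
    rw [hab]
    simp only [map_add, map_mul, hgen, ← IsScalarTower.algebraMap_apply, hψN, hψs]
  let τ' : M' ≃ₐ[N⟮s'⟯] M' := AlgEquiv.ofRingEquiv (f := ψ) hfixM
  have hτ' : ∀ x, τ' x = ψ x := fun _ => rfl
  refine ⟨σ, τ, τ', inferInstance, inferInstance, hσ, ?_, hτ, ?_, ?_, ?_, ?_⟩
  · rw [hgen]
    exact h
  · refine ⟨?_, ?_, ?_⟩
    · intro x
      obtain ⟨a, b, hab⟩ := h.repr x
      simp only [hτ']
      rw [hab]
      simp only [map_add, map_mul, hψ', hψs, hτ.cube]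
    · intro x hx
      obtain ⟨a, b, hab⟩ := h.repr x
      rw [hτ', hab] at hx
      simp only [map_add, map_mul, hψ', hψs] at hx
      obtain ⟨h4, h5⟩ := ExistB_coord h hx
      obtain ⟨a0, ha0⟩ := hτ.fixed a h4
      obtain ⟨b0, hb0⟩ := hτ.fixed b h5
      refine ⟨algebraMap N (N⟮s'⟯) a0 + algebraMap N (N⟮s'⟯) b0 * AdjoinSimple.gen N s', ?_⟩
      rw [hab, ← ha0, ← hb0, map_add, map_mul, hgen, ← IsScalarTower.algebraMap_apply,
        ← IsScalarTower.algebraMap_apply, ← IsScalarTower.algebraMap_apply,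
        ← IsScalarTower.algebraMap_apply]
    · obtain ⟨y, hy⟩ := hτ.moves
      refine ⟨algebraMap N' M' y, ?_⟩
      rw [hτ', hψ']
      intro h4
      exact hy ((algebraMap N' M').injective h4)
  · intro x
    obtain ⟨a, b, hab⟩ := hσ.repr x
    have hfix : ∀ t : N, σ' (algebraMap N M' t) = algebraMap N M' t := by
      intro t
      rw [IsScalarTower.algebraMap_apply N N' M', AlgEquiv.commutes]
    rw [hab]
    simp only [map_add, map_mul, hσ.conj, AlgEquiv.commutes, map_neg, hgen,
      ← IsScalarTower.algebraMap_apply, hfix, h.conj]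
  · intro x
    rw [hτ', hψ']
  · intro x
    obtain ⟨a, b, hab⟩ := h.repr x
    simp only [hτ']
    rw [hab]
    simp only [map_add, map_mul, hψ', hψs, AlgEquiv.commutes, h.conj, map_neg]

/-- The square of fields of a step. `algebraMap N M' := (algebraMap N' M').comp (algebraMap N N')`,
`M = N⟮s'⟯` (`IntermediateField.adjoin`, degree 2 over `N` since `X ^ 2 - D` is irreducible over `N`:
`hn`); `Quad N M` from `exists_quad`; `τ` from `exists_cyc`; `τ'` = `exists_lift` of `τ` for
`Quad N' M'` (`τ` fixes `-5 - om`), it fixes `M` pointwise (`a + b s`, `a b : N`), so it is an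
`M`-algebra automorphism. `cyc'`: `a + b s` (`a b : N'`) is fixed iff `a`, `b` are (`Quad_coord`).
See `exists_stepData` / `CE2_aux` in CubExist.lean of the first tower for the instances. -/
theorem exists_stepData {N N' : Type u} [Field N] [NumberField N] [Field N'] [NumberField N']
    [Algebra N N'] {om : N} (hG : IsGalois N N') (h3 : finrank N N' = 3)
    (hn : ∀ x : N, x ^ 2 ≠ -5 - om)
    {M' : Type u} [Field M'] [NumberField M'] [Algebra N' M'] {s' : M'} {σ' : M' ≃ₐ[N'] M'}
    (h : Quad N' M' (-5 - algebraMap N N' om) s' σ') :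
    ∃ (M : Type u) (_ : Field M) (_ : NumberField M) (_ : Algebra N M) (_ : Algebra M M')
      (_ : Algebra N M') (s : M) (σ : M ≃ₐ[N] M) (τ : N' ≃ₐ[N] N') (τ' : M' ≃ₐ[M] M'),
      algebraMap M M' s = s' ∧ StepData om s σ σ' τ τ' := by
  let i1 : Algebra N M' := ((algebraMap N' M').comp (algebraMap N N')).toAlgebra
  have i2 : IsScalarTower N N' M' := IsScalarTower.of_algebraMap_eq (fun _ => rfl)
  obtain ⟨σ, τ, τ', hD⟩ := ExistB_aux hG h3 hn h
  exact ⟨IntermediateField.adjoin N {s'}, inferInstance, inferInstance, inferInstance,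
    inferInstance, i1, IntermediateField.AdjoinSimple.gen N s', σ, τ, τ',
    IntermediateField.AdjoinSimple.algebraMap_gen N s', hD⟩

end Pool.Agent.Lib.MP_1a91b9_ntT3.S5
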