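import Pool.Agent.Lib.MP_1a91b9_ntT3.S5.SelBasic

/-!
# JOB T3-S5-FixedA: eigenclasses and Hilbert 90 (STEP 1 and STEP 4 of the following proof)

Let `α` in `M'` satisfy the Selmer condition over `N'`, not a cube.
STEP 1 (`exists_eigen`): put `T(x) = τ'(x) x²`; it preserves `Sel` (`Sel.conj`, `Sel.mul`) and
`T³(α)` is a cube: `T³(α) = τ'³(α) τ'²(α)⁶ τ'(α)¹² α⁸ = (α³ τ'²(α)² τ'(α)⁴)³`. So one of `α`, `T(α)`,
`T²(α)` is not a cube while its image under `T` is a cube; call it `α` again. `T(α) = c³` gives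
`τ'(α) = α ρ³` with `ρ = c / α`.
STEP 2: `α σ'(α) = g³` with `g` in `N'`, `g ≠ 0`; `τ'` gives `(ρ σ'(ρ))³ = (τ(g) / g)³`, so
`ρ σ'(ρ) = ω^j τ(g) / g` with `j = 0, 1, 2` (`ω` = image of `om`); replace `ρ` by `ω^j ρ`: then
`ρ σ'(ρ) = τ(g) / g` (as `ω^(2j) ω^j = 1`) and still `τ'(α) = α ρ³`.
STEP 3: `n := ρ τ'(ρ) τ'²(ρ)` has `n³ = τ'³(α) / α = 1`, so `n` is a power of `ω`, `σ'(n) = n`, and
`n σ'(n) = (τ g / g) (τ² g / τ g) (τ³ g / τ² g) = 1`; so `n² = 1 = n³`, `n = 1`.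
STEP 4 (`hilbert90`): `γ ≠ 0` with `γ = ρ τ'(γ)`. `κ = α γ³` is fixed by `τ'`, hence comes from `M`.
STEP 5: `κ σ'(κ) = (g m)³` with `m = γ σ'(γ)` (in `N'`, fixed by `σ'`) and
`τ(g m) = τ(g) m / (ρ σ'(ρ)) = g m`: so `g m` comes from `N`.
-/

set_option autoImplicit false

namespace Pool.Agent.Lib.MP_1a91b9_ntT3.S5

open IsDedekindDomain NumberField WithZero Module
open Pool.Agent.Lib.MP_1a91b9_ntT.S5 (below ram Quad)

/-- `om² + om + 1 = 0`: the cube roots of unity of a field are `1`, `om`, `om²` -/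
theorem cube_root_one {L : Type*} [Field L] {om : L} (hom : om ^ 2 + om + 1 = 0) {x : L}
    (hx : x ^ 3 = 1) : x = 1 ∨ x = om ∨ x = om ^ 2 := by
  have h : (x - 1) * ((x - om) * (x - om ^ 2)) = 0 := by
    linear_combination hx + (-x ^ 2 + x * om - om + 1) * hom + x * (x * hom - (om - 1) * hom)
      - x * (x * hom - (om - 1) * hom)
  rcases mul_eq_zero.1 h with h | h
  · exact Or.inl (sub_eq_zero.1 h)
  · rcases mul_eq_zero.1 h with h | h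
    · exact Or.inr (Or.inl (sub_eq_zero.1 h))
    · exact Or.inr (Or.inr (sub_eq_zero.1 h))

/-- Hilbert 90 for a cyclic extension of degree three, by hand:
`γ(x) = x + ρ τ(x) + ρ τ(ρ) τ²(x)` satisfies `ρ τ(γ(x)) = γ(x)` for every `x`. If
`γ(1) = γ(y) = γ(y²) = 0`, `τ y ≠ y` (then `y`, `τ y`, `τ² y` are distinct), the Vandermonde
determinant of `y, τ y, τ² y` would vanish:
`γ(y²) - (τ y + τ² y) γ(y) + τ y τ² y γ(1) = (y - τ y) (y - τ² y) ≠ 0`. -/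
theorem Cyc.hilbert90 {K L : Type*} [Field K] [Field L] [Algebra K L] {τ : L ≃ₐ[K] L}
    (h : Cyc K L τ) (ρ : L) (hρ : ρ * τ ρ * τ (τ ρ) = 1) : ∃ γ : L, γ ≠ 0 ∧ γ = ρ * τ γ := by
  have key : ∀ x : L, x + ρ * τ x + ρ * τ ρ * τ (τ x) =
      ρ * τ (x + ρ * τ x + ρ * τ ρ * τ (τ x)) := by
    intro x
    simp only [map_add, map_mul, h.cube]
    linear_combination (-x) * hρ
  by_contra hc
  push Not at hc
  have hz : ∀ x : L, x + ρ * τ x + ρ * τ ρ * τ (τ x) = 0 := by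
    intro x
    by_contra hx
    exact hc _ hx (key x)
  obtain ⟨y, hy⟩ := h.moves
  have h0 := hz 1
  have h1 := hz y
  have h2 := hz (y ^ 2)
  simp only [map_one, map_pow] at h0 h2
  have e : (y - τ y) * (y - τ (τ y)) = 0 := by
    linear_combination h2 - (τ y + τ (τ y)) * h1 + τ y * τ (τ y) * h0
  rcases mul_eq_zero.1 e with e | e
  · exact hy (sub_eq_zero.1 e).symm
  · apply hy
    have e1 : τ y = τ (τ (τ y)) := congrArg τ (sub_eq_zero.1 e)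
    rw [e1, h.cube]

variable {N N' M M' : Type*} [Field N] [NumberField N] [Field N'] [NumberField N'] [Field M]
    [NumberField M] [Field M'] [NumberField M'] [Algebra N N'] [Algebra N M] [Algebra N' M']
    [Algebra M M'] [Algebra N M'] {om : N} {s : M} {σ : M ≃ₐ[N] M} {σ' : M' ≃ₐ[N'] M'}
    {τ : N' ≃ₐ[N] N'} {τ' : M' ≃ₐ[M] M'}

/-- STEP 1 -/
theorem exists_eigen (D : StepData om s σ σ' τ τ')
    (hd : ∀ v : HeightOneSpectrum (𝓞 N'), v.valuation N' 3 < 1 →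
      v.valuation N' (-5 - algebraMap N N' om) ≤ 1) (α : M')
    (h : Sel N' (algebraMap M M' s) σ' α) (hn : ¬ ∃ r : M', α = r ^ 3) :
    ∃ β ρ : M', Sel N' (algebraMap M M' s) σ' β ∧ (¬ ∃ r : M', β = r ^ 3) ∧ τ' β = β * ρ ^ 3 := by
  have hT : ∀ x : M', Sel N' (algebraMap M M' s) σ' x →
      Sel N' (algebraMap M M' s) σ' (τ' x * (x * x)) := fun x hx =>
    Sel.mul D.quad' hd (Sel.conj D hx) (Sel.mul D.quad' hd hx hx)
  have hC : ∀ x : M', Sel N' (algebraMap M M' s) σ' x → (∃ c : M', τ' x * (x * x) = c ^ 3) →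
      ∃ ρ : M', τ' x = x * ρ ^ 3 := by
    rintro x hx ⟨c, hc⟩
    refine ⟨c / x, ?_⟩
    have h0 := hx.ne_zero
    rw [div_pow, ← hc]
    field_simp
  by_cases h1 : ∃ c : M', τ' α * (α * α) = c ^ 3
  · obtain ⟨ρ, hρ⟩ := hC α h h1
    exact ⟨α, ρ, h, hn, hρ⟩
  have s1 := hT α h
  by_cases h2 : ∃ c : M', τ' (τ' α * (α * α)) * ((τ' α * (α * α)) * (τ' α * (α * α))) = c ^ 3
  · obtain ⟨ρ, hρ⟩ := hC _ s1 h2
    exact ⟨_, ρ, s1, h1, hρ⟩
  have s2 := hT _ s1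
  obtain ⟨ρ, hρ⟩ := hC _ s2 ⟨α ^ 3 * τ' (τ' α) ^ 2 * τ' α ^ 4, by
    simp only [map_mul, D.cyc'.cube]
    ring⟩
  exact ⟨_, ρ, s2, h2, hρ⟩

end Pool.Agent.Lib.MP_1a91b9_ntT3.S5
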