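import Pool.Agent.Lib.MP_1a91b9_ntT3.S5.FixedA

/-!
# JOB T3-S5-FixedB: a non-trivial class gives a non-trivial class of `M` (STEPS 2 to 5; STEP 1 is
`exists_eigen` in FixedA.lean)

Let `α` in `M'` satisfy the Selmer condition over `N'`, not a cube.
STEP 1 (`exists_eigen`): put `T(x) = τ'(x) x²`; it preserves `Sel` (`Sel.conj`, `Sel.mul`) and
`T³(α)` is a cube: `T³(α) = τ'³(α) τ'²(α)⁶ τ'(α)¹² α⁸ = (α³ τ'²(α)² τ'(α)⁴)³`. So one of `α`, `T(α)`,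
`T²(α)` is not a cube while its image under `T` is a cube; call it `α` again. `T(α) = c³` gives
`τ'(α) = α ρ³` with `ρ = c / α`.
STEP 2: `α σ'(α) = g³` with `g` in `N'`, `g ≠ 0`; `τ'` gives `(ρ σ'(ρ))³ = (τ(g) / g)³`, so
`ρ σ'(ρ) = ω^j τ(g) / g` with `j = 0, 1, 2` (`ω` = image of `om`); replace `ρ` by `ω^j ρ`: then
`ρ σ'(ρ) = τ(g) / g` (as `ω^(2j) ω^j = 1`) and still `τ'(α) = α ρ³`.
STEP 3: `n := ρ τ'(ρ) τ'²(ρ)` has `n³ = τ'³(α) / α = 1`, so `n` is a power of `ω`, `σ'(n) = n`, and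
`n σ'(n) = (τ g / g) (τ² g / τ g) (τ³ g / τ² g) = 1`; so `n² = 1 = n³`, `n = 1`.
STEP 4 (`hilbert90`): `γ ≠ 0` with `γ = ρ τ'(γ)`. `κ = α γ³` is fixed by `τ'`, hence comes from `M`.
STEP 5: `κ σ'(κ) = (g m)³` with `m = γ σ'(γ)` (in `N'`, fixed by `σ'`) and
`τ(g m) = τ(g) m / (ρ σ'(ρ)) = g m`: so `g m` comes from `N`.
-/

set_option autoImplicit false

namespace Pool.Agent.Lib.MP_1a91b9_ntT3.S5

open IsDedekindDomain NumberField WithZero Module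
open Pool.Agent.Lib.MP_1a91b9_ntT.S5 (below ram Quad)

variable {N N' M M' : Type*} [Field N] [NumberField N] [Field N'] [NumberField N'] [Field M]
    [NumberField M] [Field M'] [NumberField M'] [Algebra N N'] [Algebra N M] [Algebra N' M']
    [Algebra M M'] [Algebra N M'] {om : N} {s : M} {σ : M ≃ₐ[N] M} {σ' : M' ≃ₐ[N'] M'}
    {τ : N' ≃ₐ[N] N'} {τ' : M' ≃ₐ[M] M'}

/-- STEPS 2 to 5 -/
theorem exists_sel_fixed (D : StepData om s σ σ' τ τ') (hom : om ^ 2 + om + 1 = 0)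
    (hd : ∀ v : HeightOneSpectrum (𝓞 N'), v.valuation N' 3 < 1 →
      v.valuation N' (-5 - algebraMap N N' om) ≤ 1) (α : M')
    (h : Sel N' (algebraMap M M' s) σ' α) (hn : ¬ ∃ r : M', α = r ^ 3) :
    ∃ κ : M, Sel N' (algebraMap M M' s) σ' (algebraMap M M' κ) ∧
      (¬ ∃ r : M', algebraMap M M' κ = r ^ 3) ∧ ∃ g : N, κ * σ κ = algebraMap N M (g ^ 3) := by
  have hN := D.towN
  have hM := D.towM
  set ω : M' := algebraMap N' M' (algebraMap N N' om) with hω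
  have hω1 : ω ^ 2 + ω + 1 = 0 := by
    rw [hω, ← map_pow, ← map_pow, ← map_add, ← map_add, ← map_one (algebraMap N' M'),
      ← map_one (algebraMap N N'), ← map_add, ← map_add, hom, map_zero, map_zero]
  have hσω : σ' ω = ω := σ'.commutes _
  obtain ⟨α, ρ₀, hα, hαn, hρ₀⟩ := exists_eigen D hd α h hn
  have hα0 : α ≠ 0 := hα.ne_zero
  have hσα0 : σ' α ≠ 0 := (map_ne_zero σ').mpr hα0
  obtain ⟨g, hg⟩ := hα.norm
  set G : M' := algebraMap N' M' g with hG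
  rw [map_pow, ← hG] at hg
  have hG0 : G ≠ 0 := by
    intro h0
    rw [h0, zero_pow (by norm_num)] at hg
    exact mul_ne_zero hα0 hσα0 hg
  have hτG0 : τ' G ≠ 0 := (map_ne_zero τ').mpr hG0
  have hfix : ∀ x : M', (x = 1 ∨ x = ω ∨ x = ω ^ 2) → σ' x = x := by
    rintro x (rfl | rfl | rfl)
    · exact map_one σ'
    · exact hσω
    · rw [map_pow, hσω]
  -- STEP 2
  obtain ⟨ρ, hρ1, hρ2⟩ : ∃ ρ : M', ρ * σ' ρ * G = τ' G ∧ τ' α = α * ρ ^ 3 := by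
    have h1 : G ^ 3 * (ρ₀ * σ' ρ₀) ^ 3 = (τ' G) ^ 3 := by
      have h2 : τ' (α * σ' α) = τ' (G ^ 3) := congrArg τ' hg
      rw [map_mul, D.comm, hρ₀, map_mul, map_pow, map_pow] at h2
      rw [← h2, ← hg]
      ring
    set x : M' := ρ₀ * σ' ρ₀ * G / τ' G with hx
    have hx3 : x ^ 3 = 1 := by
      rw [hx, div_pow, div_eq_one_iff_eq (pow_ne_zero 3 hτG0), ← h1]
      ring
    have hx1 : σ' x = x := hfix x (cube_root_one hω1 hx3)
    refine ⟨x * ρ₀, ?_, ?_⟩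
    · rw [map_mul, hx1]
      have h2 : x * τ' G = ρ₀ * σ' ρ₀ * G := by
        rw [hx]
        exact div_mul_cancel₀ _ hτG0
      calc x * ρ₀ * (x * σ' ρ₀) * G = x ^ 2 * (ρ₀ * σ' ρ₀ * G) := by ring
        _ = x ^ 3 * τ' G := by rw [← h2]; ring
        _ = τ' G := by rw [hx3, one_mul]
    · rw [mul_pow, hx3, one_mul]
      exact hρ₀
  -- STEP 3
  have hn3 : (ρ * τ' ρ * τ' (τ' ρ)) ^ 3 = 1 := by
    have h1 : τ' (τ' α) = α * ρ ^ 3 * (τ' ρ) ^ 3 := by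
      rw [hρ2, map_mul, map_pow, hρ2]
    have h2 : τ' (τ' (τ' α)) = α * ρ ^ 3 * (τ' ρ) ^ 3 * (τ' (τ' ρ)) ^ 3 := by
      rw [h1, map_mul, map_mul, map_pow, map_pow, hρ2]
    rw [D.cyc'.cube] at h2
    have h3 : α * (ρ * τ' ρ * τ' (τ' ρ)) ^ 3 = α * 1 := by
      rw [mul_one]
      conv_rhs => rw [h2]
      ring
    exact mul_left_cancel₀ hα0 h3
  have hn2 : (ρ * τ' ρ * τ' (τ' ρ)) ^ 2 = 1 := by
    have h1 : σ' (ρ * τ' ρ * τ' (τ' ρ)) = ρ * τ' ρ * τ' (τ' ρ) :=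
      hfix _ (cube_root_one hω1 hn3)
    have h2 : τ' ρ * σ' (τ' ρ) * τ' G = τ' (τ' G) := by
      rw [← D.comm, ← map_mul, ← map_mul, hρ1]
    have h3 : τ' (τ' ρ) * σ' (τ' (τ' ρ)) * τ' (τ' G) = G := by
      rw [← D.comm, ← map_mul, ← map_mul, h2, D.cyc'.cube]
    have h4 : (ρ * τ' ρ * τ' (τ' ρ)) * σ' (ρ * τ' ρ * τ' (τ' ρ)) * (G * τ' G * τ' (τ' G)) =
        1 * (G * τ' G * τ' (τ' G)) := by
      rw [map_mul, map_mul]
      calc _ = (ρ * σ' ρ * G) * (τ' ρ * σ' (τ' ρ) * τ' G) *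
            (τ' (τ' ρ) * σ' (τ' (τ' ρ)) * τ' (τ' G)) := by ring
        _ = _ := by rw [h3, h2, hρ1]; ring
    have h5 : G * τ' G * τ' (τ' G) ≠ 0 :=
      mul_ne_zero (mul_ne_zero hG0 hτG0) ((map_ne_zero τ').mpr hτG0)
    have h6 := mul_right_cancel₀ h5 h4
    rw [h1] at h6
    rw [sq]
    exact h6
  have hn1 : ρ * τ' ρ * τ' (τ' ρ) = 1 := by
    have h1 := hn3
    rw [pow_succ, hn2, one_mul] at h1
    exact h1
  -- STEP 4
  obtain ⟨γ, hγ0, hγ⟩ := D.cyc'.hilbert90 ρ hn1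
  have hκ : τ' (α * γ ^ 3) = α * γ ^ 3 := by
    rw [map_mul, map_pow, hρ2]
    conv_rhs => rw [hγ]
    ring
  obtain ⟨κ, hκ'⟩ := D.cyc'.fixed _ hκ
  refine ⟨κ, ?_, ?_, ?_⟩
  · rw [hκ']
    exact Sel.mul_cube D.quad' hα hγ0
  · rintro ⟨r, hr⟩
    apply hαn
    refine ⟨r / γ, ?_⟩
    rw [div_pow, ← hr, hκ', mul_div_cancel_right₀ _ (pow_ne_zero 3 hγ0)]
  -- STEP 5
  · have hm : σ' (γ * σ' γ) = γ * σ' γ := by
      rw [map_mul, D.quad'.invol, mul_comm]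
    obtain ⟨m, hm'⟩ := D.quad'.fixed _ hm
    have h1 : G * (γ * σ' γ) = τ' (G * (γ * σ' γ)) := by
      rw [map_mul, map_mul, D.comm]
      conv_lhs => rw [hγ]
      rw [map_mul, ← hρ1]
      ring
    have h2 : τ (g * m) = g * m := by
      apply (algebraMap N' M').injective
      rw [← D.extτ, map_mul, hm', ← hG]
      exact h1.symm
    obtain ⟨g₀, hg₀⟩ := D.cyc.fixed _ h2
    refine ⟨g₀, ?_⟩
    apply (algebraMap M M').injective
    rw [map_mul, ← D.extσ, hκ', ← IsScalarTower.algebraMap_apply N M M',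
      IsScalarTower.algebraMap_apply N N' M', map_pow, map_pow, hg₀, map_mul (algebraMap N' M'), hm',
      ← hG, map_mul σ', map_pow σ', mul_pow G, ← hg]
    ring

end Pool.Agent.Lib.MP_1a91b9_ntT3.S5
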