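import Pool.Agent.Lib.MP_1a91b9_ntT3.S5.Zm
import Pool.Agent.Lib.MP_1a91b9_ntT3.S5.Gen
import Pool.Agent.Lib.MP_1a91b9_ntT3.S5.Local

/-!
# JOB T3-S5-SelBasic: the Selmer condition is stable under products, cubes, conjugation
-/

set_option autoImplicit false

namespace Pool.Agent.Lib.MP_1a91b9_ntT3.S5

open IsDedekindDomain NumberField WithZero Module
open Pool.Agent.Lib.MP_1a91b9_ntT.S5 (below ram Quad exists_conj_place)

section basic

variable {N M : Type*} [Field N] [NumberField N] [Field M] [NumberField M] [Algebra N M] {d : N}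
  {s : M} {σ : M ≃ₐ[N] M}

/-- `three`: `(a + b s) (a' + b' s) = (a a' + b b' d) + (a b' + b a') s`, `v(b b' d) < 1`. -/
theorem Sel.mul (hQ : Quad N M d s σ)
    (hd : ∀ v : HeightOneSpectrum (𝓞 N), v.valuation N 3 < 1 → v.valuation N d ≤ 1) {α β : M}
    (h : Sel N s σ α) (h' : Sel N s σ β) : Sel N s σ (α * β) := by
  refine ⟨mul_ne_zero h.ne_zero h'.ne_zero, ?_, fun w => ?_, fun v hv => ?_⟩
  · obtain ⟨g, hg⟩ := h.norm
    obtain ⟨g', hg'⟩ := h'.norm
    refine ⟨g * g', ?_⟩
    rw [map_mul, mul_pow, map_mul, ← hg, ← hg']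
    ring
  · rw [map_mul]
    exact (h.val w).mul (h'.val w)
  · obtain ⟨u, a, b, hα, ha, hb⟩ := h.three v hv
    obtain ⟨u', a', b', hβ, ha', hb'⟩ := h'.three v hv
    refine ⟨u * u', a * a' + b * b' * d, a * b' + b * a', ?_, ?_, ?_⟩
    · rw [hα, hβ]
      simp only [map_add, map_mul]
      rw [← hQ.sq]
      ring
    · have h1 : v.valuation N (a * a') = 1 := by rw [map_mul, ha, ha', one_mul]
      have h2 : v.valuation N (b * b' * d) < 1 := by
        rw [map_mul, map_mul]
        calc v.valuation N b * v.valuation N b' * v.valuation N d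
            ≤ v.valuation N b * v.valuation N b' * 1 := mul_le_mul' le_rfl (hd v hv)
          _ = v.valuation N b * v.valuation N b' := mul_one _
          _ ≤ v.valuation N b * 1 := mul_le_mul' le_rfl hb'.le
          _ = v.valuation N b := mul_one _
          _ < 1 := hb
      rw [Valuation.map_add_eq_of_lt_left _ (by rw [h1]; exact h2), h1]
    · refine Valuation.map_add_lt _ ?_ ?_
      · rw [map_mul, ha, one_mul]
        exact hb'
      · rw [map_mul, ha', mul_one]
        exact hb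

/-- `r σ(r)` is fixed by `σ`: it comes from `N` (`hQ.fixed`) -/
theorem Sel.mul_cube (hQ : Quad N M d s σ) {α r : M} (h : Sel N s σ α) (hr : r ≠ 0) :
    Sel N s σ (α * r ^ 3) := by
  refine ⟨mul_ne_zero h.ne_zero (pow_ne_zero 3 hr), ?_, fun w => ?_, fun v hv => ?_⟩
  · obtain ⟨g, hg⟩ := h.norm
    obtain ⟨q, hq⟩ := hQ.fixed (r * σ r) (by rw [map_mul, hQ.invol, mul_comm])
    refine ⟨g * q, ?_⟩
    rw [mul_pow, map_mul (algebraMap N M), ← hg, map_pow (algebraMap N M), hq, map_mul, map_pow]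
    ring
  · rw [map_mul, map_pow]
    exact (h.val w).mul (Cb.pow_three ((Valuation.ne_zero_iff _).2 hr))
  · obtain ⟨u, a, b, hα, ha, hb⟩ := h.three v hv
    refine ⟨u * r, a, b, ?_, ha, hb⟩
    conv_lhs => rw [hα]
    ring

end basic

variable {N N' M M' : Type*} [Field N] [NumberField N] [Field N'] [NumberField N'] [Field M]
    [NumberField M] [Field M'] [NumberField M'] [Algebra N N'] [Algebra N M] [Algebra N' M']
    [Algebra M M'] [Algebra N M'] {om : N} {s : M} {σ : M ≃ₐ[N] M} {σ' : M' ≃ₐ[N'] M'}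
    {τ : N' ≃ₐ[N] N'} {τ' : M' ≃ₐ[M] M'}

/-- `norm`: `D.comm`, `D.extτ`. `val`: `exists_conj_place τ' w`. `three` at `v`: let `v₀` be the place
of `N'` with `v₀(x) = v(τ x)` (`exists_conj_place τ v`), take the `u`, `a`, `b` of `α` at `v₀` and
apply `τ'` (which fixes `s`). -/
theorem Sel.conj (D : StepData om s σ σ' τ τ') {α : M'} (h : Sel N' (algebraMap M M' s) σ' α) :
    Sel N' (algebraMap M M' s) σ' (τ' α) := by
  refine ⟨?_, ?_, fun w => ?_, fun v hv => ?_⟩
  · rw [Ne, map_eq_zero_iff τ' τ'.injective]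
    exact h.ne_zero
  · obtain ⟨g, hg⟩ := h.norm
    refine ⟨τ g, ?_⟩
    rw [← D.comm, ← map_mul, hg, D.extτ, map_pow]
  · obtain ⟨w', -, hw'⟩ := exists_conj_place τ' w
    rw [← hw']
    exact h.val w'
  · obtain ⟨v', -, hv'⟩ := exists_conj_place τ v
    have h3 : v'.valuation N' 3 < 1 := by
      rw [hv', map_ofNat]
      exact hv
    obtain ⟨u, a, b, hα, ha, hb⟩ := h.three v' h3
    refine ⟨τ' u, τ a, τ b, ?_, ?_, ?_⟩
    · conv_lhs => rw [hα]
      rw [map_mul, map_pow, map_add, map_mul, D.extτ, D.extτ, τ'.commutes]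
    · rw [← hv']
      exact ha
    · rw [← hv']
      exact hb

end Pool.Agent.Lib.MP_1a91b9_ntT3.S5
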