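import Pool.Agent.Lib.MP_1a91b9_ntT3.S5.FixedB
import Pool.Agent.Lib.MP_1a91b9_ntT3.S5.Desc
import Pool.Agent.Lib.MP_1a91b9_ntT3.S5.ExistB

/-!
# JOB T3-S5-Step: the step of the induction
-/

set_option autoImplicit false

namespace Pool.Agent.Lib.MP_1a91b9_ntT3.S5

open IsDedekindDomain NumberField WithZero Module
open Pool.Agent.Lib.MP_1a91b9_ntT.S5

universe u

/-- `unr`: `v'(3) < 1`, so `ram N v' = 1` (otherwise `hc.ram` gives `v'(3) = 1`).
`odd`: `v'(D) = v(D) ^ e`, `e = ram N v'` is 1 or 3 (`ram_galois`): `isSquare_of_pow_odd`.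
`sel`: `exists_stepData`, `exists_sel_fixed`, `sel_descend`, `hN.sel`. -/
theorem good_step {N N' : Type u} [Field N] [NumberField N] [Field N'] [NumberField N']
    [Algebra N N'] (om : N) (hc : StepCond N N' om) (hN : Good N om) :
    Good N' (algebraMap N N' om) := by
  have hom' : (algebraMap N N' om) ^ 2 + algebraMap N N' om + 1 = 0 := by
    have h := congrArg (algebraMap N N') hN.hom
    simpa using h
  have hunr : ∀ v : HeightOneSpectrum (𝓞 N'), v.valuation N' 3 < 1 →
      v.valuation N' (1 + 2 * algebraMap N N' om) = exp (-1 : ℤ) := by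
    intro v hv
    have hr : ram N v = 1 := by
      by_contra hne
      exact absurd (hc.ram v hne).1 hv.ne
    have h3 : (below N v).valuation N 3 < 1 := by
      rw [← lt_one_below v, map_ofNat]
      exact hv
    have e : (1 + 2 * algebraMap N N' om : N') = algebraMap N N' (1 + 2 * om) := by
      rw [map_add, map_mul, map_one, map_ofNat]
    rw [e, val_below N v, hr, pow_one, hN.unr _ h3]
  refine ⟨hom', hunr, ?_, ?_⟩
  · intro v hv hsq
    have e : (-5 - algebraMap N N' om : N') = algebraMap N N' (-5 - om) := by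
      rw [map_sub, map_neg, map_ofNat]
    rw [e, val_below N v] at hv hsq
    have ho : Odd (ram N v) := by
      rcases ram_galois hc.gal hc.deg v with h | h <;> rw [h] <;> decide
    refine hN.odd (below N v) ?_ (isSquare_of_pow_odd _ _ ho hsq)
    intro h1
    rw [h1, one_pow] at hv
    exact hv rfl
  · intro M' _ _ _ s' σ' hQ α hα
    by_contra hns
    obtain ⟨M, i1, i2, i3, i4, i5, s, σ, τ, τ', hs, D⟩ :=
      exists_stepData hc.gal hc.deg (not_sq N hN.hom hN.unr) hQ
    subst hs
    obtain ⟨κ, hκ, hκn, g, hg⟩ := exists_sel_fixed D hN.hom (fun v hv => by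
      rw [val_D hom' v hv (hunr v hv)]
      exact exp_le_exp.2 (by norm_num : (-1 : ℤ) ≤ 0)) α hα hns
    obtain ⟨r, hr⟩ := hN.sel M s σ D.quad κ (sel_descend D hN hc κ hκ g hg)
    exact hκn ⟨algebraMap M M' r, by rw [hr, map_pow]⟩

end Pool.Agent.Lib.MP_1a91b9_ntT3.S5
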