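import Pool.Agent.Lib.MP_1a91b9_ntT3.S5.Defs

/-!
# JOB T3-S5-Zm: multiples of three in the value group `ℤᵐ⁰`

`Cb a`: `a = exp (3 k)`. Every non-zero `a : ℤᵐ⁰` is `exp n` (`exp_log`), `exp n ^ e = exp (e n)`
(`← exp_nsmul`), `exp_inj`: everything reduces to divisibility by 3 of integers. See the file Zm.lean
of the first tower for the style.
-/

set_option autoImplicit false

namespace Pool.Agent.Lib.MP_1a91b9_ntT3.S5

open IsDedekindDomain NumberField WithZero Module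

private theorem Zm_cases (a : ℤᵐ⁰) : a = 0 ∨ ∃ n : ℤ, a = exp n := by
  by_cases h : a = 0
  · exact Or.inl h
  · exact Or.inr ⟨log a, (exp_log h).symm⟩

private theorem Zm_pow (n : ℤ) (e : ℕ) : (exp n : ℤᵐ⁰) ^ e = exp ((e : ℤ) * n) := by
  rw [← exp_nsmul, nsmul_eq_mul]

theorem Cb.ne_zero {a : ℤᵐ⁰} (h : Cb a) : a ≠ 0 := by
  obtain ⟨k, rfl⟩ := h
  exact exp_ne_zero

theorem Cb.one : Cb 1 := by
  exact ⟨0, by rw [mul_zero, exp_zero]⟩

theorem Cb.mul {a b : ℤᵐ⁰} (ha : Cb a) (hb : Cb b) : Cb (a * b) := by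
  obtain ⟨k, rfl⟩ := ha
  obtain ⟨l, rfl⟩ := hb
  exact ⟨k + l, by rw [← exp_add, mul_add]⟩

theorem Cb.inv {a : ℤᵐ⁰} (ha : Cb a) : Cb a⁻¹ := by
  obtain ⟨k, rfl⟩ := ha
  exact ⟨-k, by rw [← exp_neg, mul_neg]⟩

theorem Cb.pow_three {a : ℤᵐ⁰} (ha : a ≠ 0) : Cb (a ^ 3) := by
  rcases Zm_cases a with rfl | ⟨n, rfl⟩
  · exact absurd rfl ha
  · exact ⟨n, by rw [Zm_pow]; norm_num⟩

theorem Cb.of_pow {a : ℤᵐ⁰} (e : ℕ) (he : ¬ 3 ∣ e) (h : Cb (a ^ e)) : Cb a := by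
  rcases Zm_cases a with rfl | ⟨n, rfl⟩
  · have he0 : e ≠ 0 := by
      rintro rfl
      exact he (dvd_zero 3)
    rw [zero_pow he0] at h
    exact absurd rfl h.ne_zero
  · obtain ⟨k, hk⟩ := h
    rw [Zm_pow, exp_inj] at hk
    have h3 : (3 : ℤ) ∣ (e : ℤ) * n := ⟨k, hk⟩
    have hp : Prime (3 : ℤ) := Int.prime_three
    rcases hp.dvd_or_dvd h3 with h4 | h4
    · exact absurd (by exact_mod_cast h4) he
    · obtain ⟨m, rfl⟩ := h4
      exact ⟨m, rfl⟩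

/-- `a² = b³` -/
theorem Cb.of_sq {a b : ℤᵐ⁰} (ha : a ≠ 0) (h : a ^ 2 = b ^ 3) : Cb a := by
  rcases Zm_cases a with rfl | ⟨n, rfl⟩
  · exact absurd rfl ha
  · rcases Zm_cases b with rfl | ⟨k, rfl⟩
    · rw [zero_pow three_ne_zero, Zm_pow] at h
      exact absurd h exp_ne_zero
    · rw [Zm_pow, Zm_pow, exp_inj] at h
      push_cast at h
      refine ⟨n / 3, ?_⟩
      rw [exp_inj]
      omega

theorem Cb.of_mul {a b : ℤᵐ⁰} (hb : Cb b) (h : Cb (a * b)) : Cb a := by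
  have h1 := h.mul hb.inv
  rwa [mul_assoc, mul_inv_cancel₀ hb.ne_zero, mul_one] at h1

/-- `a b = c³` and the larger of `a`, `b` is one, or `a = b`: the order of `a` is a multiple of 3 -/
theorem Cb.of_prod {a b c : ℤᵐ⁰} (hc : c ≠ 0) (h : a * b = c ^ 3)
    (hab : a = b ∨ a = 1 ∨ b = 1) : Cb a := by
  rcases hab with rfl | rfl | rfl
  · have ha : a ≠ 0 := by
      rintro rfl
      rw [mul_zero] at h
      exact pow_ne_zero 3 hc h.symm
    refine Cb.of_sq ha (b := c) ?_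
    rw [pow_two, h]
  · exact Cb.one
  · rw [mul_one] at h
    rw [h]
    exact Cb.pow_three hc

end Pool.Agent.Lib.MP_1a91b9_ntT3.S5
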